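import Pool.Agent.J6H44.P2.Stm
import Pool.Agent.Q277.LC.Bad

/-! Project P2: marked particles are sparse, in the plane. -/

set_option autoImplicit false
set_option linter.unusedSectionVars false
set_option linter.unusedVariables false

namespace Pool.Agent.J6H44.P2

open Finset Equiv Matrix Q292.LC
open Pool.Agent.Q151.LC (sig_per mem_bal)
open Pool.Agent.Q68.LC (EE_congr EE_const EE_add EE_smul EE_mono EE_succ)
open Pool.Agent.Q277.LC (bd_of_ker ms_pos' del_pos card_bal_le omr gd_of_om PE_ind peb mrk)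

open Classical in
/-- BTL2. Good environments of the marked particles and number of the marked particles. -/
def S_BTL2 : Prop := ∀ d : ℕ, d = 2 → ∃ (C m m' : ℕ), 1 ≤ C ∧ ∀ Z : ℕ, C ≤ Z →
  ∀ (L K lam r ρ κ₀ H : ℕ) [NeZero L], lam ≤ Z → ρ ≤ Z → 2 * κ₀ + 1 ≤ Z →
  (L : ℝ) ^ d ≤ Real.exp Z → Z ^ m ≤ r → 8 * Z ^ m ≤ L → Z ^ m ≤ K → K ≤ H * L ^ d →
  1 + Real.log K ≤ H →
  ∃ q₀ : ℕ, ∀ q ≥ q₀,
  ∀ σ : ℕ → (Fin d → ZMod L) × Fin d, Per σ → ∀ δ : ℝ, 1 ≤ δ * q → δ * q ≤ 2 →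
  ∀ w : ℝ, 0 ≤ w → w < 1 → ∀ κ : ℝ,
  κ = (Z : ℝ) ^ m' * ((K : ℝ) ^ (-(d / 2 : ℝ)) + 1 / ((L : ℝ) ^ d * (1 - w))) →
  (lam + 2) * κ ≤ 1 →
  PW (ed ∘ σ) (K * (q * ms d L)) δ w (fun ω A => ¬ Gd σ q K lam r ρ (2 * κ₀) ω A) ≤
    C * (H * (L : ℝ) ^ (2 * d) * Real.exp (-(ρ : ℝ)) +
      (L : ℝ) ^ (2 * d) * (1 / 2) ^ (κ₀ / (C * H))) +
    K * (L : ℝ) ^ (2 * d) * (lam + 1) * ((2 * r + 1 : ℕ) : ℝ) ^ d *
      (((2 * r + 1 : ℕ) : ℝ) ^ d * ((lam + 2) * κ)) ^ lam ∧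
  ∀ x, PW (ed ∘ σ) (K * (q * ms d L)) δ w
    (fun ω A => x ∈ A ∧ Gd σ q K lam r ρ (2 * κ₀) ω A) ≤ κ

theorem btl2 (hK : S_KER2) (hO : S_OMP2) : S_BTL2 := by
  classical
  intro d hd
  obtain ⟨C1, m, m', hC1, hK1⟩ := hK d hd
  obtain ⟨C3, hC3, hO3⟩ := hO d hd
  obtain ⟨C, hC⟩ : ∃ C, C = max C1 C3 := ⟨_, rfl⟩
  have c1 : C1 ≤ C := by rw [hC]; exact le_max_left _ _
  have c3 : C3 ≤ C := by rw [hC]; exact le_max_right _ _
  refine ⟨C, m, m', by omega, ?_⟩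
  intro Z hZ L K lam r ρ κ₀ H _ h1 h2 h3 h4 h5 h6 h7 h8 h9
  have hZ1 : 1 ≤ Z := by omega
  have hZm : 1 ≤ Z ^ m := Nat.one_le_pow _ _ hZ1
  have hL3 : 3 ≤ L := by omega
  have hK1' : 0 < K := by omega
  obtain ⟨q1, hq1⟩ := hK1 Z (by omega) L K lam r ρ (2 * κ₀) h1 h2 h3 h4 h5 h6 h7
  obtain ⟨q3, hq3⟩ := hO3 L hL3 K H (by omega) h8 h9 ρ κ₀
  have hH1 : 1 ≤ H := by
    by_contra hcon
    have : H = 0 := by omega
    rw [this] at h8
    omega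
  refine ⟨max q1 (max q3 2), ?_⟩
  intro q hq σ hσ δ hδ1 hδ2 w hw0 hw1 κ hκ hlκ
  have e1 : q1 ≤ q := le_trans (le_max_left _ _) hq
  have e3 : q3 ≤ q := le_trans (le_trans (le_max_left _ _) (le_max_right _ _)) hq
  have e4 : 2 ≤ q := le_trans (le_trans (le_max_right _ _) (le_max_right _ _)) hq
  obtain ⟨hδ0, hδle⟩ := del_pos e4 hδ1 hδ2
  have hL0 : 0 < L := Nat.pos_of_ne_zero (NeZero.ne L)
  have hLp : (0 : ℝ) < (L : ℝ) ^ d := by
    have : (0 : ℝ) < L := by exact_mod_cast hL0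
    positivity
  have hκ0 : 0 ≤ κ := by
    rw [hκ]
    have : 0 < 1 - w := by linarith
    positivity
  have hms : 0 < ms d L := ms_pos' (by omega)
  have hU : 0 < q * ms d L := Nat.mul_pos (by omega) hms
  obtain ⟨g1, g2⟩ := Pool.Agent.Q154.LC.gdm d L σ q K lam r ρ (2 * κ₀)
  have hbad : PW (ed ∘ σ) (K * (q * ms d L)) δ w (fun ω A => Om σ q K ρ κ₀ ω ∧
      viol (ed ∘ σ) (q * ms d L) K (fun v => bal v r) lam ω A) ≤
      K * (L : ℝ) ^ (2 * d) * (lam + 1) * ((2 * r + 1 : ℕ) : ℝ) ^ d *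
        (((2 * r + 1 : ℕ) : ℝ) ^ d * ((lam + 2) * κ)) ^ lam := by
    have hmain := Pool.Agent.Q257.LC.badp (Fin d → ZMod L) (ed ∘ σ) (q * ms d L) K lam
      ((2 * r + 1) ^ d) δ w κ (fun v => bal v r) (fun ω => Om σ q K ρ κ₀ ω)
      (fun ω R => Gd σ q K lam r ρ (2 * κ₀) ω R) hδ0.le hδle hw0 hw1 hκ0 hlκ hU hK1'
      (fun k => by simp only [Function.comp_apply]; rw [sig_per hσ])
      (fun v => card_bal_le v r) g1 g2
      (bd_of_ker σ q K lam r ρ (2 * κ₀) ((Z : ℝ) ^ m') δ w κ (by positivity) hδ0.le hδle hw1 hL0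
        hκ.ge
        (fun ω R hG => hq1 q e1 σ hσ δ hδ1 hδ2 ω R hG))
      (fun ω hOm j hj R hR => omr d L (by omega) hL3 σ hσ q K lam r ρ κ₀ j ω (by omega) hj hOm R hR)
    refine le_trans hmain ?_
    have hcard : (Fintype.card (Fin d → ZMod L) : ℝ) = (L : ℝ) ^ d := by
      rw [Fintype.card_fun, Fintype.card_fin, ZMod.card]
      push_cast
      rfl
    rw [hcard]
    obtain ⟨b, hb⟩ : ∃ b : ℕ, b = (2 * r + 1) ^ d := ⟨_, rfl⟩
    have hbR : ((2 * r + 1 : ℕ) : ℝ) ^ d = (b : ℝ) := by rw [hb]; push_cast; ring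
    rw [← hb, hbR]
    have hch : (b.choose (lam + 1) : ℝ) ≤ (b : ℝ) ^ (lam + 1) := by
      exact_mod_cast Nat.choose_le_pow b (lam + 1)
    have hx0 : 0 ≤ ((lam : ℝ) + 2) * κ := by positivity
    calc (K : ℝ) * ((L : ℝ) ^ d) ^ 2 * (b.choose (lam + 1) : ℝ) * (lam + 1) *
          ((lam + 2) * κ) ^ lam
        ≤ (K : ℝ) * ((L : ℝ) ^ d) ^ 2 * (b : ℝ) ^ (lam + 1) * (lam + 1) *
          ((lam + 2) * κ) ^ lam := by
          have h8 : 0 ≤ ((lam : ℝ) + 2) * κ := hx0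
          gcongr
      _ = K * (L : ℝ) ^ (2 * d) * (lam + 1) * (b : ℝ) * ((b : ℝ) * ((lam + 2) * κ)) ^ lam := by
          have h9 : ((L : ℝ) ^ d) ^ 2 = (L : ℝ) ^ (2 * d) := by rw [← pow_mul, mul_comm]
          rw [h9, mul_pow (b : ℝ), pow_succ]
          ring
  obtain ⟨P1, P2, P3, P4, P5, P6⟩ := peb (Fin d → ZMod L) (ed ∘ σ) (K * (q * ms d L)) δ w
    hδ0.le hδle hw0 hw1
  constructor
  · -- first claim
    have t3 := hq3 q e3 σ hσ δ hδ1 hδ2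
    rw [← P5]
    refine le_trans (P4 _ (fun ω A =>
          (if Om σ q K ρ κ₀ ω then (0 : ℝ) else 1) +
          (if Om σ q K ρ κ₀ ω ∧ viol (ed ∘ σ) (q * ms d L) K (fun v => bal v r) lam ω A
            then (1 : ℝ) else 0)) ?_) ?_
    · intro ω A _
      by_cases ho : Om σ q K ρ κ₀ ω
      · by_cases hv : viol (ed ∘ σ) (q * ms d L) K (fun v => bal v r) lam ω A
        · simp only [ho, hv, and_self, if_true]
          split_ifs <;> norm_num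
        · have hGd := gd_of_om σ q K lam r ρ κ₀ ω A ho hv
          simp only [hGd, ho, hv, not_true_eq_false, and_false, if_true, if_false]
          norm_num
      · simp only [ho, false_and, if_false]
        split_ifs <;> norm_num
    rw [P2, P1, PE_ind]
    refine add_le_add ?_ hbad
    refine le_trans t3 ?_
    have s1 : (1 / 2 : ℝ) ^ (κ₀ / (C3 * H)) ≤ (1 / 2) ^ (κ₀ / (C * H)) := by
      refine pow_le_pow_of_le_one (by norm_num) (by norm_num) ?_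
      exact Nat.div_le_div_left (Nat.mul_le_mul_right _ c3) (Nat.mul_pos (by omega) (by omega))
    have s2 : (C3 : ℝ) ≤ C := by exact_mod_cast c3
    have s3 : 0 ≤ Real.exp (-(ρ : ℝ)) := (Real.exp_pos _).le
    have s4 : (0 : ℝ) ≤ (L : ℝ) ^ (2 * d) := by positivity
    calc (C3 : ℝ) * (H * (L : ℝ) ^ (2 * d) * Real.exp (-(ρ : ℝ)) +
          (L : ℝ) ^ (2 * d) * (1 / 2) ^ (κ₀ / (C3 * H)))
        ≤ (C : ℝ) * (H * (L : ℝ) ^ (2 * d) * Real.exp (-(ρ : ℝ)) +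
          (L : ℝ) ^ (2 * d) * (1 / 2) ^ (κ₀ / (C3 * H))) :=
          mul_le_mul_of_nonneg_right s2 (by positivity)
      _ ≤ _ := by
          refine mul_le_mul_of_nonneg_left ?_ (by positivity)
          have := mul_le_mul_of_nonneg_left s1 s4
          linarith
  · intro x
    refine mrk (Fin d → ZMod L) (ed ∘ σ) (K * (q * ms d L)) δ w κ
      (fun ω A => Gd σ q K lam r ρ (2 * κ₀) ω A) hδ0.le hδle hw0 hw1 hκ0 g1 g2 ?_ x
    intro ω R hG U hUR x hxR hxU y hyU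
    exact bd_of_ker σ q K lam r ρ (2 * κ₀) ((Z : ℝ) ^ m') δ w κ (by positivity) hδ0.le hδle hw1
      hL0 hκ.ge
      (fun ω R hG => hq1 q e1 σ hσ δ hδ1 hδ2 ω R hG) ω R hG w hw0 le_rfl U hUR x hxR hxU y hyU

end Pool.Agent.J6H44.P2
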