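import Mathlib

/-! Project P2: parameters and numerical estimates for `S_DEV2`. -/

set_option autoImplicit false

namespace Pool.Agent.J6H44.P2

/-- the parameters -/
theorem par2 (C big me h X : ℕ) (hC : 1 ≤ C) : ∃ L₀ : ℕ, ∀ L K : ℕ, L₀ ≤ L →
    (Real.log L) ^ (2 * big + 1) ≤ K → 16 * K ≤ h ^ 2 * L ^ 2 →
    ∃ Z H : ℕ, X ≤ Z ∧ X ≤ L ∧ 3 ≤ L ∧ 1 ≤ Real.log L ∧ 20 * Real.log L ≤ Z ∧ Z ^ big ≤ K ∧
      Z ^ (me + 2) ≤ L ∧ 1 ≤ H ∧ H ≤ Z ∧ K ≤ H * L ^ 2 ∧ 1 + Real.log K ≤ H ∧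
      20 * (C : ℝ) * H * Real.log L ≤ (((Z - 1) / 2 : ℕ) : ℝ) := by
  obtain ⟨M, hM⟩ : ∃ M : ℝ, M = 1 + X + (h : ℝ) ^ 2 + (600 * (C : ℝ)) ^ big +
    (600 * (C : ℝ)) ^ (me + 2) * (((2 * (me + 2) + 1).factorial : ℕ) : ℝ) := ⟨_, rfl⟩
  have hC' : (1 : ℝ) ≤ C := by exact_mod_cast hC
  have n1 : (0 : ℝ) ≤ X := Nat.cast_nonneg _
  have n2 : (0 : ℝ) ≤ (h : ℝ) ^ 2 := by positivity
  have n3 : (0 : ℝ) ≤ (600 * (C : ℝ)) ^ big := by positivity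
  have n4 : (0 : ℝ) ≤ (600 * (C : ℝ)) ^ (me + 2) *
    (((2 * (me + 2) + 1).factorial : ℕ) : ℝ) := by positivity
  refine ⟨⌈Real.exp M⌉₊ + 3, ?_⟩
  intro L K hL hK hKL
  obtain ⟨ℓ, hℓ⟩ : ∃ ℓ : ℝ, ℓ = Real.log L := ⟨_, rfl⟩
  have hLr : Real.exp M ≤ L := by
    have h1 : Real.exp M ≤ ⌈Real.exp M⌉₊ := Nat.le_ceil _
    have h2 : ((⌈Real.exp M⌉₊ + 3 : ℕ) : ℝ) ≤ L := by exact_mod_cast hL
    push_cast at h2
    linarith
  have hL0 : (0 : ℝ) < L := lt_of_lt_of_le (Real.exp_pos _) hLr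
  have hMℓ : M ≤ ℓ := by
    rw [hℓ, Real.le_log_iff_exp_le hL0]
    exact hLr
  have h1ℓ : 1 ≤ ℓ := by linarith
  have hℓL : ℓ ≤ L := by
    have := Real.log_le_sub_one_of_pos hL0
    linarith
  have hexpℓ : Real.exp ℓ = L := by rw [hℓ]; exact Real.exp_log hL0
  rw [← hℓ] at hK ⊢
  obtain ⟨Z, hZ⟩ : ∃ Z : ℕ, Z = ⌈300 * (C : ℝ) * ℓ ^ 2⌉₊ := ⟨_, rfl⟩
  obtain ⟨H, hH⟩ : ∃ H : ℕ, H = ⌈5 * ℓ⌉₊ := ⟨_, rfl⟩
  have hℓ2 : ℓ ≤ ℓ ^ 2 := by nlinarith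
  have hCℓ : ℓ ^ 2 ≤ C * ℓ ^ 2 := le_mul_of_one_le_left (by positivity) hC'
  have hZ1 : 300 * (C : ℝ) * ℓ ^ 2 ≤ Z := by rw [hZ]; exact Nat.le_ceil _
  have hZ2 : (Z : ℝ) ≤ 600 * C * ℓ ^ 2 := by
    have h1 : (Z : ℝ) < 300 * (C : ℝ) * ℓ ^ 2 + 1 := by
      rw [hZ]
      exact Nat.ceil_lt_add_one (by positivity)
    linarith
  have hH1 : 5 * ℓ ≤ H := by rw [hH]; exact Nat.le_ceil _
  have hH2 : (H : ℝ) ≤ 6 * ℓ := by
    have h1 : (H : ℝ) < 5 * ℓ + 1 := by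
      rw [hH]
      exact Nat.ceil_lt_add_one (by positivity)
    linarith
  have hZℓ : 300 * ℓ ≤ Z := by linarith
  have hZ300 : (300 : ℝ) ≤ Z := by linarith
  have hZbig : Z ^ big ≤ K := by
    have h1 : (Z : ℝ) ^ big ≤ K := by
      calc (Z : ℝ) ^ big ≤ (600 * C * ℓ ^ 2) ^ big := pow_le_pow_left₀ (Nat.cast_nonneg _) hZ2 _
        _ = (600 * (C : ℝ)) ^ big * ℓ ^ (2 * big) := by rw [mul_pow, ← pow_mul]
        _ ≤ ℓ * ℓ ^ (2 * big) := mul_le_mul_of_nonneg_right (by linarith) (by positivity)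
        _ = ℓ ^ (2 * big + 1) := by ring
        _ ≤ K := hK
    exact_mod_cast h1
  have hK1 : 1 ≤ K := by
    have : 1 ≤ Z ^ big := Nat.one_le_pow _ _ (by
      have : (0 : ℝ) < Z := by linarith
      exact_mod_cast this)
    omega
  refine ⟨Z, H, ?_, ?_, by omega, h1ℓ, by linarith, hZbig, ?_, ?_, ?_, ?_, ?_, ?_⟩
  · have : (X : ℝ) ≤ Z := by linarith
    exact_mod_cast this
  · have : (X : ℝ) ≤ L := by linarith
    exact_mod_cast this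
  · have h1 : (Z : ℝ) ^ (me + 2) ≤ L := by
      have h2 := Real.pow_div_factorial_le_exp ℓ (by linarith) (2 * (me + 2) + 1)
      have h3 : (0 : ℝ) < (((2 * (me + 2) + 1).factorial : ℕ) : ℝ) := by positivity
      calc (Z : ℝ) ^ (me + 2) ≤ (600 * C * ℓ ^ 2) ^ (me + 2) :=
            pow_le_pow_left₀ (Nat.cast_nonneg _) hZ2 _
        _ = (600 * (C : ℝ)) ^ (me + 2) * ℓ ^ (2 * (me + 2)) := by rw [mul_pow, ← pow_mul]
        _ ≤ ℓ ^ (2 * (me + 2) + 1) / (((2 * (me + 2) + 1).factorial : ℕ) : ℝ) := by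
            rw [le_div_iff₀ h3]
            calc (600 * (C : ℝ)) ^ (me + 2) * ℓ ^ (2 * (me + 2)) *
                (((2 * (me + 2) + 1).factorial : ℕ) : ℝ)
                = ((600 * (C : ℝ)) ^ (me + 2) * (((2 * (me + 2) + 1).factorial : ℕ) : ℝ)) *
                  ℓ ^ (2 * (me + 2)) := by ring
              _ ≤ ℓ * ℓ ^ (2 * (me + 2)) := mul_le_mul_of_nonneg_right (by linarith) (by positivity)
              _ = _ := by ring
        _ ≤ Real.exp ℓ := h2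
        _ = L := hexpℓ
    exact_mod_cast h1
  · have : (1 : ℝ) ≤ H := by linarith
    exact_mod_cast this
  · have : (H : ℝ) ≤ Z := by linarith
    exact_mod_cast this
  · have h1 : (K : ℝ) ≤ H * (L : ℝ) ^ 2 := by
      have h2 : 16 * (K : ℝ) ≤ (h : ℝ) ^ 2 * (L : ℝ) ^ 2 := by exact_mod_cast hKL
      have h3 : (h : ℝ) ^ 2 * (L : ℝ) ^ 2 ≤ H * (L : ℝ) ^ 2 :=
        mul_le_mul_of_nonneg_right (by linarith) (by positivity)
      have h4 : (0 : ℝ) ≤ K := Nat.cast_nonneg _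
      linarith
    exact_mod_cast h1
  · have hK0 : (0 : ℝ) < K := by
      have : 0 < K := by omega
      exact_mod_cast this
    have h2 : 16 * (K : ℝ) ≤ (h : ℝ) ^ 2 * (L : ℝ) ^ 2 := by exact_mod_cast hKL
    have hh0 : (0 : ℝ) < (h : ℝ) ^ 2 := by
      by_contra hcon
      have : (h : ℝ) ^ 2 = 0 := le_antisymm (not_lt.1 hcon) n2
      rw [this] at h2
      linarith
    have h3 : Real.log K ≤ Real.log ((h : ℝ) ^ 2 * (L : ℝ) ^ 2) :=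
      Real.log_le_log hK0 (by linarith)
    rw [Real.log_mul hh0.ne' (by positivity), Real.log_pow (n := 2) (x := (L : ℝ)), ← hℓ] at h3
    have h4 := Real.log_le_sub_one_of_pos hh0
    push_cast at h3
    linarith
  · have h1 : (Z : ℝ) / 2 - 1 ≤ (((Z - 1) / 2 : ℕ) : ℝ) := by
      have h2 : Z ≤ 2 * ((Z - 1) / 2) + 2 := by omega
      have h3 : (Z : ℝ) ≤ 2 * (((Z - 1) / 2 : ℕ) : ℝ) + 2 := by exact_mod_cast h2
      linarith
    refine le_trans ?_ h1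
    have h2 : 20 * (C : ℝ) * H * ℓ ≤ 20 * C * (6 * ℓ) * ℓ :=
      mul_le_mul_of_nonneg_right (mul_le_mul_of_nonneg_left hH2 (by positivity)) (by linarith)
    have h3 : 20 * (C : ℝ) * (6 * ℓ) * ℓ = 120 * (C * ℓ ^ 2) := by ring
    have h4 : 300 * (C : ℝ) * ℓ ^ 2 = 300 * (C * ℓ ^ 2) := by ring
    rw [h4] at hZ1
    linarith

/-- the probability of bad environments -/
theorem fail2 (C L K Z H : ℕ) (b κ : ℝ) (hC : 1 ≤ C) (hL : 3 ≤ L) (hℓ : 1 ≤ Real.log L)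
    (hH1 : 1 ≤ H) (hHZ : H ≤ Z) (hZL : Z ≤ L) (hZℓ : 20 * Real.log L ≤ Z) (hK : K ≤ H * L ^ 2)
    (hκ₀ : 20 * (C : ℝ) * H * Real.log L ≤ (((Z - 1) / 2 : ℕ) : ℝ)) (hb0 : 0 ≤ b)
    (hb : (Z + 1) * b ≤ (L : ℝ) ^ 2) (hκ0 : 0 ≤ κ)
    (hkey : b * ((Z + 2) * κ) ≤ Real.exp (-1)) :
    C * (H * (L : ℝ) ^ 4 * Real.exp (-(Z : ℝ)) +
      (L : ℝ) ^ 4 * (1 / 2) ^ (((Z - 1) / 2) / (C * H))) +
    K * (L : ℝ) ^ 4 * (Z + 1) * b * (b * ((Z + 2) * κ)) ^ Z ≤ (2 * C + 1) * (1 / L) := by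
  obtain ⟨ℓ, hℓd⟩ : ∃ ℓ : ℝ, ℓ = Real.log L := ⟨_, rfl⟩
  have hL0 : (0 : ℝ) < L := by
    have : 0 < L := by omega
    exact_mod_cast this
  have hL1 : (1 : ℝ) ≤ L := by
    have : 1 ≤ L := by omega
    exact_mod_cast this
  have hexp : ∀ n : ℕ, Real.exp (-(n * ℓ)) = 1 / (L : ℝ) ^ n := by
    intro n
    rw [Real.exp_neg, Real.exp_nat_mul, hℓd, Real.exp_log hL0, one_div]
  rw [← hℓd] at hℓ hZℓ hκ₀
  have hC' : (1 : ℝ) ≤ C := by exact_mod_cast hC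
  have hH' : (1 : ℝ) ≤ H := by exact_mod_cast hH1
  have hHL : (H : ℝ) ≤ L := by exact_mod_cast hHZ.trans hZL
  have hZe : Real.exp (-(Z : ℝ)) ≤ 1 / (L : ℝ) ^ 20 := by
    rw [← hexp 20]
    refine Real.exp_le_exp.2 ?_
    push_cast
    linarith
  -- first term
  have t1 : H * (L : ℝ) ^ 4 * Real.exp (-(Z : ℝ)) ≤ 1 / L := by
    calc H * (L : ℝ) ^ 4 * Real.exp (-(Z : ℝ)) ≤ L * (L : ℝ) ^ 4 * (1 / (L : ℝ) ^ 20) :=
          mul_le_mul (mul_le_mul_of_nonneg_right hHL (by positivity)) hZe (Real.exp_pos _).le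
            (by positivity)
      _ = 1 / (L : ℝ) ^ 15 := by
          field_simp
      _ ≤ 1 / (L : ℝ) := by
          refine one_div_le_one_div_of_le hL0 ?_
          exact le_self_pow₀ hL1 (by norm_num)
  -- second term
  have t2 : (L : ℝ) ^ 4 * (1 / 2) ^ (((Z - 1) / 2) / (C * H)) ≤ 1 / L := by
    obtain ⟨n, hn⟩ : ∃ n, n = ((Z - 1) / 2) / (C * H) := ⟨_, rfl⟩
    have hCH : 0 < C * H := Nat.mul_pos (by omega) (by omega)
    have hCH' : (0 : ℝ) < (C : ℝ) * H := by positivity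
    have h1 : 10 * ℓ ≤ n := by
      have h2 : ((Z - 1) / 2) < (n + 1) * (C * H) := by
        rw [hn]
        have := Nat.lt_div_mul_add (a := (Z - 1) / 2) (b := C * H) hCH
        calc (Z - 1) / 2 < (Z - 1) / 2 / (C * H) * (C * H) + C * H := this
          _ = _ := by ring
      have h3 : ((((Z - 1) / 2 : ℕ)) : ℝ) ≤ ((n : ℝ) + 1) * (C * H) := by exact_mod_cast h2.le
      have h4 : (20 * ℓ) * ((C : ℝ) * H) ≤ ((n : ℝ) + 1) * (C * H) := by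
        calc (20 * ℓ) * ((C : ℝ) * H) = 20 * (C : ℝ) * H * ℓ := by ring
          _ ≤ _ := hκ₀.trans h3
      have h5 := le_of_mul_le_mul_right h4 hCH'
      linarith
    rw [← hn]
    have h2 : ((1 : ℝ) / 2) ^ n ≤ 1 / (L : ℝ) ^ 5 := by
      have h3 : ((1 : ℝ) / 2) ^ n = Real.exp (-(n * Real.log 2)) := by
        rw [Real.exp_neg, Real.exp_nat_mul, Real.exp_log (by norm_num), one_div, inv_pow]
      rw [h3, ← hexp 5]
      refine Real.exp_le_exp.2 ?_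
      have h4 := Real.log_two_gt_d9
      have h5 : (10 * ℓ) * (1 / 2) ≤ n * Real.log 2 :=
        mul_le_mul h1 (by linarith) (by norm_num) (Nat.cast_nonneg _)
      push_cast
      linarith
    calc (L : ℝ) ^ 4 * (1 / 2) ^ n ≤ (L : ℝ) ^ 4 * (1 / (L : ℝ) ^ 5) :=
          mul_le_mul_of_nonneg_left h2 (by positivity)
      _ = 1 / L := by field_simp
  -- third term
  have t3 : K * (L : ℝ) ^ 4 * (Z + 1) * b * (b * ((Z + 2) * κ)) ^ Z ≤ 1 / L := by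
    have h1 : (b * ((Z + 2) * κ)) ^ Z ≤ 1 / (L : ℝ) ^ 20 := by
      calc (b * ((Z + 2) * κ)) ^ Z ≤ (Real.exp (-1)) ^ Z :=
            pow_le_pow_left₀ (by positivity) hkey Z
        _ = Real.exp (-(Z : ℝ)) := by
            rw [← Real.exp_nat_mul]
            congr 1
            ring
        _ ≤ _ := hZe
    have h2 : (K : ℝ) ≤ L * (L : ℝ) ^ 2 := by
      have h3 : (K : ℝ) ≤ H * (L : ℝ) ^ 2 := by exact_mod_cast hK
      exact h3.trans (mul_le_mul_of_nonneg_right hHL (by positivity))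
    calc K * (L : ℝ) ^ 4 * (Z + 1) * b * (b * ((Z + 2) * κ)) ^ Z
        = (K * (L : ℝ) ^ 4) * ((Z + 1) * b) * (b * ((Z + 2) * κ)) ^ Z := by ring
      _ ≤ ((L * (L : ℝ) ^ 2) * (L : ℝ) ^ 4) * (L : ℝ) ^ 2 * (1 / (L : ℝ) ^ 20) := by
          refine mul_le_mul (mul_le_mul (mul_le_mul_of_nonneg_right h2 (by positivity)) hb
            (by positivity) (by positivity)) h1 (by positivity) (by positivity)
      _ = 1 / (L : ℝ) ^ 11 := by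
          field_simp
      _ ≤ 1 / (L : ℝ) := by
          refine one_div_le_one_div_of_le hL0 ?_
          exact le_self_pow₀ hL1 (by norm_num)
  have h6 : C * (H * (L : ℝ) ^ 4 * Real.exp (-(Z : ℝ)) +
      (L : ℝ) ^ 4 * (1 / 2) ^ (((Z - 1) / 2) / (C * H))) ≤ C * (1 / L + 1 / L) :=
    mul_le_mul_of_nonneg_left (add_le_add t1 t2) (by linarith)
  calc _ ≤ C * (1 / L + 1 / L) + 1 / (L : ℝ) := add_le_add h6 t3
    _ = _ := by ring

/-- box side -/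
theorem side2 (K L h Z me : ℕ) (hh : 1 ≤ h) (hhZ : h ≤ Z) (hK : Z ^ (2 * me + 2) ≤ K)
    (hKL : 16 * K ≤ h ^ 2 * L ^ 2) :
    Z ^ me ≤ Nat.sqrt K / h ∧ 4 * (Nat.sqrt K / h) ≤ L ∧
      Real.sqrt K ≤ 2 * h * ((Nat.sqrt K / h : ℕ) : ℝ) ∧
      (K : ℝ) ≤ 4 * (h : ℝ) ^ 2 * ((Nat.sqrt K / h : ℕ) : ℝ) ^ 2 := by
  obtain ⟨r, hr⟩ : ∃ r, r = Nat.sqrt K / h := ⟨_, rfl⟩
  have hZ1 : 1 ≤ Z := hh.trans hhZ
  have h1 : Z ^ me ≤ r := by
    rw [hr, Nat.le_div_iff_mul_le (by omega), Nat.le_sqrt]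
    calc Z ^ me * h * (Z ^ me * h) ≤ Z ^ me * Z * (Z ^ me * Z) :=
          Nat.mul_le_mul (Nat.mul_le_mul_left _ hhZ) (Nat.mul_le_mul_left _ hhZ)
      _ = Z ^ (2 * me + 2) := by ring
      _ ≤ K := hK
  have hr1 : 1 ≤ r := (Nat.one_le_pow _ _ hZ1).trans h1
  have hrs : r * h ≤ Nat.sqrt K := by rw [hr]; exact Nat.div_mul_le_self _ _
  have hs := Nat.sqrt_le K
  have h2 : 4 * r ≤ L := by
    have h3 : (4 * r * h) ^ 2 ≤ (h * L) ^ 2 := by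
      calc (4 * r * h) ^ 2 = 16 * ((r * h) * (r * h)) := by ring
        _ ≤ 16 * (Nat.sqrt K * Nat.sqrt K) :=
          Nat.mul_le_mul_left _ (Nat.mul_le_mul hrs hrs)
        _ ≤ 16 * K := Nat.mul_le_mul_left _ hs
        _ ≤ h ^ 2 * L ^ 2 := hKL
        _ = _ := by ring
    have h4 : 4 * r * h ≤ h * L := le_of_pow_le_pow_left₀ (by norm_num) (Nat.zero_le _) h3
    have h5 : h * (4 * r) ≤ h * L := by
      calc h * (4 * r) = 4 * r * h := by ring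
        _ ≤ _ := h4
    exact Nat.le_of_mul_le_mul_left h5 (by omega)
  have h3 : Real.sqrt K ≤ 2 * h * (r : ℝ) := by
    have h4 : Nat.sqrt K < (r + 1) * h := by
      rw [hr]
      have := Nat.lt_div_mul_add (a := Nat.sqrt K) (b := h) (by omega)
      calc Nat.sqrt K < Nat.sqrt K / h * h + h := this
        _ = _ := by ring
    have h5 : Nat.sqrt K + 1 ≤ 2 * h * r := by
      have h6 : (r + 1) * h ≤ 2 * h * r := by
        have : h ≤ h * r := Nat.le_mul_of_pos_right _ (by omega)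
        nlinarith
      omega
    have h6 : Real.sqrt K ≤ ((Nat.sqrt K + 1 : ℕ) : ℝ) := by
      rw [Real.sqrt_le_left (by positivity)]
      have h7 := (Nat.lt_succ_sqrt K).le
      have h8 : K ≤ (Nat.sqrt K + 1) ^ 2 := by
        rw [pow_two]
        exact h7
      exact_mod_cast h8
    have h7 : ((Nat.sqrt K + 1 : ℕ) : ℝ) ≤ 2 * h * (r : ℝ) := by exact_mod_cast h5
    exact h6.trans h7
  rw [← hr]
  refine ⟨h1, h2, h3, ?_⟩
  have h4 : (Real.sqrt K) ^ 2 ≤ (2 * h * (r : ℝ)) ^ 2 :=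
    pow_le_pow_left₀ (Real.sqrt_nonneg _) h3 2
  rw [Real.sq_sqrt (Nat.cast_nonneg _)] at h4
  calc (K : ℝ) ≤ (2 * h * (r : ℝ)) ^ 2 := h4
    _ = _ := by ring

/-- number of marked points in a box -/
theorem size2 (Z me r : ℕ) (η : ℝ) (hη : 0 < η) (hme : 1 ≤ me) (hZ3 : 3 ≤ Z)
    (hZη : 225 ≤ η * Z) (hr : Z ^ me ≤ r) :
    ((Z * (2 * (2 * r / (Z ^ me / 2)) + 3) ^ 2 : ℕ) : ℝ) ≤ η * (r : ℝ) ^ 2 := by
  obtain ⟨s, hs⟩ : ∃ s, s = Z ^ me := ⟨_, rfl⟩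
  have hsZ : Z ≤ s := by rw [hs]; exact Nat.le_self_pow (by omega) _
  have hs3 : 3 ≤ s := hZ3.trans hsZ
  have hs0 : (0 : ℝ) < s := by
    have : 0 < s := by omega
    exact_mod_cast this
  have hZ0 : (0 : ℝ) < Z := by
    have : 0 < Z := by omega
    exact_mod_cast this
  rw [← hs] at hr ⊢
  have hr' : (s : ℝ) ≤ r := by exact_mod_cast hr
  have hr0 : (0 : ℝ) < r := by linarith
  have h1 : (s : ℝ) / 3 ≤ ((s / 2 : ℕ) : ℝ) := by
    have h2 : s ≤ 3 * (s / 2) := by omega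
    have h3 : (s : ℝ) ≤ 3 * ((s / 2 : ℕ) : ℝ) := by exact_mod_cast h2
    linarith
  have h2 : ((2 * r / (s / 2) : ℕ) : ℝ) ≤ 6 * r / s := by
    refine Nat.cast_div_le.trans ?_
    push_cast
    have h4 : (0 : ℝ) < ((s / 2 : ℕ) : ℝ) := by
      have : 0 < s / 2 := by omega
      exact_mod_cast this
    rw [div_le_div_iff₀ (by exact_mod_cast h4) hs0]
    have h5 : 2 * (r : ℝ) * s ≤ 2 * r * (3 * ((s / 2 : ℕ) : ℝ)) :=
      mul_le_mul_of_nonneg_left (by linarith) (by positivity)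
    calc 2 * (r : ℝ) * s ≤ 2 * r * (3 * ((s / 2 : ℕ) : ℝ)) := h5
      _ = 6 * (r : ℝ) * ((s / 2 : ℕ) : ℝ) := by ring
  have h3 : 2 * ((2 * r / (s / 2) : ℕ) : ℝ) + 3 ≤ 15 * r / s := by
    have h4 : 3 ≤ 3 * (r : ℝ) / s := by
      rw [le_div_iff₀ hs0]
      linarith
    calc 2 * ((2 * r / (s / 2) : ℕ) : ℝ) + 3 ≤ 2 * (6 * r / s) + 3 * (r : ℝ) / s := by linarith
      _ = _ := by ring
  have h4 : (2 * ((2 * r / (s / 2) : ℕ) : ℝ) + 3) ^ 2 ≤ (15 * r / s) ^ 2 :=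
    pow_le_pow_left₀ (by positivity) h3 2
  have h5 : ((Z * (2 * (2 * r / (s / 2)) + 3) ^ 2 : ℕ) : ℝ) =
      Z * (2 * ((2 * r / (s / 2) : ℕ) : ℝ) + 3) ^ 2 := by push_cast; ring
  rw [h5]
  have hsZ' : (Z : ℝ) ≤ s := by exact_mod_cast hsZ
  calc (Z : ℝ) * (2 * ((2 * r / (s / 2) : ℕ) : ℝ) + 3) ^ 2 ≤ Z * (15 * r / s) ^ 2 :=
        mul_le_mul_of_nonneg_left h4 hZ0.le
    _ = 225 * (Z * (r : ℝ) ^ 2 / s ^ 2) := by ring
    _ ≤ 225 * ((r : ℝ) ^ 2 / Z) := by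
        refine mul_le_mul_of_nonneg_left ?_ (by norm_num)
        rw [div_le_div_iff₀ (by positivity) hZ0]
        have h6 : (Z : ℝ) * Z ≤ s ^ 2 := by rw [pow_two]; exact mul_le_mul hsZ' hsZ' hZ0.le hs0.le
        calc (Z : ℝ) * (r : ℝ) ^ 2 * Z = (r : ℝ) ^ 2 * (Z * Z) := by ring
          _ ≤ _ := mul_le_mul_of_nonneg_left h6 (by positivity)
    _ ≤ (η * Z) * ((r : ℝ) ^ 2 / Z) := mul_le_mul_of_nonneg_right hZη (by positivity)
    _ = _ := by field_simp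

end Pool.Agent.J6H44.P2
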