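import Pool.Agent.Q292.LC.Stm7
import Pool.Agent.J6H44.PL.Dva
import Pool.Agent.J6H44.PL.TwoB

/-!
# Project P2: long cycles of random stirring in the plane at polylogarithmic times (statements)

Two dimensions (`d = 2`; the dimension is kept as a variable `d` with the hypothesis `d = 2` so that
the statements and lemmas of project LC fit literally).
-/

set_option autoImplicit false

namespace Pool.Agent.J6H44.P2

open Finset Equiv Matrix Q292.LC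
open Pool.Agent.Y998.ST (stirExp nnRate qq)
open Pool.Agent.J6H44.PL (Dv)

section defs

variable {d L : ℕ} [NeZero L]

/-- The blocked points of a sweep: the positions `A` of the particles at its start and the end
points of the steps of the sweep with coin `true` which touch a particle. -/
def bdS (σ : ℕ → (Fin d → ZMod L) × Fin d) (ω : ℕ → Bool) (A : Finset (Fin d → ZMod L)) :
    Finset (Fin d → ZMod L) :=
  A ∪ ((Finset.range (ms d L)).filter fun k => ω k = true ∧ tch (ed ∘ σ) ω A k).biUnion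
    fun k => {(ed (σ k)).1, (ed (σ k)).2}

open Classical in
/-- The points `x` such that in every coordinate direction the segment of the points
`x + j e_i`, `|j| ≤ W`, contains a point of `S`. -/
noncomputable def dm (W : ℕ) (S : Finset (Fin d → ZMod L)) : Finset (Fin d → ZMod L) :=
  univ.filter fun x => ∀ i : Fin d, ∃ j : ℤ, |j| ≤ (W : ℤ) ∧ x + Pi.single i ((j : ℤ) : ZMod L) ∈ S

/-- energy of the edges without a point of `S` -/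
noncomputable def eg (S : Finset (Fin d → ZMod L)) (f : (Fin d → ZMod L) → ℝ) : ℝ :=
  ∑ i : (Fin d → ZMod L) × Fin d, if (ed i).1 ∉ S ∧ (ed i).2 ∉ S then
    (f (ed i).1 - f (ed i).2) ^ 2 else 0

/-- energy of the near pairs outside `Dm` -/
noncomputable def en (r : ℕ) (Dm : Finset (Fin d → ZMod L)) (f : (Fin d → ZMod L) → ℝ) : ℝ :=
  ∑ x, ∑ y, if x ∉ Dm ∧ y ∉ Dm ∧ td x y ≤ 2 * d * r then (f x - f y) ^ 2 else 0

end defs

/-- SWD2. Decrease of the square norm in one sweep, for an arbitrary function.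
Proof. As SWD (Pool.Agent.Q53.LC.Swd) with `B = univ`: for an edge without a blocked point the step of
the sweep with this edge is not touched (a particle which is not at its starting position is at an
end point of a touched step with coin `true`), and the steps before it which change the values at
its end points are free. -/
def S_SWD2 : Prop := ∀ (d L : ℕ) [NeZero L], 1 ≤ d → 3 ≤ L →
  ∀ σ : ℕ → (Fin d → ZMod L) × Fin d, Per σ → ∀ (ω : ℕ → Bool) (A : Finset (Fin d → ZMod L))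
  (δ : ℝ) (g : (Fin d → ZMod L) → ℝ), 0 < δ → 16 * d * δ ≤ 1 →
  ∑ y, (vecMul g (TT (ed ∘ σ) ω A δ (ms d L)) y) ^ 2 + δ / 2 * eg (bdS σ ω A) g ≤ ∑ y, (g y) ^ 2

/-- GEO2. Near pairs in the plane off few blocked points.
Proof. (1) `j = 0`. (2) `x ∈ dm W S`, `x ∈ bal v R`: `p = x + j e_0 ∈ S` and `p' = x + j' e_1 ∈ S` are in
`bal v (R + W)` and determine `x` (`x 0 = p' 0`, `x 1 = p 1`). (3) For `x, y ∉ dm W S` with
`td x y ≤ 4 r`: `y = x + a e_0 + b' e_1` with `|a| + |b'| ≤ 4 r`. If the row segment of `x` (the points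
`x + j e_0`, `|j| ≤ W`) has no point of `S` and the column segment of `y` has none, walk from `x` along
its row to `x + a e_0` and then along the column to `y`. The same with row and column exchanged. If the
row segments of `x` and `y` are both free: among the `b + 1` columns through `x + j e_0`, `0 ≤ j ≤ b`,
there is one whose points `x + j e_0 + k e_1`, `|k| ≤ W`, are not in `S` (otherwise `b + 1` points of `S`
in `bal x (4 W)`, different because `b < L`); walk along the row of `x`, this column, the row of `y`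
(`|j - a| ≤ b + 4 r ≤ W`). The same for two free column segments. In all cases the walk has at most
`3 W` steps, uses only edges without points of `S` with first end point in `bal x (3 W)`, so
`(f x - f y)^2 ≤ (3 W)^2 El x`, `El x` = the sum of the squares over the edges without points of `S`
whose first end point is in `bal x (3 W)` (bound each difference by `√(El x)`). Sum over
`y ∈ bal x (4 r)` (at most `(8 r + 1)^2 ≤ (3 W)^2` points, Pool.Agent.Q277.LC.card_bal_le) and over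
`x` (each edge is counted at most `(6 W + 1)^2 ≤ (7 W)^2` times): `≤ 81 * 49 * W^6 * eg`. -/
def S_GEO2 : Prop := ∀ (d L : ℕ) [NeZero L], d = 2 → 3 ≤ L →
  ∀ (S : Finset (Fin d → ZMod L)) (W b r : ℕ), 1 ≤ r →
  (∀ v, (S ∩ bal v (4 * W)).card ≤ b) → b + 4 * r + 1 ≤ W → 4 * W + 1 ≤ L →
  S ⊆ dm W S ∧
  (∀ (v : Fin d → ZMod L) (R b' : ℕ), (S ∩ bal v (R + W)).card ≤ b' →
    (dm W S ∩ bal v R).card ≤ b' ^ 2) ∧
  ∀ f : (Fin d → ZMod L) → ℝ, en r (dm W S) f ≤ 4000 * (W : ℝ) ^ 6 * eg S f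

/-- SMO2. Smoothing near the particles, at all times between `u` and `u + 1` units.
Proof. As SMO (Pool.Agent.Q151.LC.Smo): `g = kv .. n`; its norm at `n ≥ u` units is at most the one at
`u` units, and the mass killed up to step `n` is at most the mass killed in `u + 1` units (KIL). -/
def S_SMO2 : Prop := ∀ d : ℕ, 2 ≤ d → ∃ C : ℕ, 1 ≤ C ∧ ∀ (L : ℕ) [NeZero L], 3 ≤ L →
  ∀ σ : ℕ → (Fin d → ZMod L) × Fin d, Per σ → ∀ (ω : ℕ → Bool) (A : Finset (Fin d → ZMod L))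
  (δ : ℝ) (q u R lam ρ κ₀ : ℕ) (z : Fin d → ZMod L), 0 < δ → C * δ ≤ 1 → 1 ≤ δ * q → δ * q ≤ 2 →
  z ∉ A → 1 ≤ u → (A ∩ bal z (R + ρ * (u + 1) + 4)).card ≤ lam →
  (∀ j < u + 1, ∀ a ∈ A, jumps (ed ∘ σ) ω (j * (q * ms d L)) ((j + 1) * (q * ms d L)) a ≤ ρ) →
  (∀ a ∈ A, ∀ b ∈ A, a ≠ b → ((Finset.range (u * q)).filter fun s =>
    td (gp (ed ∘ σ) ω (s * ms d L) a) (gp (ed ∘ σ) ω (s * ms d L) b) ≤ 3).card ≤ κ₀ * q) →
  4 * lam ^ 2 * κ₀ ≤ u → 4 * lam * ρ ≤ q → C * (lam * ρ + 1) * (u + 1) ≤ R → 4 * R + 8 ≤ L →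
  ∀ n : ℕ, u * (q * ms d L) ≤ n → n ≤ (u + 1) * (q * ms d L) →
  ∃ g : (Fin d → ZMod L) → ℝ, (∀ y, 0 ≤ g y ∧ g y ≤ TT (ed ∘ σ) ω A δ n z y ∧
    (g y ≠ 0 → td z y ≤ R)) ∧ ∑ y, (g y) ^ 2 ≤ 20 / Real.sqrt u ∧ 1 - ∑ y, g y ≤ Real.exp (-(u : ℝ))

/-- BDC. Few blocked points in every sweep of a good environment.
Proof. The particles in `bal v R'` at the start of the sweep, or touched in the sweep by a step with an
end point in `bal v R'`, are in `bal v r` at the start of the unit (at most `ρ` jumps), so there are at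
most `lam` of them, with at most `ρ` jumps each. -/
def S_BDC : Prop := ∀ (d L : ℕ) [NeZero L], 1 ≤ d → 3 ≤ L →
  ∀ σ : ℕ → (Fin d → ZMod L) × Fin d, Per σ →
  ∀ (q K lam r ρ κ₀ : ℕ) (ω : ℕ → Bool) (A : Finset (Fin d → ZMod L)), 1 ≤ q →
  Ev σ q K lam r ρ κ₀ ω A → ∀ s < K * q, ∀ (v : Fin d → ZMod L) (R' : ℕ), R' + ρ + 8 ≤ r →
  (bdS σ (sh (s * ms d L) ω) (A.image (gp (ed ∘ σ) ω (s * ms d L))) ∩ bal v R').card ≤
    lam + 2 * (lam * ρ)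

/-- LAP2. Decay of the square norm in the plane: (1) nonnegative functions, (2) functions with sum
zero. -/
def S_LAP2 : Prop := ∀ d : ℕ, d = 2 → ∃ (C m m' : ℕ), 1 ≤ C ∧ ∀ Z : ℕ, C ≤ Z →
  ∀ (L K lam r ρ κ₀ : ℕ) [NeZero L], lam ≤ Z → ρ ≤ Z → κ₀ ≤ Z →
  Z ^ m ≤ r → 8 * Z ^ m ≤ L → Z ^ m ≤ K → ∃ q₀ : ℕ, ∀ q ≥ q₀,
  ∀ σ : ℕ → (Fin d → ZMod L) × Fin d, Per σ → ∀ δ : ℝ, 1 ≤ δ * q → δ * q ≤ 2 →
  ∀ (ω : ℕ → Bool) (A : Finset (Fin d → ZMod L)), Ev σ q K lam r ρ κ₀ ω A →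
  (∀ f : (Fin d → ZMod L) → ℝ, (∀ x, 0 ≤ f x) → (∀ x ∈ A, f x = 0) → ∑ x, f x ≤ 1 →
    ∑ x, (vecMul f (TT (ed ∘ σ) ω A δ (K * (q * ms d L))) x) ^ 2 ≤
      max (C / (L : ℝ) ^ d) (((∑ x, (f x) ^ 2) ^ (-(2 / d : ℝ)) +
        1 / (Z : ℝ) ^ m' * K) ^ (-(d / 2 : ℝ)))) ∧
  (∀ f : (Fin d → ZMod L) → ℝ, (∀ x ∈ A, f x = 0) → ∑ x, f x = 0 →
    (1 + 1 / (Z : ℝ) ^ m' * K / (L : ℝ) ^ 2) *
      ∑ x, (vecMul f (TT (ed ∘ σ) ω A δ (K * (q * ms d L))) x) ^ 2 ≤ ∑ x, (f x) ^ 2)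

/-- KER2. Green function in a good environment in the plane. -/
def S_KER2 : Prop := ∀ d : ℕ, d = 2 → ∃ (C m m' : ℕ), 1 ≤ C ∧ ∀ Z : ℕ, C ≤ Z →
  ∀ (L K lam r ρ κ₀ : ℕ) [NeZero L], lam ≤ Z → ρ ≤ Z → κ₀ + 1 ≤ Z → (L : ℝ) ^ d ≤ Real.exp Z →
  Z ^ m ≤ r → 8 * Z ^ m ≤ L → Z ^ m ≤ K → ∃ q₀ : ℕ, ∀ q ≥ q₀,
  ∀ σ : ℕ → (Fin d → ZMod L) × Fin d, Per σ → ∀ δ : ℝ, 1 ≤ δ * q → δ * q ≤ 2 →
  ∀ (ω : ℕ → Bool) (R : Finset (Fin d → ZMod L)), Gd σ q K lam r ρ κ₀ ω R →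
  ∀ (w : ℝ) (U : Finset (Fin d → ZMod L)) (x y : Fin d → ZMod L), 0 ≤ w → w < 1 →
  Disjoint U R → x ∉ R → x ∉ U → y ∉ U → ∀ N : ℕ,
  ∑ k ∈ Finset.range N, w ^ (k + 1) * (TT (ed ∘ σ) ω R δ (K * (q * ms d L)) *
    (dg U * TT (ed ∘ σ) ω R δ (K * (q * ms d L))) ^ k) x y ≤
    (Z : ℝ) ^ m' * ((K : ℝ) ^ (-(d / 2 : ℝ)) + 1 / ((L : ℝ) ^ d * (1 - w)))

/-- LAM2. Resolvent form of functions with sum zero in the plane. -/
def S_LAM2 : Prop := ∀ d : ℕ, d = 2 → ∃ (C m m' : ℕ), 1 ≤ C ∧ ∀ Z : ℕ, C ≤ Z →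
  ∀ (L K lam r ρ κ₀ : ℕ) [NeZero L], lam ≤ Z → ρ ≤ Z → κ₀ + 1 ≤ Z → (L : ℝ) ^ d ≤ Real.exp Z →
  Z ^ m ≤ r → 8 * Z ^ m ≤ L → Z ^ m ≤ K → K ≤ Z * L ^ d → ∃ q₀ : ℕ, ∀ q ≥ q₀,
  ∀ σ : ℕ → (Fin d → ZMod L) × Fin d, Per σ → ∀ δ : ℝ, 1 ≤ δ * q → δ * q ≤ 2 →
  ∀ (ω : ℕ → Bool) (A : Finset (Fin d → ZMod L)), Gd σ q K lam r ρ κ₀ ω A →
  Inv (gp (ed ∘ σ) ω (K * (q * ms d L))) A →
  ∀ φ : (Fin d → ZMod L) → ℝ, (∀ a ∈ A, φ a = 0) → ∑ x, φ x = 0 → ∑ x, |φ x| ≤ 2 →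
  ∀ w : ℝ, 0 ≤ w → w < 1 →
  φ ⬝ᵥ ((1 - w • (dg (univ \ A) * TT (ed ∘ σ) ω A δ (K * (q * ms d L))))⁻¹ *ᵥ φ) ≤
    2 * ∑ x, (φ x) ^ 2 + (Z : ℝ) ^ m' / K

open Classical in
/-- OMP2. All particles are regular with large probability, in the plane.
Proof. As CLO, KHA, OMP (Pool.Agent.Q277.LC.Ex, Pool.Agent.Q277.LC.Kha): expected closeness
`∑_{s < K q} 49^d C ((1 + s δ)^(-1) + L^(-d)) ≤ C' H q`, because `∑_{s < K q} (1 + s δ)^(-1) ≤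
1 + (1/δ) log (1 + K q δ) ≤ 1 + q (log K + log 3)`, `K q L^(-d) ≤ H q`; so `P (clo > C H m q) ≤ (1/2)^m`;
union bound with JMP (Pool.Agent.Q66.LC.jmp). -/
def S_OMP2 : Prop := ∀ d : ℕ, d = 2 → ∃ C : ℕ, 1 ≤ C ∧ ∀ (L : ℕ) [NeZero L], 3 ≤ L →
  ∀ K H : ℕ, 1 ≤ K → K ≤ H * L ^ d → 1 + Real.log K ≤ H → ∀ ρ κ₀ : ℕ, ∃ q₀ : ℕ, ∀ q ≥ q₀,
  ∀ σ : ℕ → (Fin d → ZMod L) × Fin d, Per σ → ∀ δ : ℝ, 1 ≤ δ * q → δ * q ≤ 2 →
  EE (K * (q * ms d L)) δ (fun ω => if Om σ q K ρ κ₀ ω then 0 else 1) ≤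
    C * (H * (L : ℝ) ^ (2 * d) * Real.exp (-(ρ : ℝ)) + (L : ℝ) ^ (2 * d) * (1 / 2) ^ (κ₀ / (C * H)))

/-- DEV2. Boxes of side `√K / h` see the same cycle fractions as the torus, for circuits, in the
plane. (`Dv` is in Pool.Agent.J6H44.PL.Dva; compare `dev` in Pool.Agent.J6H44.PL.Dev.) -/
def S_DEV2 : Prop := ∀ d : ℕ, d = 2 → ∃ m h₀ : ℕ, 1 ≤ h₀ ∧ ∀ h : ℕ, h₀ ≤ h → ∀ η : ℝ, 0 < η →
  ∃ L₀ : ℕ, ∀ (L K : ℕ) [NeZero L], L₀ ≤ L → (Real.log L) ^ m ≤ K → 16 * K ≤ h ^ 2 * L ^ 2 →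
  (3 ≤ L ∧ 1 ≤ Nat.sqrt K / h ∧ 4 * (Nat.sqrt K / h) ≤ L ∧
    Real.sqrt K ≤ 2 * h * ((Nat.sqrt K / h : ℕ) : ℝ)) ∧
  ∃ q₀ : ℕ, ∀ q ≥ q₀, ∀ σ : ℕ → (Fin d → ZMod L) × Fin d, Per σ → ∀ δ : ℝ,
  1 ≤ δ * q → δ * q ≤ 2 →
  EE (K * (q * ms d L)) δ
    (fun ω => Dv (Nat.sqrt K / h) (gp (ed ∘ σ) ω (K * (q * ms d L)))) ≤ η

/-- TWO2. Two points are in the same cycle with probability about `1/2`, in the plane, at all times
from a power of `log L` on.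
Proof. As `two_all` (Pool.Agent.J6H44.PL.TwoB) from DEV2: given `η` choose `h`; if
`16 t ≤ h² L²` as `dv_mid`, `QQ_mid`, `two_mid` (Pool.Agent.J6H44.PL.Fin, TwoB; now `t ≤ h² L²` instead of
`t ≤ L²`: take `Λ ≥ h²` there); if `16 t > h² L²` by Pool.Agent.R134.PB.All.lip_tp.2:
`|con t x y - 1/2| ≤ C₁ tdist x y / √t ≤ 4 C₁ d / h`. -/
def S_TWO2 : Prop := ∀ d : ℕ, d = 2 → ∃ a : ℕ, 1 ≤ a ∧ ∀ η : ℝ, 0 < η → ∃ L₀ : ℕ,
  ∀ (L : ℕ) [NeZero L], L₀ ≤ L → ∀ t : ℝ, (Real.log L) ^ a ≤ t →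
  ∀ x y : Fin d → ZMod L, x ≠ y →
  |Pool.Agent.R134.PB.con (nnRate d L) t x y - 1 / 2| ≤ η

end Pool.Agent.J6H44.P2
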