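import Pool.Agent.J6H44.P2.DevA
import Pool.Agent.J6H44.P2.DevB
import Pool.Agent.J6H44.P2.Btl
import Pool.Agent.J6H44.P2.Stm

/-! Project P2: boxes of side `√K / h` see the same cycle fractions as the torus, in the plane. -/

set_option autoImplicit false
set_option linter.unusedSectionVars false
set_option linter.unusedVariables false

namespace Pool.Agent.J6H44.P2

open Finset Equiv Matrix Q292.LC
open Pool.Agent.J6H44.PL

theorem dev2 (hBTL : S_BTL2) (hLAM : S_LAM2) : S_DEV2 := by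
  classical
  intro d hd
  obtain ⟨CB, mB, mB', hCB, hbtl⟩ := hBTL d hd
  obtain ⟨CA, mA, mA', hCA, hlam⟩ := hLAM d hd
  obtain ⟨C, hC⟩ : ∃ C, C = CA + CB := ⟨_, rfl⟩
  obtain ⟨me, hme⟩ : ∃ me, me = mA + mB + 1 := ⟨_, rfl⟩
  obtain ⟨c2, hc2⟩ : ∃ c2, c2 = mA' + 2 := ⟨_, rfl⟩
  obtain ⟨big, hbig⟩ : ∃ big, big = 2 * me + mB' + c2 + 4 := ⟨_, rfl⟩
  have edR : ∀ a : ℝ, a ^ d = a ^ 2 := fun a => by rw [hd]
  have edN : ∀ a : ℕ, a ^ d = a ^ 2 := fun a => by rw [hd]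
  have ed4 : ∀ a : ℝ, a ^ (2 * d) = a ^ 4 := fun a => by rw [hd]
  have hdR : (d : ℝ) = 2 := by rw [hd]; norm_num
  refine ⟨2 * big + 1, 1, le_rfl, ?_⟩
  intro h hh η hη
  obtain ⟨η', hη'⟩ : ∃ η' : ℝ, η' = min (1 / 2) (η / 96) := ⟨_, rfl⟩
  have hη'0 : 0 < η' := by rw [hη']; positivity
  have hη'1 : η' ≤ 1 / 2 := by rw [hη']; exact min_le_left _ _
  have hη'2 : η' ≤ η / 96 := by rw [hη']; exact min_le_right _ _
  -- the threshold
  obtain ⟨X, hX1, hX2, hX3, hX4⟩ : ∃ X : ℕ, 200 + C + h + 32 * h ^ 2 + 1 ≤ X ∧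
      225 ≤ η' * X ∧ 32 ≤ η * X ∧ 16 * (2 * (CB : ℝ) + 1) ≤ η * X := by
    refine ⟨200 + C + h + 32 * h ^ 2 + 1 + ⌈225 / η'⌉₊ + ⌈32 / η⌉₊ +
      ⌈16 * (2 * (CB : ℝ) + 1) / η⌉₊, by omega, ?_, ?_, ?_⟩
    · have h1 := Nat.le_ceil (225 / η')
      rw [div_le_iff₀ hη'0] at h1
      push_cast
      have h2 : (0 : ℝ) ≤ η' * (200 + C + h + 32 * (h : ℝ) ^ 2 + 1 + ⌈32 / η⌉₊ +
        ⌈16 * (2 * (CB : ℝ) + 1) / η⌉₊) := by positivity
      linarith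
    · have h1 := Nat.le_ceil (32 / η)
      rw [div_le_iff₀ hη] at h1
      push_cast
      have h2 : (0 : ℝ) ≤ η * (200 + C + h + 32 * (h : ℝ) ^ 2 + 1 + ⌈225 / η'⌉₊ +
        ⌈16 * (2 * (CB : ℝ) + 1) / η⌉₊) := by positivity
      linarith
    · have h1 := Nat.le_ceil (16 * (2 * (CB : ℝ) + 1) / η)
      rw [div_le_iff₀ hη] at h1
      push_cast
      have h2 : (0 : ℝ) ≤ η * (200 + C + h + 32 * (h : ℝ) ^ 2 + 1 + ⌈225 / η'⌉₊ +
        ⌈32 / η⌉₊) := by positivity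
      linarith
  obtain ⟨L₀, hpar⟩ := par2 C big me h X (by omega)
  refine ⟨L₀, ?_⟩
  intro L K _ hL hK hKL
  obtain ⟨Z, H, hXZ, hXL, hL3, hℓ1, hZℓ, hZK, hZL, hH1, hHZ, hKH, hlogK, hκ₀⟩ := hpar L K hL hK hKL
  have hXZ' : (X : ℝ) ≤ Z := by exact_mod_cast hXZ
  have hXL' : (X : ℝ) ≤ L := by exact_mod_cast hXL
  have hZ200 : 200 ≤ Z := by omega
  have hZr : (200 : ℝ) ≤ Z := by exact_mod_cast hZ200
  have hZ0 : (0 : ℝ) < Z := by linarith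
  have hZ1 : (1 : ℝ) ≤ Z := by linarith
  have hhZ : h ≤ Z := by omega
  have hL0 : (0 : ℝ) < L := by
    have : 0 < L := by omega
    exact_mod_cast this
  have hLd : (0 : ℝ) < (L : ℝ) ^ 2 := by positivity
  have hK0' : 1 ≤ K := (Nat.one_le_pow _ _ (by omega)).trans hZK
  have hK0 : (0 : ℝ) < K := by exact_mod_cast hK0'
  have hZKR : (Z : ℝ) ^ big ≤ K := by exact_mod_cast hZK
  -- box side
  obtain ⟨s1, s2, s3, s4⟩ := side2 K L h Z me hh hhZ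
    ((Nat.pow_le_pow_right (by omega) (by omega)).trans hZK) hKL
  have hZme : 1 ≤ Z ^ me := Nat.one_le_pow _ _ (by omega)
  refine ⟨⟨hL3, by omega, s2, s3⟩, ?_⟩
  obtain ⟨r, hr⟩ : ∃ r : ℕ, r = Nat.sqrt K / h := ⟨_, rfl⟩
  rw [← hr] at s1 s2 s3 s4 ⊢
  have hr1 : 1 ≤ r := by omega
  have hr0 : (0 : ℝ) < r := by exact_mod_cast hr1
  -- monotonicity of powers
  have pZ : ∀ a b : ℕ, a ≤ b → Z ^ a ≤ Z ^ b := fun a b hab =>
    Nat.pow_le_pow_right (by omega) hab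
  have hZL8 : 8 * Z ^ me ≤ L := by
    have h1 : 8 * Z ^ me ≤ Z * Z ^ me := Nat.mul_le_mul_right _ (by omega)
    have h2 : Z * Z ^ me = Z ^ (me + 1) := by ring
    have h3 := pZ (me + 1) (me + 2) (by omega)
    omega
  have hZLle : Z ≤ L := by
    have h1 : Z ≤ Z ^ (me + 2) := Nat.le_self_pow (by omega) _
    omega
  have hexp : (L : ℝ) ^ d ≤ Real.exp Z := by
    rw [edR]
    have h1 : (L : ℝ) ^ 2 = Real.exp (2 * Real.log L) := by
      have := Real.exp_nat_mul (Real.log L) 2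
      push_cast at this
      rw [this, Real.exp_log hL0]
    rw [h1]
    exact Real.exp_le_exp.2 (by linarith)
  have hmB := pZ mB me (by omega)
  have hmA := pZ mA me (by omega)
  have hmeK := (pZ me big (by omega)).trans hZK
  obtain ⟨qB, hqB⟩ := hbtl Z (by omega) L K Z (Z ^ me) Z ((Z - 1) / 2) H le_rfl le_rfl (by omega)
    hexp hmB (by omega) (by omega) (by rw [edN]; exact hKH) hlogK
  obtain ⟨qA, hqA⟩ := hlam Z (by omega) L K Z (Z ^ me) Z (2 * ((Z - 1) / 2)) le_rfl le_rfl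
    (by omega) hexp hmA (by omega) (by omega)
    (by rw [edN]; exact hKH.trans (Nat.mul_le_mul_right _ hHZ))
  refine ⟨max (max qA qB) 2, ?_⟩
  intro q hq σ hσ δ h1 h2
  have hq' : (2 : ℝ) ≤ q := by exact_mod_cast (le_max_right _ _).trans hq
  have hδ0 : 0 ≤ δ := by
    by_contra hcon
    push Not at hcon
    nlinarith
  have hδ1 : δ ≤ 1 := by nlinarith
  -- w and kappa
  obtain ⟨p, hp⟩ : ∃ p : ℝ, p = K / (Z : ℝ) ^ c2 := ⟨_, rfl⟩
  have hp0 : 0 < p := by rw [hp]; positivity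
  obtain ⟨w, hw⟩ : ∃ w : ℝ, w = 1 - p / (L : ℝ) ^ 2 := ⟨_, rfl⟩
  have hpL : p ≤ (L : ℝ) ^ 2 := by
    rw [hp, div_le_iff₀ (by positivity)]
    have h3 : (K : ℝ) ≤ H * (L : ℝ) ^ 2 := by exact_mod_cast hKH
    have h4 : (H : ℝ) ≤ (Z : ℝ) ^ c2 := by
      have h5 : (H : ℝ) ≤ Z := by exact_mod_cast hHZ
      exact h5.trans (le_self_pow₀ hZ1 (by omega))
    calc (K : ℝ) ≤ H * (L : ℝ) ^ 2 := h3
      _ ≤ (Z : ℝ) ^ c2 * (L : ℝ) ^ 2 := mul_le_mul_of_nonneg_right h4 hLd.le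
      _ = _ := by ring
  have hw0 : 0 ≤ w := by
    rw [hw]
    have : p / (L : ℝ) ^ 2 ≤ 1 := by
      rw [div_le_one hLd]
      exact hpL
    linarith
  have hw1 : w < 1 := by
    rw [hw]
    have : 0 < p / (L : ℝ) ^ 2 := by positivity
    linarith
  have h1w : (L : ℝ) ^ d * (1 - w) = p := by
    rw [edR, hw]
    field_simp
    ring
  have hKp : (K : ℝ) ^ (-(d / 2 : ℝ)) = 1 / K := by
    rw [hdR, show (-(2 / 2 : ℝ)) = -1 by norm_num, Real.rpow_neg_one, one_div]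
  obtain ⟨κ, hκ⟩ : ∃ κ : ℝ, κ = (Z : ℝ) ^ mB' *
    ((K : ℝ) ^ (-(d / 2 : ℝ)) + 1 / ((L : ℝ) ^ d * (1 - w))) := ⟨_, rfl⟩
  have hκ1 : κ ≤ 2 * (Z : ℝ) ^ (mB' + c2) / K := by
    rw [hκ, h1w, hKp, hp]
    have h3 : 1 / ((K : ℝ) / (Z : ℝ) ^ c2) = (Z : ℝ) ^ c2 / K := by rw [one_div_div]
    have h4 : (1 : ℝ) ≤ (Z : ℝ) ^ c2 := one_le_pow₀ hZ1
    have h5 : 1 / (K : ℝ) ≤ (Z : ℝ) ^ c2 / K := div_le_div_of_nonneg_right h4 hK0.le
    rw [h3]
    calc (Z : ℝ) ^ mB' * (1 / K + (Z : ℝ) ^ c2 / K) ≤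
          (Z : ℝ) ^ mB' * ((Z : ℝ) ^ c2 / K + (Z : ℝ) ^ c2 / K) :=
          mul_le_mul_of_nonneg_left (by linarith) (by positivity)
      _ = _ := by
          rw [pow_add]
          ring
  have hκ0 : 0 ≤ κ := by
    rw [hκ, h1w, hKp]
    positivity
  have hκK : κ * (Z : ℝ) ^ (2 * me + 4) ≤ 2 := by
    calc κ * (Z : ℝ) ^ (2 * me + 4) ≤ (2 * (Z : ℝ) ^ (mB' + c2) / K) * (Z : ℝ) ^ (2 * me + 4) :=
          mul_le_mul_of_nonneg_right hκ1 (by positivity)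
      _ = 2 * ((Z : ℝ) ^ big / K) := by
          rw [hbig, show 2 * me + mB' + c2 + 4 = (mB' + c2) + (2 * me + 4) by ring, pow_add]
          ring
      _ ≤ 2 * 1 := by
          refine mul_le_mul_of_nonneg_left ?_ (by norm_num)
          rw [div_le_one hK0]
          exact hZKR
      _ = 2 := by norm_num
  have hκZ4 : κ * (Z : ℝ) ^ 4 ≤ 2 := by
    refine le_trans (mul_le_mul_of_nonneg_left ?_ hκ0) hκK
    exact pow_le_pow_right₀ hZ1 (by omega)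
  have hZ4 : (Z : ℝ) * 200 ≤ (Z : ℝ) ^ 4 := by
    have h3 : (Z : ℝ) ^ 4 = Z * Z ^ 3 := by ring
    rw [h3]
    refine mul_le_mul_of_nonneg_left ?_ hZ0.le
    exact hZr.trans (le_self_pow₀ hZ1 (by norm_num))
  have hκZ : ((Z : ℝ) + 2) * κ ≤ 1 := by
    have h3 : ((Z : ℝ) + 2) * 2 ≤ (Z : ℝ) ^ 4 := by linarith
    have h4 : (((Z : ℝ) + 2) * 2) * κ ≤ (Z : ℝ) ^ 4 * κ := mul_le_mul_of_nonneg_right h3 hκ0
    linarith
  have hκ2 : 2 * κ ≤ η / 8 := by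
    have h3 : κ * (Z * 200) ≤ 2 := (mul_le_mul_of_nonneg_left hZ4 hκ0).trans hκZ4
    have h4 : 32 ≤ η * Z := hX3.trans (mul_le_mul_of_nonneg_left hXZ' hη.le)
    have h5 : 32 * κ ≤ η * Z * κ := mul_le_mul_of_nonneg_right h4 hκ0
    have h6 : η * (κ * (Z * 200)) ≤ η * 2 := mul_le_mul_of_nonneg_left h3 hη.le
    nlinarith
  obtain ⟨g1, g2⟩ := hqB q ((le_max_right _ _).trans ((le_max_left _ _).trans hq)) σ hσ δ h1 h2 w
    hw0 hw1 κ hκ hκZ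
  -- the failure probability
  obtain ⟨b, hb⟩ : ∃ b : ℝ, b = ((2 * Z ^ me + 1 : ℕ) : ℝ) ^ 2 := ⟨_, rfl⟩
  have hb0 : 0 ≤ b := by rw [hb]; positivity
  have hb9 : b ≤ 9 * (Z : ℝ) ^ (2 * me) := by
    rw [hb]
    have h3 : ((2 * Z ^ me + 1 : ℕ) : ℝ) ≤ 3 * (Z : ℝ) ^ me := by
      push_cast
      have : (1 : ℝ) ≤ (Z : ℝ) ^ me := one_le_pow₀ hZ1
      linarith
    calc ((2 * Z ^ me + 1 : ℕ) : ℝ) ^ 2 ≤ (3 * (Z : ℝ) ^ me) ^ 2 :=
          pow_le_pow_left₀ (Nat.cast_nonneg _) h3 2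
      _ = _ := by rw [mul_pow, ← pow_mul, mul_comm me 2]; norm_num
  have hkey : b * ((Z + 2) * κ) ≤ Real.exp (-1) := by
    have h3 : (1 : ℝ) / 3 ≤ Real.exp (-1) := by
      rw [Real.exp_neg, one_div]
      refine inv_anti₀ (Real.exp_pos 1) ?_
      have := Real.exp_one_lt_d9
      linarith
    refine le_trans ?_ h3
    have h4 : b * ((Z : ℝ) + 2) ≤ (1 / 6) * (Z : ℝ) ^ (2 * me + 4) := by
      calc b * ((Z : ℝ) + 2) ≤ (9 * (Z : ℝ) ^ (2 * me)) * (2 * Z) :=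
            mul_le_mul hb9 (by linarith) (by positivity) (by positivity)
        _ = (18 * Z) * (Z : ℝ) ^ (2 * me) := by ring
        _ ≤ ((1 / 6) * (Z : ℝ) ^ 4) * (Z : ℝ) ^ (2 * me) := by
            refine mul_le_mul_of_nonneg_right ?_ (by positivity)
            linarith
        _ = _ := by rw [pow_add]; ring
    calc b * ((Z + 2) * κ) = (b * ((Z : ℝ) + 2)) * κ := by ring
      _ ≤ ((1 / 6) * (Z : ℝ) ^ (2 * me + 4)) * κ := mul_le_mul_of_nonneg_right h4 hκ0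
      _ = (1 / 6) * (κ * (Z : ℝ) ^ (2 * me + 4)) := by ring
      _ ≤ 1 / 3 := by linarith
  have hbL : ((Z : ℝ) + 1) * b ≤ (L : ℝ) ^ 2 := by
    have h3 : (Z : ℝ) ^ (me + 2) ≤ L := by exact_mod_cast hZL
    calc ((Z : ℝ) + 1) * b ≤ (2 * Z) * (9 * (Z : ℝ) ^ (2 * me)) :=
          mul_le_mul (by linarith) hb9 hb0 (by positivity)
      _ = 18 * Z * (Z : ℝ) ^ (2 * me) := by ring
      _ ≤ (Z : ℝ) ^ 4 * (Z : ℝ) ^ (2 * me) := mul_le_mul_of_nonneg_right (by linarith) (by positivity)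
      _ = ((Z : ℝ) ^ (me + 2)) ^ 2 := by ring
      _ ≤ (L : ℝ) ^ 2 := pow_le_pow_left₀ (by positivity) h3 2
  have hκ₀' : 20 * (CB : ℝ) * H * Real.log L ≤ (((Z - 1) / 2 : ℕ) : ℝ) := by
    refine le_trans ?_ hκ₀
    have h3 : (CB : ℝ) ≤ C := by
      have : CB ≤ C := by omega
      exact_mod_cast this
    have h4 : (0 : ℝ) ≤ H := Nat.cast_nonneg _
    have h5 : (0 : ℝ) ≤ Real.log L := by linarith
    gcongr
  have g3 := fail2 CB L K Z H b κ hCB hL3 hℓ1 hH1 hHZ hZLle hZℓ hKH hκ₀' hb0 hbL hκ0 hkey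
  have hP : PW (ed ∘ σ) (K * (q * ms d L)) δ w
      (fun ω A => ¬ Gd σ q K Z (Z ^ me) Z (2 * ((Z - 1) / 2)) ω A) ≤ (2 * CB + 1) * (1 / L) := by
    refine g1.trans (le_trans (le_of_eq ?_) g3)
    rw [ed4, edR, ← hb]
  -- Lambda
  obtain ⟨Λ, hΛ⟩ : ∃ Λ : ℝ, Λ = (Z : ℝ) ^ (mA' + 1) / K := ⟨_, rfl⟩
  have hΛ0 : 0 ≤ Λ := by rw [hΛ]; positivity
  have hcnt : ∀ ω A, Gd σ q K Z (Z ^ me) Z (2 * ((Z - 1) / 2)) ω A → ∀ v,
      ((A ∩ box v r).card : ℝ) ≤ η' * (r : ℝ) ^ d := by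
    intro ω A hG v
    have hA : ∀ v, (A ∩ bal v (Z ^ me)).card ≤ Z := by
      intro v
      by_contra hcon
      refine hG.1 ⟨0, by omega, v, ?_⟩
      rw [Nat.zero_mul]
      have h5 : A.image (gp (ed ∘ σ) ω 0) = A := by simp [gp]
      rw [h5]
      exact not_le.1 hcon
    have hme2 : d ≤ Z ^ me := by
      have : Z ≤ Z ^ me := Nat.le_self_pow (by omega) _
      omega
    have h3 := cnt d L (by omega) hL3 A (Z ^ me) (2 * r) Z hme2 hA v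
    have h4 : (A ∩ box v r).card ≤ (A ∩ bal v (2 * r)).card := by
      refine card_le_card (inter_subset_inter_left ?_)
      have hdr : 2 * r = d * r := by rw [hd]
      rw [hdr]
      exact Pool.Agent.Q257.LC.box_sub v r
    have h5 := size2 Z me r η' hη'0 (by omega) (by omega)
      (hX2.trans (mul_le_mul_of_nonneg_left hXZ' hη'0.le)) s1
    have h6 : (A ∩ box v r).card ≤ Z * (2 * (2 * r / (Z ^ me / 2)) + 3) ^ 2 := by
      refine h4.trans (h3.trans (le_of_eq ?_))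
      rw [edN, hd]
    rw [edR]
    exact le_trans (by exact_mod_cast h6) h5
  have hrL : r ≤ L := by omega
  have hcore := dev_core2 (ed ∘ σ) (K * (q * ms d L)) δ w Λ η' κ
    ((2 * CB + 1) * (1 / L)) hδ0 hδ1 hw0 hw1 hΛ0 hη'0.le r hr1 hrL
    (fun ω A => Gd σ q K Z (Z ^ me) Z (2 * ((Z - 1) / 2)) ω A)
    (Pool.Agent.Q154.LC.gdm d L σ q K Z (Z ^ me) Z (2 * ((Z - 1) / 2))).1
    hcnt
    (fun ω A hI hG z => by
      have hhalf : ∀ v, 2 * (A ∩ box v r).card ≤ r ^ d := by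
        intro v
        have h3 := hcnt ω A hG v
        have h4 : (0 : ℝ) ≤ (r : ℝ) ^ d := by positivity
        have h5 : 2 * ((A ∩ box v r).card : ℝ) ≤ (r : ℝ) ^ d := by nlinarith
        exact_mod_cast h5
      obtain ⟨f1, f2, f3⟩ := phz_facts r hr1 hrL A hhalf z
      have h3 := hqA q ((le_max_left _ _).trans ((le_max_left _ _).trans hq)) σ hσ δ h1 h2 ω A hG hI
        (phz r A z) (fun a ha => phz_zero r A z a ha) f1 f2 w hw0 hw1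
      refine h3.trans ?_
      rw [edR] at f3
      have h4 : 2 * (4 / (r : ℝ) ^ 2) ≤ 32 * (h : ℝ) ^ 2 / K := by
        rw [show 2 * (4 / (r : ℝ) ^ 2) = 8 / (r : ℝ) ^ 2 by ring, div_le_div_iff₀ (by positivity) hK0]
        linarith
      have h5 : 32 * (h : ℝ) ^ 2 + (Z : ℝ) ^ mA' ≤ (Z : ℝ) ^ (mA' + 1) := by
        have h6 : 32 * (h : ℝ) ^ 2 + 1 ≤ Z := by
          have : 32 * h ^ 2 + 1 ≤ Z := by omega
          exact_mod_cast this
        have h7 : (1 : ℝ) ≤ (Z : ℝ) ^ mA' := one_le_pow₀ hZ1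
        calc 32 * (h : ℝ) ^ 2 + (Z : ℝ) ^ mA' ≤ (32 * (h : ℝ) ^ 2) * (Z : ℝ) ^ mA' +
              1 * (Z : ℝ) ^ mA' := by
              have : 32 * (h : ℝ) ^ 2 * 1 ≤ (32 * (h : ℝ) ^ 2) * (Z : ℝ) ^ mA' :=
                mul_le_mul_of_nonneg_left h7 (by positivity)
              linarith
          _ = (32 * (h : ℝ) ^ 2 + 1) * (Z : ℝ) ^ mA' := by ring
          _ ≤ Z * (Z : ℝ) ^ mA' := mul_le_mul_of_nonneg_right h6 (by positivity)
          _ = _ := by ring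
      rw [hΛ]
      calc 2 * ∑ x, phz r A z x ^ 2 + (Z : ℝ) ^ mA' / K ≤ 32 * (h : ℝ) ^ 2 / K +
            (Z : ℝ) ^ mA' / K := by linarith
        _ = (32 * (h : ℝ) ^ 2 + (Z : ℝ) ^ mA') / K := by ring
        _ ≤ _ := div_le_div_of_nonneg_right h5 hK0.le)
    g2 hP
  refine hcore.trans ?_
  have k1 : 3 * ((L : ℝ) ^ d * ((1 - w) * Λ)) ≤ η / 8 := by
    rw [← mul_assoc ((L : ℝ) ^ d), h1w, hp, hΛ, hc2]
    have e1 : (K : ℝ) / (Z : ℝ) ^ (mA' + 2) * ((Z : ℝ) ^ (mA' + 1) / K) = 1 / Z := by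
      rw [show mA' + 2 = (mA' + 1) + 1 by ring, pow_succ (Z : ℝ) (mA' + 1)]
      field_simp
    rw [e1]
    have h4 : 32 ≤ η * Z := hX3.trans (mul_le_mul_of_nonneg_left hXZ' hη.le)
    have h5 : 1 / (Z : ℝ) ≤ η / 32 := by
      rw [div_le_div_iff₀ hZ0 (by norm_num)]
      linarith
    linarith
  have k2 : 24 * η' ^ 2 ≤ η / 8 := by nlinarith
  have k4 : 2 * ((2 * (CB : ℝ) + 1) * (1 / L)) ≤ η / 8 := by
    have h4 : 16 * (2 * (CB : ℝ) + 1) ≤ η * L :=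
      hX4.trans (mul_le_mul_of_nonneg_left hXL' hη.le)
    have h5 : (2 * (CB : ℝ) + 1) * (1 / L) ≤ η / 16 := by
      rw [mul_one_div, div_le_div_iff₀ hL0 (by norm_num)]
      linarith
    linarith
  linarith

end Pool.Agent.J6H44.P2
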