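import Pool.Agent.J6H44.P2.Stm
import Pool.Agent.Q257.LC.KerU

/-! Project P2: Green function in a good environment in the plane, `S_KER2`. -/

set_option autoImplicit false

namespace Pool.Agent.J6H44.P2

open Finset Equiv Matrix Q292.LC
open Pool.Agent.Q257.LC (row_bound pow_bound one_bound pow_zero_col pow_eq_sdiff ker_nat TT_units
  sh_ed)

theorem green_sum2 (a : ℕ → ℝ) (w m0 c K D Z : ℝ) (d : ℕ) (hd : d = 2) (hw0 : 0 ≤ w) (hw1 : w < 1)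
    (hm0 : 0 ≤ m0) (hc : 0 < c) (hK : 0 < K) (hD : 0 < D) (hDZ : D ≤ Real.exp Z)
    (ha : ∀ k, a k ≤ m0 + (c * K / 3 * ((k : ℝ) + 1)) ^ (-(d / 2 : ℝ))) (N : ℕ) :
    ∑ k ∈ range N, w ^ (k + 1) * a k ≤ m0 / (1 - w) +
      3 / (c * K) * (Z + 1 / (D * (1 - w))) := by
  have hdR : (d : ℝ) = 2 := by rw [hd]; norm_num
  have hw : 0 < 1 - w := by linarith
  have h3 : ∀ k ∈ range N, w ^ (k + 1) * a k ≤ m0 * w ^ k +
      3 / (c * K) * (w ^ (k + 1) / ((k : ℝ) + 1)) := by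
    intro k _
    have h4 : (c * K / 3 * ((k : ℝ) + 1)) ^ (-(d / 2 : ℝ)) = 3 / (c * K) / ((k : ℝ) + 1) := by
      rw [hdR, show (-(2 / 2 : ℝ)) = -1 by norm_num, Real.rpow_neg_one]
      field_simp
    have h5 : w ^ (k + 1) ≤ w ^ k := pow_le_pow_of_le_one hw0 hw1.le (Nat.le_succ k)
    have h7 : 0 ≤ w ^ (k + 1) := pow_nonneg hw0 _
    calc w ^ (k + 1) * a k ≤ w ^ (k + 1) * (m0 + 3 / (c * K) / ((k : ℝ) + 1)) := by
          rw [← h4]
          exact mul_le_mul_of_nonneg_left (ha k) h7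
      _ = w ^ (k + 1) * m0 + 3 / (c * K) * (w ^ (k + 1) / ((k : ℝ) + 1)) := by ring
      _ ≤ w ^ k * m0 + 3 / (c * K) * (w ^ (k + 1) / ((k : ℝ) + 1)) :=
          add_le_add (mul_le_mul_of_nonneg_right h5 hm0) le_rfl
      _ = _ := by ring
  have h9 : ∑ k ∈ range N, w ^ k ≤ (1 - w)⁻¹ :=
    sum_le_hasSum _ (fun k _ => pow_nonneg hw0 k) (hasSum_geometric_of_lt_one hw0 hw1)
  have h10 : ∑ k ∈ range N, w ^ (k + 1) / ((k : ℝ) + 1) ≤ -Real.log (1 - w) :=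
    sum_le_hasSum _ (fun k _ => by positivity)
      (Real.hasSum_pow_div_log_of_abs_lt_one (by rw [abs_of_nonneg hw0]; exact hw1))
  have h11 : -Real.log (1 - w) ≤ Z + 1 / (D * (1 - w)) := by
    have e1 : Real.log (D * (1 - w)) = Real.log D + Real.log (1 - w) :=
      Real.log_mul hD.ne' hw.ne'
    have e2 : Real.log D ≤ Z := by
      rw [Real.log_le_iff_le_exp hD]
      exact hDZ
    have e3 : Real.log (1 / (D * (1 - w))) ≤ 1 / (D * (1 - w)) := by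
      have := Real.log_le_sub_one_of_pos (show 0 < 1 / (D * (1 - w)) by positivity)
      linarith
    rw [one_div, Real.log_inv] at e3
    rw [one_div]
    linarith
  calc ∑ k ∈ range N, w ^ (k + 1) * a k ≤ ∑ k ∈ range N, (m0 * w ^ k +
      3 / (c * K) * (w ^ (k + 1) / ((k : ℝ) + 1))) := sum_le_sum h3
    _ = m0 * ∑ k ∈ range N, w ^ k + 3 / (c * K) *
        ∑ k ∈ range N, w ^ (k + 1) / ((k : ℝ) + 1) := by
        rw [sum_add_distrib, mul_sum, mul_sum]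
    _ ≤ m0 * (1 - w)⁻¹ + 3 / (c * K) * (Z + 1 / (D * (1 - w))) :=
        add_le_add (mul_le_mul_of_nonneg_left h9 hm0)
          (mul_le_mul_of_nonneg_left (h10.trans h11) (by positivity))
    _ = _ := by rw [div_eq_mul_inv m0]

theorem ker2 (hLAP : S_LAP2) : S_KER2 := by
  intro d hd
  obtain ⟨Cl, ml, mc, hCl, hlap⟩ := hLAP d hd
  have hB1 := Pool.Agent.Q68.LC.bas1
  have hB2 := Pool.Agent.Q68.LC.bas2
  have hGE := Pool.Agent.Q277.LC.ge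
  have hSUB := Pool.Agent.Q277.LC.sub
  have hREV := Pool.Agent.Q187.LC.Rev.rev
  have hd1 : 1 ≤ d := by omega
  refine ⟨Cl + 4, ml + 2, mc + 2, by omega, ?_⟩
  intro Z hZ L K lam r ρ κ₀ _ hlam hρ hκ hLd hr hL hK
  obtain ⟨n1, n2, n3, n4, n5, n6, hL3, n8, n9, n10⟩ :=
    ker_nat Z ml r ρ K L (by omega) hρ hr hL hK
  obtain ⟨q1, hq1'⟩ := hlap Z (by omega) L K lam (r - ρ) ρ (κ₀ + 1) hlam hρ hκ n1 n3 n4
  obtain ⟨q2, hq2'⟩ := hlap Z (by omega) L (K / 2) lam (r - ρ) ρ (κ₀ + 1) hlam hρ hκ n1 n3 n5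
  obtain ⟨q3, hq3'⟩ := hlap Z (by omega) L (K - K / 2) lam (r - ρ) ρ (κ₀ + 1) hlam hρ hκ n1
    n3 n6
  refine ⟨q1 + q2 + q3 + 2, ?_⟩
  intro q hq σ hσ δ h1 h2 ω R hGd w U x y hw0 hw1 hUR hxR hxU hyU N
  have hZ1 : (1 : ℝ) ≤ Z := by
    have : 1 ≤ Z := by omega
    exact_mod_cast this
  have hZ0 : (0 : ℝ) < Z := by linarith
  obtain ⟨c, hcd⟩ : ∃ c : ℝ, c = 1 / (Z : ℝ) ^ mc := ⟨_, rfl⟩
  have hc : 0 < c := by rw [hcd]; positivity
  have hqr : (2 : ℝ) ≤ q := by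
    have : 2 ≤ q := by omega
    exact_mod_cast this
  have hδ : 0 < δ := by
    by_contra h
    push Not at h
    nlinarith
  have hδ1 : δ ≤ 1 := by nlinarith
  have hEv : Ev σ q K lam (r - ρ) ρ (κ₀ + 1) ω R :=
    hGE d L hL3 σ hσ q K lam (r - ρ) ρ κ₀ ω R (by omega) n10 (by rw [n2]; exact hGd)
  obtain ⟨hσr, hEvr, hTr⟩ := hREV d L hd1 hL3 σ hσ q K lam (r - ρ) ρ (κ₀ + 1) ω R δ
  have hB := hB2 _ (ed ∘ σ) ω R δ hδ.le hδ1
  obtain ⟨T, hT⟩ : ∃ T, T = TT (ed ∘ σ) ω R δ (K * (q * ms d L)) := ⟨_, rfl⟩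
  obtain ⟨R', hR'⟩ : ∃ R', R' = R.image (gp (ed ∘ σ) ω (K * (q * ms d L))) := ⟨_, rfl⟩
  have hT0 : ∀ x y, 0 ≤ T x y := by
    rw [hT]
    exact hB.1 _
  have hrow : ∀ x, ∑ y, T x y = 1 := by
    rw [hT]
    exact hB.2.1 _
  have hcol : ∀ y, ∑ x, T x y = 1 := by
    rw [hT]
    exact hB.2.2.1 _
  have hz : ∀ a, a ∉ R → ∀ b ∈ R', T a b = 0 := by
    rw [hT, hR']
    exact hB.2.2.2.2.1 _
  have hL0 : (0 : ℝ) < L := by
    have : 0 < L := by omega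
    exact_mod_cast this
  have hK0 : (0 : ℝ) < K := by exact_mod_cast n10
  obtain ⟨m0, hm0⟩ : ∃ m0 : ℝ, m0 = Cl / (L : ℝ) ^ d := ⟨_, rfl⟩
  have hm0n : 0 ≤ m0 := by
    rw [hm0]
    positivity
  rw [← hT]
  have hw : 0 < 1 - w := by linarith
  by_cases hy : y ∈ R'
  · have h3 : ∀ k ∈ range N, w ^ (k + 1) * (T * (dg U * T) ^ k) x y = 0 := fun k _ => by
      rw [pow_zero_col T R R' U hUR hz k x hxR y hy, mul_zero]
    rw [sum_eq_zero h3]
    positivity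
  · -- the kernel of all powers
    have hUR2 : Disjoint (U \ R') R := disjoint_of_subset_left sdiff_subset hUR
    have hUR3 : Disjoint (U \ R') R' := sdiff_disjoint
    have hLap1 : ∀ f : (Fin d → ZMod L) → ℝ, (∀ x, 0 ≤ f x) → (∀ x ∈ R, f x = 0) →
        ∑ x, f x ≤ 1 → ∑ x, (vecMul f T x) ^ 2 ≤
        max m0 (((∑ x, (f x) ^ 2) ^ (-(2 / d : ℝ)) + c * K) ^ (-(d / 2 : ℝ))) := by
      rw [hT, hm0, hcd]
      exact (hq1' q (by omega) σ hσ δ h1 h2 ω R hEv).1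
    have hLap2 : ∀ f : (Fin d → ZMod L) → ℝ, (∀ x, 0 ≤ f x) → (∀ x ∈ R', f x = 0) →
        ∑ x, f x ≤ 1 → ∑ x, (vecMul f Tᵀ x) ^ 2 ≤
        max m0 (((∑ x, (f x) ^ 2) ^ (-(2 / d : ℝ)) + c * K) ^ (-(d / 2 : ℝ))) := by
      rw [hT, hR', hm0, hcd, ← hTr]
      exact (hq1' q (by omega) (rvs σ) hσr δ h1 h2 _ _ (hEvr hEv)).1
    have hpow : ∀ k : ℕ, (T * (dg U * T) ^ k) x y ≤
        m0 + (c * K / 3 * ((k : ℝ) + 1)) ^ (-(d / 2 : ℝ)) := by
      intro k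
      rcases Nat.eq_zero_or_pos k with hk | hk
      · subst hk
        rw [pow_zero, Matrix.mul_one]
        -- two halves
        obtain ⟨K1, hK1⟩ : ∃ K1, K1 = K / 2 := ⟨_, rfl⟩
        obtain ⟨K2, hK2⟩ : ∃ K2, K2 = K - K / 2 := ⟨_, rfl⟩
        have hKK : K = K1 + K2 := by omega
        obtain ⟨T1, hT1⟩ : ∃ T1, T1 = TT (ed ∘ σ) ω R δ (K1 * (q * ms d L)) := ⟨_, rfl⟩
        obtain ⟨ω1, hω1⟩ : ∃ ω1 : ℕ → Bool, ω1 = sh (K1 * (q * ms d L)) ω := ⟨_, rfl⟩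
        obtain ⟨R1, hR1⟩ : ∃ R1, R1 = R.image (gp (ed ∘ σ) ω (K1 * (q * ms d L))) := ⟨_, rfl⟩
        obtain ⟨T2, hT2⟩ : ∃ T2, T2 = TT (ed ∘ σ) ω1 R1 δ (K2 * (q * ms d L)) := ⟨_, rfl⟩
        have hTT : T = T1 * T2 := by
          rw [hT, hT1, hT2, hω1, hR1, hKK]
          exact TT_units hB2 hσ ω R hδ.le hδ1 q K1 K2
        have hE1 : Ev σ q K1 lam (r - ρ) ρ (κ₀ + 1) ω R := by
          have h4 := (hSUB d L hL3 σ hσ q K lam (r - ρ) ρ (κ₀ + 1) ω R hEv 0 K1 (by omega)).2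
          have h5 : sh (0 * (q * ms d L)) ω = ω := by
            funext k
            simp [sh]
          have h6 : R.image (gp (ed ∘ σ) ω (0 * (q * ms d L))) = R := by
            rw [Nat.zero_mul]
            simp [gp]
          rw [h5, h6] at h4
          exact h4
        have hE2 : Ev σ q K2 lam (r - ρ) ρ (κ₀ + 1) ω1 R1 := by
          rw [hω1, hR1]
          exact (hSUB d L hL3 σ hσ q K lam (r - ρ) ρ (κ₀ + 1) ω R hEv K1 K2 (by omega)).2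
        obtain ⟨-, hEvr2, hTr2⟩ := hREV d L hd1 hL3 σ hσ q K2 lam (r - ρ) ρ (κ₀ + 1) ω1 R1 δ
        have hB1' := hB2 _ (ed ∘ σ) ω R δ hδ.le hδ1
        have hB2' := hB2 _ (ed ∘ σ) ω1 R1 δ hδ.le hδ1
        have hy2 : y ∉ R1.image (gp (ed ∘ σ) ω1 (K2 * (q * ms d L))) := by
          intro h7
          apply hy
          rw [hR1, image_image] at h7
          rw [hR', hKK, add_mul, (hB1 _ (ed ∘ σ) ω).1, sh_ed hσ, ← hω1]
          obtain ⟨a, ha, hay⟩ := mem_image.1 h7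
          exact mem_image.2 ⟨a, ha, hay⟩
        rw [hTT]
        refine one_bound T1 T2 ?_ ?_ ?_ ?_ ?_ ?_ R
          (R1.image (gp (ed ∘ σ) ω1 (K2 * (q * ms d L)))) d hd1 m0 c K K1 K2 hc hK0 ?_ ?_ hm0n
          ?_ ?_ x y hxR hy2
        · rw [hT1]
          exact hB1'.1 _
        · rw [hT1]
          exact hB1'.2.1 _
        · rw [hT1]
          exact hB1'.2.2.1 _
        · rw [hT2]
          exact hB2'.1 _
        · rw [hT2]
          exact hB2'.2.1 _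
        · rw [hT2]
          exact hB2'.2.2.1 _
        · rw [hK1]
          exact_mod_cast n8
        · rw [hK2]
          exact_mod_cast n9
        · rw [hT1, hm0, hK1, hcd]
          rw [hK1] at hE1
          exact (hq2' q (by omega) σ hσ δ h1 h2 ω R hE1).1
        · rw [hT2, hm0, hcd, ← hTr2]
          have hE3 := hEvr2 hE2
          subst hK2
          exact (hq3' q (by omega) (rvs σ) hσr δ h1 h2 _ _ hE3).1
      · rw [pow_eq_sdiff T R R' U hUR hz k x hxR y]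
        exact pow_bound T hT0 hrow hcol R R' (U \ R') hUR2 hUR3 d hd1 m0 c K hc hK0 hm0n
          hLap1 hLap2 x y hxR hy k hk
    refine (green_sum2 (fun k => (T * (dg U * T) ^ k) x y) w m0 c K ((L : ℝ) ^ d) Z d hd hw0 hw1
      hm0n hc hK0 (by positivity) hLd hpow N).trans ?_
    have hKp : (K : ℝ) ^ (-(d / 2 : ℝ)) = 1 / K := by
      rw [hd]
      norm_num
      rw [Real.rpow_neg_one]
    rw [hKp]
    obtain ⟨D, hD⟩ : ∃ D : ℝ, D = (L : ℝ) ^ d * (1 - w) := ⟨_, rfl⟩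
    have hD0 : 0 < D := by rw [hD]; positivity
    have e1 : m0 / (1 - w) = Cl * (1 / D) := by
      rw [hm0, hD]
      field_simp
    have e2 : 3 / (c * K) = 3 * (Z : ℝ) ^ mc * (1 / K) := by
      rw [hcd]
      field_simp
    rw [e1, e2, ← hD]
    have hK1 : 1 / (K : ℝ) ≤ 1 := by
      rw [div_le_one hK0]
      exact_mod_cast n10
    have hClZ : (Cl : ℝ) + 4 ≤ Z := by exact_mod_cast hZ
    have hCl0 : (0 : ℝ) ≤ Cl := Nat.cast_nonneg _
    have hZm : (1 : ℝ) ≤ (Z : ℝ) ^ mc := one_le_pow₀ hZ1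
    have e3 : (Z : ℝ) ^ (mc + 2) = (Z : ℝ) ^ mc * (Z * Z) := by ring
    rw [e3]
    have h5 : 3 * (Z : ℝ) ^ mc * (1 / K) * Z ≤ (Z : ℝ) ^ mc * (Z * Z) * (1 / K) := by
      have : 3 * (Z : ℝ) ^ mc * (1 / K) * Z = ((Z : ℝ) ^ mc * (1 / K) * Z) * 3 := by ring
      rw [this]
      have : (Z : ℝ) ^ mc * (Z * Z) * (1 / K) = ((Z : ℝ) ^ mc * (1 / K) * Z) * Z := by ring
      rw [this]
      exact mul_le_mul_of_nonneg_left (by linarith) (by positivity)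
    have h6 : Cl * (1 / D) + 3 * (Z : ℝ) ^ mc * (1 / K) * (1 / D) ≤
        (Z : ℝ) ^ mc * (Z * Z) * (1 / D) := by
      rw [← add_mul]
      refine mul_le_mul_of_nonneg_right ?_ (by positivity)
      have h7 : 3 * (Z : ℝ) ^ mc * (1 / K) ≤ 3 * (Z : ℝ) ^ mc :=
        mul_le_of_le_one_right (by positivity) hK1
      have h8 : (Cl : ℝ) ≤ Z * (Z : ℝ) ^ mc := by nlinarith
      have h9 : 3 * (Z : ℝ) ^ mc ≤ Z * (Z : ℝ) ^ mc :=
        mul_le_mul_of_nonneg_right (by linarith) (by positivity)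
      have h10 : 2 * (Z * (Z : ℝ) ^ mc) ≤ (Z : ℝ) ^ mc * (Z * Z) := by
        have : (Z : ℝ) ^ mc * (Z * Z) = Z * (Z * (Z : ℝ) ^ mc) := by ring
        rw [this]
        exact mul_le_mul_of_nonneg_right (by linarith) (by positivity)
      linarith
    calc Cl * (1 / D) + 3 * (Z : ℝ) ^ mc * (1 / K) * (Z + 1 / D)
        = (Cl * (1 / D) + 3 * (Z : ℝ) ^ mc * (1 / K) * (1 / D)) +
          3 * (Z : ℝ) ^ mc * (1 / K) * Z := by ring
      _ ≤ (Z : ℝ) ^ mc * (Z * Z) * (1 / D) + (Z : ℝ) ^ mc * (Z * Z) * (1 / K) := add_le_add h6 h5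
      _ = _ := by ring

end Pool.Agent.J6H44.P2
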