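import Pool.Agent.J6H44.P2.LamA

/-! Project P2: resolvent form of functions with sum zero in the plane, `S_LAM2`. -/

set_option autoImplicit false

namespace Pool.Agent.J6H44.P2

open Finset Equiv Matrix Q292.LC
open Pool.Agent.Q257.LC (ker_nat)
open Pool.Agent.J6H44.PL (SS_of_DS)
open Pool.Agent.Q68.LC (SS SS_dg det_ne)

/-- numerical part of `S_LAM2` -/
theorem lam_num (Cl Z K L Zm : ℝ) (i₀ : ℕ) (hCl : 0 ≤ Cl) (hZ : 64 ≤ Z) (hClZ : Cl ≤ Z)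
    (hK : 1 ≤ K) (hL : 1 ≤ L) (hZm : 1 ≤ Zm) (hKL : K ≤ Z * L ^ 2) (hLd : L ^ 2 ≤ Real.exp Z)
    (hi1 : 1 ≤ i₀) (hi2 : L ^ 2 ≤ i₀ * K) (hi3 : (i₀ : ℝ) ≤ L ^ 2 / K + 1) (hi4 : (i₀ : ℝ) ≤ L ^ 2) :
    2 * (4 * i₀ * (Cl / L ^ 2) + 4 / (1 / Zm * K) * (1 + Real.log i₀) +
      4 * (Cl / L ^ 2 + 1 / (i₀ * (1 / Zm * K))) / (1 / Zm * K / L ^ 2)) ≤ Z ^ 3 * Zm ^ 2 / K := by
  have hK0 : 0 < K := by linarith
  have hL0 : 0 < L := by linarith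
  have hZm0 : 0 < Zm := by linarith
  have hi0 : (0 : ℝ) < i₀ := by
    have : 0 < i₀ := by omega
    exact_mod_cast this
  have hlog : Real.log i₀ ≤ Z := by
    rw [Real.log_le_iff_le_exp hi0]
    exact hi4.trans hLd
  -- first term
  have h1 : 4 * i₀ * (Cl / L ^ 2) ≤ 4 * Cl * (1 + Z) / K := by
    have e1 : (i₀ : ℝ) / L ^ 2 ≤ (1 + Z) / K := by
      have e2 : (i₀ : ℝ) / L ^ 2 ≤ (L ^ 2 / K + 1) / L ^ 2 := div_le_div_of_nonneg_right hi3 (by positivity)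
      have e3 : (L ^ 2 / K + 1) / L ^ 2 = 1 / K + 1 / L ^ 2 := by
        field_simp
      have e4 : 1 / L ^ 2 ≤ Z / K := by
        rw [div_le_div_iff₀ (by positivity) hK0]
        linarith
      have e5 : (1 + Z) / K = 1 / K + Z / K := by ring
      linarith
    calc 4 * i₀ * (Cl / L ^ 2) = 4 * Cl * (i₀ / L ^ 2) := by ring
      _ ≤ 4 * Cl * ((1 + Z) / K) := mul_le_mul_of_nonneg_left e1 (by positivity)
      _ = _ := by ring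
  -- second term
  have h2 : 4 / (1 / Zm * K) * (1 + Real.log i₀) ≤ 4 * Zm * (1 + Z) / K := by
    have e1 : 4 / (1 / Zm * K) = 4 * Zm / K := by
      field_simp
    rw [e1]
    calc 4 * Zm / K * (1 + Real.log i₀) ≤ 4 * Zm / K * (1 + Z) :=
          mul_le_mul_of_nonneg_left (by linarith) (by positivity)
      _ = _ := by ring
  -- third term
  have h3 : 4 * (Cl / L ^ 2 + 1 / (i₀ * (1 / Zm * K))) / (1 / Zm * K / L ^ 2) ≤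
      4 * (Cl + Zm) * Zm / K := by
    have e1 : 1 / (i₀ * (1 / Zm * K)) ≤ Zm / L ^ 2 := by
      have : 1 / (i₀ * (1 / Zm * K)) = Zm / (i₀ * K) := by
        field_simp
      rw [this]
      exact div_le_div_of_nonneg_left hZm0.le (by positivity) hi2
    have e2 : Cl / L ^ 2 + 1 / (i₀ * (1 / Zm * K)) ≤ (Cl + Zm) / L ^ 2 := by
      rw [add_div]
      linarith
    calc 4 * (Cl / L ^ 2 + 1 / (i₀ * (1 / Zm * K))) / (1 / Zm * K / L ^ 2)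
        ≤ 4 * ((Cl + Zm) / L ^ 2) / (1 / Zm * K / L ^ 2) :=
          div_le_div_of_nonneg_right (mul_le_mul_of_nonneg_left e2 (by norm_num)) (by positivity)
      _ = _ := by
          field_simp
  have h4 : 2 * (4 * Cl * (1 + Z) / K + 4 * Zm * (1 + Z) / K + 4 * (Cl + Zm) * Zm / K) =
      (2 * (4 * Cl * (1 + Z) + 4 * Zm * (1 + Z) + 4 * (Cl + Zm) * Zm)) / K := by
    ring
  have h5 : 2 * (4 * Cl * (1 + Z) + 4 * Zm * (1 + Z) + 4 * (Cl + Zm) * Zm) ≤ Z ^ 3 * Zm ^ 2 := by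
    have a0 : 1 ≤ Zm ^ 2 := one_le_pow₀ hZm
    have a1 : Zm ≤ Zm ^ 2 := le_self_pow₀ hZm (by norm_num)
    have a2 : 4 * Cl * (1 + Z) ≤ 8 * Z ^ 2 * Zm ^ 2 := by
      have b1 : Cl * (1 + Z) ≤ Z * (2 * Z) := mul_le_mul hClZ (by linarith) (by linarith) (by linarith)
      have b2 : 8 * Z ^ 2 * 1 ≤ 8 * Z ^ 2 * Zm ^ 2 := mul_le_mul_of_nonneg_left a0 (by positivity)
      nlinarith
    have a3 : 4 * Zm * (1 + Z) ≤ 8 * Z ^ 2 * Zm ^ 2 := by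
      have b1 : Zm * (1 + Z) ≤ Zm ^ 2 * (2 * Z ^ 2) :=
        mul_le_mul a1 (by nlinarith) (by linarith) (by positivity)
      linarith
    have a4 : 4 * (Cl + Zm) * Zm ≤ 8 * Z ^ 2 * Zm ^ 2 := by
      have b1 : Cl + Zm ≤ 2 * Z ^ 2 * Zm := by
        have c1 : Cl ≤ Z ^ 2 * Zm := by
          calc Cl ≤ Z * 1 := by linarith
            _ ≤ Z ^ 2 * Zm := mul_le_mul (by nlinarith) hZm zero_le_one (by positivity)
        have c2 : Zm ≤ Z ^ 2 * Zm := le_mul_of_one_le_left hZm0.le (by nlinarith)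
        linarith
      calc 4 * (Cl + Zm) * Zm ≤ 4 * (2 * Z ^ 2 * Zm) * Zm :=
            mul_le_mul_of_nonneg_right (mul_le_mul_of_nonneg_left b1 (by norm_num)) hZm0.le
        _ = _ := by ring
    calc _ ≤ 48 * (Z ^ 2 * Zm ^ 2) := by linarith
      _ ≤ Z * (Z ^ 2 * Zm ^ 2) := mul_le_mul_of_nonneg_right (by linarith) (by positivity)
      _ = _ := by ring
  calc _ ≤ 2 * (4 * Cl * (1 + Z) / K + 4 * Zm * (1 + Z) / K + 4 * (Cl + Zm) * Zm / K) := by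
        linarith
    _ = (2 * (4 * Cl * (1 + Z) + 4 * Zm * (1 + Z) + 4 * (Cl + Zm) * Zm)) / K := h4
    _ ≤ _ := div_le_div_of_nonneg_right h5 hK0.le

/-- the bound for the sum of the square norms of the iterates -/
theorem sum_bound {V : Type} [Fintype V] [DecidableEq V] (T : Matrix V V ℝ)
    (hT0 : ∀ x y, 0 ≤ T x y) (hrow : ∀ x, ∑ y, T x y = 1)
    (hcol : ∀ y, ∑ x, T x y = 1) (A : Finset V) (hA : ∀ x, x ∉ A → ∀ y ∈ A, T x y = 0)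
    (d : ℕ) (hd : d = 2) (m0 κ γ : ℝ) (hκ : 0 < κ) (hm0 : 0 ≤ m0) (hγ : 0 < γ)
    (hLap : ∀ f : V → ℝ, (∀ x, 0 ≤ f x) → (∀ x ∈ A, f x = 0) → ∑ x, f x ≤ 1 →
      ∑ x, (vecMul f T x) ^ 2 ≤
        max m0 (((∑ x, (f x) ^ 2) ^ (-(2 / d : ℝ)) + κ) ^ (-(d / 2 : ℝ))))
    (hLap2 : ∀ f : V → ℝ, (∀ x ∈ A, f x = 0) → ∑ x, f x = 0 →
      (1 + γ) * ∑ x, (vecMul f T x) ^ 2 ≤ ∑ x, (f x) ^ 2)
    (φ : V → ℝ) (hφ : ∀ a ∈ A, φ a = 0) (hφ0 : ∑ x, φ x = 0) (hφ1 : ∑ x, |φ x| ≤ 2)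
    (i₀ : ℕ) (hi₀ : 1 ≤ i₀) :
    (∀ n, ∑ i ∈ range n, ∑ x, (vecMul φ (T ^ (i + 1)) x) ^ 2 ≤
      4 * i₀ * m0 + 4 / κ * (1 + Real.log i₀) + 4 * (m0 + 1 / (i₀ * κ)) / γ) ∧
    (∀ i, ∑ x, (vecMul φ (T ^ i) x) ^ 2 ≤ ∑ x, φ x ^ 2) := by
  have h1 : ∀ i, (1 + γ) * ∑ x, (vecMul φ (T ^ (i + 1)) x) ^ 2 ≤
      ∑ x, (vecMul φ (T ^ i) x) ^ 2 := by
    intro i
    rw [vecMul_pow_succ]
    exact hLap2 _ (vecMul_zero_off T A hA φ hφ i) (by rw [vecMul_sum T hrow]; exact hφ0)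
  have h0 : ∀ i, 0 ≤ ∑ x, (vecMul φ (T ^ i) x) ^ 2 := fun i => sum_nonneg fun _ _ => sq_nonneg _
  constructor
  · intro n
    exact sum_D (fun i => ∑ x, (vecMul φ (T ^ i) x) ^ 2) h0 γ m0 κ hγ hκ h1
      (fun i => decay_pol T hT0 hrow hcol A hA d hd m0 κ hκ hm0 hLap φ hφ hφ1 i) i₀ hi₀ n
  · intro i
    induction i with
    | zero => simp
    | succ i ih =>
      have h2 := h1 i
      have h3 : ∑ x, (vecMul φ (T ^ (i + 1)) x) ^ 2 ≤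
          (1 + γ) * ∑ x, (vecMul φ (T ^ (i + 1)) x) ^ 2 :=
        le_mul_of_one_le_left (h0 _) (by linarith)
      linarith

theorem lam2 (hLAP : S_LAP2) : S_LAM2 := by
  intro d hd
  obtain ⟨Cl, ml, mc, hCl, hlap⟩ := hLAP d hd
  have hd1 : 1 ≤ d := by omega
  refine ⟨Cl + 64, ml + 2, 2 * mc + 3, by omega, ?_⟩
  intro Z hZ L K lam r ρ κ₀ _ hlam hρ hκ hLd hr hL hK hKL
  obtain ⟨n1, n2, n3, n4, -, -, hL3, -, -, n10⟩ :=
    ker_nat Z ml r ρ K L (by omega) hρ hr hL hK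
  obtain ⟨q1, hq1⟩ := hlap Z (by omega) L K lam (r - ρ) ρ (κ₀ + 1) hlam hρ hκ n1 n3 n4
  refine ⟨q1 + 2, ?_⟩
  intro q hq σ hσ δ h1 h2 ω A hGd hInv φ hφA hφ0 hφ1 w hw0 hw1
  have hZ64 : (64 : ℝ) ≤ Z := by
    have : 64 ≤ Z := by omega
    exact_mod_cast this
  have hZ0 : (0 : ℝ) < Z := by linarith
  have hqr : (2 : ℝ) ≤ q := by
    have : 2 ≤ q := by omega
    exact_mod_cast this
  have hδ : 0 < δ := by
    by_contra h
    push Not at h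
    nlinarith
  have hδ1 : δ ≤ 1 := by nlinarith
  have hEv : Ev σ q K lam (r - ρ) ρ (κ₀ + 1) ω A :=
    Pool.Agent.Q277.LC.ge d L hL3 σ hσ q K lam (r - ρ) ρ κ₀ ω A (by omega) n10
      (by rw [n2]; exact hGd)
  obtain ⟨hσr, hEvr, hTr⟩ := Pool.Agent.Q187.LC.Rev.rev d L hd1 hL3 σ hσ q K lam (r - ρ) ρ (κ₀ + 1)
    ω A δ
  have hB := Pool.Agent.Q68.LC.bas2 _ (ed ∘ σ) ω A δ hδ.le hδ1
  have hA' : A.image (gp (ed ∘ σ) ω (K * (q * ms d L))) = A := by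
    refine Finset.eq_of_subset_of_card_le ?_ ?_
    · intro y hy
      obtain ⟨a, ha, rfl⟩ := mem_image.1 hy
      exact hInv a ha
    · rw [card_image_of_injective _ (gp (ed ∘ σ) ω (K * (q * ms d L))).injective]
  obtain ⟨T, hT⟩ : ∃ T, T = TT (ed ∘ σ) ω A δ (K * (q * ms d L)) := ⟨_, rfl⟩
  have hT0 : ∀ x y, 0 ≤ T x y := by
    rw [hT]
    exact hB.1 _
  have hrow : ∀ x, ∑ y, T x y = 1 := by
    rw [hT]
    exact hB.2.1 _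
  have hcol : ∀ y, ∑ x, T x y = 1 := by
    rw [hT]
    exact hB.2.2.1 _
  have hz : ∀ a, a ∉ A → ∀ b ∈ A, T a b = 0 := by
    intro a ha b hb
    rw [← hA'] at hb
    rw [hT]
    exact hB.2.2.2.2.1 _ a ha b hb
  have hz2 : ∀ a ∈ A, ∀ b, b ∉ A → T a b = 0 := by
    intro a ha b hb
    rw [hT, hB.2.2.2.1 _ a ha b, if_neg]
    rintro rfl
    exact hb (hInv a ha)
  have hz3 : ∀ a, a ∉ A → ∀ b ∈ A, Tᵀ a b = 0 := fun a ha b hb => hz2 b hb a ha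
  have hL0 : (0 : ℝ) < L := by
    have : 0 < L := by omega
    exact_mod_cast this
  have hK0 : (0 : ℝ) < K := by exact_mod_cast n10
  have hLdR : (L : ℝ) ^ d = (L : ℝ) ^ 2 := by rw [hd]
  obtain ⟨m0, hm0⟩ : ∃ m0 : ℝ, m0 = Cl / (L : ℝ) ^ d := ⟨_, rfl⟩
  have hm0n : 0 ≤ m0 := by
    rw [hm0]
    positivity
  obtain ⟨κ, hκd⟩ : ∃ κ : ℝ, κ = 1 / (Z : ℝ) ^ mc * K := ⟨_, rfl⟩
  have hκ0 : 0 < κ := by rw [hκd]; positivity
  obtain ⟨γ, hγd⟩ : ∃ γ : ℝ, γ = κ / (L : ℝ) ^ 2 := ⟨_, rfl⟩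
  have hγ0 : 0 < γ := by rw [hγd]; positivity
  have hL1 := hq1 q (by omega) σ hσ δ h1 h2 ω A hEv
  have hL2 := hq1 q (by omega) (rvs σ) hσr δ h1 h2 _ _ (hEvr hEv)
  rw [hTr] at hL2
  rw [hA'] at hL2
  rw [← hT, ← hm0, ← hκd, ← hγd] at hL1 hL2
  rw [← hT]
  -- the splitting index
  obtain ⟨i₀, hi₀⟩ : ∃ i₀ : ℕ, i₀ = ⌈(L : ℝ) ^ 2 / K⌉₊ := ⟨_, rfl⟩
  have hi1 : 1 ≤ i₀ := by
    rw [hi₀]
    exact Nat.one_le_iff_ne_zero.2 (Nat.ceil_pos.2 (by positivity)).ne'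
  have hi2 : (L : ℝ) ^ 2 ≤ i₀ * K := by
    have := Nat.le_ceil ((L : ℝ) ^ 2 / K)
    rw [← hi₀, div_le_iff₀ hK0] at this
    exact this
  have hi3 : (i₀ : ℝ) ≤ (L : ℝ) ^ 2 / K + 1 := by
    rw [hi₀]
    exact (Nat.ceil_lt_add_one (by positivity)).le
  have hi4 : (i₀ : ℝ) ≤ (L : ℝ) ^ 2 := by
    have h3 : i₀ ≤ L ^ 2 := by
      rw [hi₀, Nat.ceil_le]
      push_cast
      exact div_le_self (by positivity) (by exact_mod_cast n10)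
    exact_mod_cast h3
  obtain ⟨s1, s2⟩ := sum_bound T hT0 hrow hcol A hz d hd m0 κ γ hκ0 hm0n hγ0 hL1.1 hL1.2 φ hφA hφ0
    hφ1 i₀ hi1
  obtain ⟨s3, -⟩ := sum_bound Tᵀ (fun x y => hT0 y x) hcol hrow A hz3 d hd m0 κ γ hκ0 hm0n hγ0
    hL2.1 hL2.2 φ hφA hφ0 hφ1 i₀ hi1
  obtain ⟨B, hBd⟩ : ∃ B : ℝ, B = 4 * i₀ * m0 + 4 / κ * (1 + Real.log i₀) +
    4 * (m0 + 1 / (i₀ * κ)) / γ := ⟨_, rfl⟩
  rw [← hBd] at s1 s3
  have hB2 : 2 * B ≤ (Z : ℝ) ^ (2 * mc + 3) / K := by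
    have h3 := lam_num Cl Z K L ((Z : ℝ) ^ mc) i₀ (Nat.cast_nonneg _) hZ64
      (by
        have : Cl ≤ Z := by omega
        exact_mod_cast this) (by exact_mod_cast n10)
      (by
        have : 1 ≤ L := by omega
        exact_mod_cast this) (one_le_pow₀ (by linarith))
      (by
        have : (K : ℝ) ≤ Z * (L : ℝ) ^ d := by exact_mod_cast hKL
        rw [hLdR] at this
        exact this)
      (by rw [← hLdR]; exact hLd) hi1 hi2 hi3 hi4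
    rw [hBd, hm0, hγd, hκd, hLdR]
    refine h3.trans (le_of_eq ?_)
    congr 1
    ring
  have hSS : SS (dg (univ \ A) * T) := SS_dg (SS_of_DS hT0 hrow) _
  have hdet := det_ne hSS hw0 hw1
  refine res_lim T A hz2 φ w hw0 hw1 hdet hφA s2 _ ?_
  intro n
  refine (partial_sum T φ w hw0 hw1.le n).trans ?_
  rw [sum_add_distrib]
  have h3 := s1 n
  have h4 := s3 n
  have h5 : 0 ≤ ∑ x, (vecMul φ (T ^ n) x) ^ 2 := sum_nonneg fun _ _ => sq_nonneg _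
  have h6 : 0 ≤ ∑ x, φ x ^ 2 := sum_nonneg fun _ _ => sq_nonneg _
  linarith

end Pool.Agent.J6H44.P2
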