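import Pool.Agent.J6H44.P2.Lap
import Pool.Agent.J6H44.P2.Ker
import Pool.Agent.J6H44.P2.Lam
import Pool.Agent.J6H44.P2.Btl
import Pool.Agent.J6H44.P2.Dev
import Pool.Agent.J6H62.P2.Geo2
import Pool.Agent.J6H59.P2.Smo2
import Pool.Agent.J6H20.P2.Omp2
import Pool.Agent.J6H1.P2.Two
import Pool.Agent.J6H1.P2.Pd

/-! # Project P2, assembly: long cycles of random stirring in the plane at polylogarithmic times -/

set_option autoImplicit false

namespace Pool.Agent.J6H44.P2

theorem lap_all : S_LAP2 := lap2 Pool.Agent.J6H62.P2.geo2 Pool.Agent.J6H59.P2.smo2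

theorem dev_all : S_DEV2 :=
  dev2 (btl2 (ker2 lap_all) Pool.Agent.J6H20.P2.omp2) (lam2 lap_all)

theorem two_all : S_TWO2 := Pool.Agent.J6H1.P2.two2 dev_all

end Pool.Agent.J6H44.P2
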