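import Pool.Agent.J6H44.P2.Swd2
import Pool.Agent.Q151.LC.Smo
import Pool.Agent.Q277.LC.Sub

/-! Project P2, BDC: few blocked points in every sweep of a good environment. -/

set_option autoImplicit false
set_option linter.unusedSectionVars false

namespace Pool.Agent.J6H44.P2

open Finset Equiv Matrix Q292.LC
open Pool.Agent.Q151.LC (mem_bal td_zero cnt_jump tch_shift_set sh_per sig_per td_tri td_comm)

section gen

variable {V : Type} [Fintype V] [DecidableEq V]

theorem sh_sh {α : Type} (i j : ℕ) (f : ℕ → α) : sh j (sh i f) = sh (i + j) f := by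
  funext k
  unfold sh
  congr 1
  omega

theorem image_gp_add (e : ℕ → V × V) (ω : ℕ → Bool) (A : Finset V) (i j : ℕ)
    (he : sh i e = e) : (A.image (gp e ω i)).image (gp e (sh i ω) j) = A.image (gp e ω (i + j)) := by
  rw [Finset.image_image]
  have h := (Pool.Agent.Q68.LC.bas1 V e ω).1 i j
  rw [he] at h
  rw [h]
  rfl

end gen

section torus

variable {d L : ℕ} [NeZero L]

theorem sh_sweep {σ : ℕ → (Fin d → ZMod L) × Fin d} (hσ : Per σ) (s : ℕ) :
    sh (s * ms d L) (ed ∘ σ) = ed ∘ σ := by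
  rw [sh_per hσ]

end torus

theorem bdc : S_BDC := by
  intro d L _ hd hL σ hσ q K lam r ρ κ₀ ω A hq hE s hs v R' hR
  obtain ⟨e, he⟩ : ∃ e : ℕ → (Fin d → ZMod L) × (Fin d → ZMod L), e = ed ∘ σ := ⟨_, rfl⟩
  obtain ⟨j, hj⟩ : ∃ j, j = s / q := ⟨_, rfl⟩
  obtain ⟨t, ht⟩ : ∃ t, t = s % q := ⟨_, rfl⟩
  have hst : s = j * q + t := by rw [hj, ht]; exact (Nat.div_add_mod' s q).symm
  have htq : t < q := by rw [ht]; exact Nat.mod_lt _ (by omega)
  have hjK : j + 1 ≤ K := by
    rw [hj]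
    have : s / q < K := Nat.div_lt_of_lt_mul (by rw [mul_comm]; exact hs)
    omega
  have hms : s * ms d L = j * (q * ms d L) + t * ms d L := by rw [hst]; ring
  obtain ⟨hsh, hE1⟩ := Pool.Agent.Q277.LC.sub d L hL σ hσ q K lam r ρ κ₀ ω A hE j 1 hjK
  obtain ⟨ω1, hω1⟩ : ∃ ω1 : ℕ → Bool, ω1 = sh (j * (q * ms d L)) ω := ⟨_, rfl⟩
  obtain ⟨A1, hA1⟩ : ∃ A1, A1 = A.image (gp (ed ∘ σ) ω (j * (q * ms d L))) := ⟨_, rfl⟩
  rw [← hω1, ← hA1] at hE1
  have hω2 : sh (s * ms d L) ω = sh (t * ms d L) ω1 := by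
    rw [hω1, sh_sh, hms]
  have hA2 : A.image (gp (ed ∘ σ) ω (s * ms d L)) = A1.image (gp (ed ∘ σ) ω1 (t * ms d L)) := by
    rw [hA1, hω1, image_gp_add _ _ _ _ _ hsh, hms]
  rw [hω2, hA2]
  obtain ⟨c1, c2, -⟩ := hE1
  have hJ : ∀ a ∈ A1, jumps (ed ∘ σ) ω1 0 (q * ms d L) a ≤ ρ := by
    intro a ha
    have := c2 0 (by omega) a ha
    rwa [Nat.zero_mul, Nat.zero_add, Nat.one_mul] at this
  have hc : ∀ R₁, R₁ ≤ r → (A1 ∩ bal v R₁).card ≤ lam := by
    intro R₁ hR₁
    have h1 := c1 0 (by omega) v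
    have h2 : A1.image (gp (ed ∘ σ) ω1 (0 * (q * ms d L))) = A1 := by
      rw [Nat.zero_mul]
      simp [gp]
    rw [h2] at h1
    refine (Finset.card_le_card ?_).trans h1
    intro x hx
    rw [Finset.mem_inter, mem_bal] at hx ⊢
    exact ⟨hx.1, hx.2.trans hR₁⟩
  have hT : t * ms d L + ms d L ≤ q * ms d L := by
    have : (t + 1) * ms d L ≤ q * ms d L := Nat.mul_le_mul_right _ htq
    rw [Nat.succ_mul] at this
    exact this
  have hcnt := cnt_jump σ ω1 A1 v (q * ms d L) R' ρ lam hJ (hc _ (by omega))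
  obtain ⟨F, hF⟩ : ∃ F, F = (range (q * ms d L)).filter (fun k => ω1 k = true ∧
      tch (ed ∘ σ) ω1 A1 k ∧ ((ed (σ k)).1 ∈ bal v (R' + 1) ∨ (ed (σ k)).2 ∈ bal v (R' + 1))) :=
    ⟨_, rfl⟩
  rw [← hF] at hcnt
  have hsub : bdS σ (sh (t * ms d L) ω1) (A1.image (gp (ed ∘ σ) ω1 (t * ms d L))) ∩ bal v R' ⊆
      (A1 ∩ bal v (R' + ρ)).image (gp (ed ∘ σ) ω1 (t * ms d L)) ∪
        F.biUnion fun k => {(ed (σ k)).1, (ed (σ k)).2} := by
    intro x hx
    rw [Finset.mem_inter, mem_bal] at hx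
    obtain ⟨hx1, hx2⟩ := hx
    unfold bdS at hx1
    rw [Finset.mem_union] at hx1 ⊢
    rcases hx1 with hx1 | hx1
    · left
      obtain ⟨a, ha, hax⟩ := Finset.mem_image.1 hx1
      refine Finset.mem_image.2 ⟨a, ?_, hax⟩
      rw [Finset.mem_inter, mem_bal]
      refine ⟨ha, ?_⟩
      have h3 := td_zero σ ω1 (t * ms d L) (q * ms d L) ρ a (by omega) (hJ a ha)
      rw [hax] at h3
      have h4 := td_tri v x a
      omega
    · right
      obtain ⟨k, hk, hkx⟩ := Finset.mem_biUnion.1 hx1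
      rw [Finset.mem_filter, Finset.mem_range] at hk
      obtain ⟨hk1, hk2, hk3⟩ := hk
      have hσk : σ (t * ms d L + k) = σ k := by
        rw [Nat.add_comm]
        exact sig_per hσ _ _
      refine Finset.mem_biUnion.2 ⟨t * ms d L + k, ?_, ?_⟩
      · rw [hF, Finset.mem_filter, Finset.mem_range]
        refine ⟨by omega, ?_, ?_, ?_⟩
        · unfold sh at hk2
          rwa [Nat.add_comm] at hk2
        · rw [tch_shift_set, sh_sweep hσ]
          exact hk3
        · rw [hσk, mem_bal, mem_bal]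
          rw [Finset.mem_insert, Finset.mem_singleton] at hkx
          rcases hkx with h | h
          · left
            rw [← h]
            omega
          · right
            rw [← h]
            omega
      · rw [hσk]
        exact hkx
  refine (Finset.card_le_card hsub).trans ((Finset.card_union_le _ _).trans ?_)
  refine Nat.add_le_add ?_ ?_
  · exact Finset.card_image_le.trans (hc _ (by omega))
  · refine (Finset.card_biUnion_le_card_mul _ _ 2 ?_).trans ?_
    · intro k _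
      exact Finset.card_le_two
    · rw [mul_comm]
      exact Nat.mul_le_mul_left _ hcnt

end Pool.Agent.J6H44.P2
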