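import Pool.Agent.J6H44.PL.Dva
import Pool.Agent.J6H44.PL.Dev

/-! Project P2: box functions and the estimate for a fixed circuit, with the marked set as the
excluded set. -/

set_option autoImplicit false
set_option linter.unusedSectionVars false
set_option linter.unusedVariables false

namespace Pool.Agent.J6H44.P2

open Finset Equiv Matrix Q292.LC
open Pool.Agent.J6H44.PL

section box

variable {d L : ℕ} [NeZero L]

theorem good_card (r : ℕ) (hr : 1 ≤ r) (hrL : r ≤ L) (D : Finset (Fin d → ZMod L))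
    (hD : ∀ v, 2 * (D ∩ box v r).card ≤ r ^ d) (z : Fin d → ZMod L) :
    (r : ℝ) ^ d ≤ 2 * ((box z r \ D).card : ℝ) := by
  have h := card_good r 1 hr (by rw [one_mul]; exact hrL) D hD z
  rw [one_mul] at h
  exact h

theorem chi_nonneg (r : ℕ) (D : Finset (Fin d → ZMod L)) (z x : Fin d → ZMod L) :
    0 ≤ chi r D z x := by
  unfold chi
  split_ifs <;> positivity

theorem chi_sum (r : ℕ) (hr : 1 ≤ r) (hrL : r ≤ L) (D : Finset (Fin d → ZMod L))
    (hD : ∀ v, 2 * (D ∩ box v r).card ≤ r ^ d) (z : Fin d → ZMod L) :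
    ∑ x, chi r D z x = 1 := by
  have h1 := good_card r hr hrL D hD z
  have hr0 : (0 : ℝ) < r := by exact_mod_cast hr
  have h2 : (0 : ℝ) < (r : ℝ) ^ d := by positivity
  unfold chi
  rw [← Finset.sum_filter, Finset.sum_const, nsmul_eq_mul, Finset.filter_mem_eq_inter,
    Finset.univ_inter, mul_one_div]
  exact div_self (by linarith)

theorem chi_le (r : ℕ) (hr : 1 ≤ r) (hrL : r ≤ L) (D : Finset (Fin d → ZMod L))
    (hD : ∀ v, 2 * (D ∩ box v r).card ≤ r ^ d) (z x : Fin d → ZMod L) :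
    chi r D z x ≤ 2 * ew r z x := by
  have h1 := good_card r hr hrL D hD z
  have hr0 : (0 : ℝ) < r := by exact_mod_cast hr
  have h2 : (0 : ℝ) < (r : ℝ) ^ d := by positivity
  unfold chi ew
  by_cases hx : x ∈ box z r
  · rw [if_pos hx]
    split_ifs
    · rw [mul_one_div, div_le_div_iff₀ (by linarith) h2]
      linarith
    · positivity
  · rw [if_neg hx, if_neg (fun h => hx (mem_sdiff.1 h).1)]
    norm_num

theorem ew_le (r : ℕ) (z x : Fin d → ZMod L) : ew r z x ≤ 1 / (r : ℝ) ^ d := by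
  unfold ew
  split_ifs
  · exact le_rfl
  · positivity

/-- facts on the box functions -/
theorem phz_facts (r : ℕ) (hr : 1 ≤ r) (hrL : r ≤ L) (D : Finset (Fin d → ZMod L))
    (hD : ∀ v, 2 * (D ∩ box v r).card ≤ r ^ d) (z : Fin d → ZMod L) :
    ∑ x, phz r D z x = 0 ∧ ∑ x, |phz r D z x| ≤ 2 ∧ ∑ x, phz r D z x ^ 2 ≤ 4 / (r : ℝ) ^ d := by
  have hr0 : (0 : ℝ) < r := by exact_mod_cast hr
  have h2 : (0 : ℝ) < (r : ℝ) ^ d := by positivity
  have hL0 : (0 : ℝ) < (L : ℝ) ^ d := by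
    have : (0 : ℝ) < L := by exact_mod_cast Nat.pos_of_ne_zero (NeZero.ne L)
    positivity
  obtain ⟨m, hm⟩ : ∃ m : (Fin d → ZMod L) → ℝ, m = fun x =>
    (∑ z' : Fin d → ZMod L, chi r D z' x) / (L : ℝ) ^ d := ⟨_, rfl⟩
  have hph : ∀ x, phz r D z x = chi r D z x - m x := fun x => by rw [hm]; rfl
  have hm0 : ∀ x, 0 ≤ m x := by
    intro x
    rw [hm]
    exact div_nonneg (sum_nonneg fun z' _ => chi_nonneg r D z' x) hL0.le
  have hm1 : ∑ x, m x = 1 := by
    rw [hm]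
    rw [← sum_div, sum_comm]
    simp only [chi_sum r hr hrL D hD]
    rw [sum_const, nsmul_eq_mul, cardV, mul_one, div_self hL0.ne']
  have hm2 : ∀ x, m x ≤ 2 / (L : ℝ) ^ d := by
    intro x
    rw [hm]
    refine div_le_div_of_nonneg_right ?_ hL0.le
    calc ∑ z' : Fin d → ZMod L, chi r D z' x ≤ ∑ z' : Fin d → ZMod L, 2 * ew r z' x :=
          sum_le_sum fun z' _ => chi_le r hr hrL D hD z' x
      _ = 2 := by rw [← mul_sum, ew_col r hr hrL, mul_one]
  have hc1 := chi_sum r hr hrL D hD z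
  refine ⟨?_, ?_, ?_⟩
  · simp only [hph]
    rw [sum_sub_distrib, hc1, hm1, sub_self]
  · simp only [hph]
    calc ∑ x, |chi r D z x - m x| ≤ ∑ x, (chi r D z x + m x) := by
          refine sum_le_sum fun x _ => ?_
          have a1 := chi_nonneg r D z x
          have a2 := hm0 x
          rw [abs_le]
          constructor <;> linarith
      _ = 2 := by rw [sum_add_distrib, hc1, hm1]; norm_num
  · simp only [hph]
    have a3 : ∀ x, (chi r D z x - m x) ^ 2 ≤ (2 / (r : ℝ) ^ d) * chi r D z x +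
        (2 / (L : ℝ) ^ d) * m x := by
      intro x
      have a1 := chi_nonneg r D z x
      have a2 := hm0 x
      have a4 : chi r D z x ≤ 2 / (r : ℝ) ^ d := by
        have b1 := chi_le r hr hrL D hD z x
        have b2 := ew_le r z x
        have b3 : 2 * (1 / (r : ℝ) ^ d) = 2 / (r : ℝ) ^ d := by ring
        linarith
      have a5 := hm2 x
      have a6 : chi r D z x * chi r D z x ≤ (2 / (r : ℝ) ^ d) * chi r D z x :=
        mul_le_mul_of_nonneg_right a4 a1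
      have a7 : m x * m x ≤ (2 / (L : ℝ) ^ d) * m x := mul_le_mul_of_nonneg_right a5 a2
      have a8 : 0 ≤ chi r D z x * m x := mul_nonneg a1 a2
      nlinarith
    have hrLd : (r : ℝ) ^ d ≤ (L : ℝ) ^ d :=
      pow_le_pow_left₀ hr0.le (by exact_mod_cast hrL) d
    have a9 : 2 / (L : ℝ) ^ d ≤ 2 / (r : ℝ) ^ d :=
      div_le_div_of_nonneg_left (by norm_num) h2 hrLd
    calc ∑ x, (chi r D z x - m x) ^ 2 ≤ ∑ x, ((2 / (r : ℝ) ^ d) * chi r D z x +
        (2 / (L : ℝ) ^ d) * m x) := sum_le_sum fun x _ => a3 x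
      _ = 2 / (r : ℝ) ^ d + 2 / (L : ℝ) ^ d := by
          rw [sum_add_distrib, ← mul_sum, ← mul_sum, hc1, hm1, mul_one, mul_one]
      _ ≤ 4 / (r : ℝ) ^ d := by
          have : 4 / (r : ℝ) ^ d = 2 / (r : ℝ) ^ d + 2 / (r : ℝ) ^ d := by ring
          linarith

end box

section core

variable {d L : ℕ} [NeZero L]

open Classical in
/-- the estimate for a fixed circuit -/
theorem dev_core2 (e : ℕ → (Fin d → ZMod L) × (Fin d → ZMod L)) (n : ℕ) (δ w Λ η' κ P : ℝ)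
    (h0 : 0 ≤ δ) (h1 : δ ≤ 1) (hw0 : 0 ≤ w) (hw1 : w < 1) (hΛ : 0 ≤ Λ) (hη' : 0 ≤ η') (r : ℕ)
    (hr : 1 ≤ r) (hrL : r ≤ L) (B : (ℕ → Bool) → Finset (Fin d → ZMod L) → Prop)
    (hB : ∀ A, Rmeas e n A (fun ω => B ω A))
    (hsize : ∀ ω A, B ω A → ∀ v, ((A ∩ box v r).card : ℝ) ≤ η' * (r : ℝ) ^ d)
    (hres : ∀ ω A, Inv (gp e ω n) A → B ω A → ∀ z, phz r A z ⬝ᵥ
      ((1 - w • (dg (univ \ A) * TT e ω A δ n))⁻¹ *ᵥ phz r A z) ≤ Λ)
    (hκ : ∀ x, PW e n δ w (fun ω A => x ∈ A ∧ B ω A) ≤ κ)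
    (hP : PW e n δ w (fun ω A => ¬ B ω A) ≤ P) :
    EE n δ (fun ω => Dv r (gp e ω n)) ≤
      3 * ((L : ℝ) ^ d * ((1 - w) * Λ)) + (24 * η' ^ 2 + (2 * κ + 2 * P)) := by
  obtain ⟨p1, p2, p3, p4, p5, -⟩ := Pool.Agent.Q277.LC.peb (Fin d → ZMod L) e n δ w h0 h1 hw0 hw1
  have hL0 : (0 : ℝ) < (L : ℝ) ^ d := by
    have : (0 : ℝ) < L := by exact_mod_cast Nat.pos_of_ne_zero (NeZero.ne L)
    positivity
  obtain ⟨S, hS⟩ : ∃ S : (Fin d → ZMod L) → (ℕ → Bool) → Finset (Fin d → ZMod L) → ℝ,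
    S = fun z ω A => if B ω A then ∑ x ∈ univ \ A,
      ((∑ y ∈ cyc (gp e ω n) x, phz r A z y) /
        ((cyc (gp e ω n) x).card : ℝ)) ^ 2 else 0 := ⟨_, rfl⟩
  obtain ⟨M, hM⟩ : ∃ M : (Fin d → ZMod L) → (ℕ → Bool) → Finset (Fin d → ZMod L) → ℝ,
    M = fun x ω A => if x ∈ A ∧ B ω A then 1 else 0 := ⟨_, rfl⟩
  obtain ⟨N, hN⟩ : ∃ N : (ℕ → Bool) → Finset (Fin d → ZMod L) → ℝ,
    N = fun ω A => if ¬ B ω A then 1 else 0 := ⟨_, rfl⟩
  have hSz : ∀ z, PE e n δ w (S z) ≤ (1 - w) * Λ := by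
    intro z
    rw [hS]
    refine res (Fin d → ZMod L) e n δ w Λ B (fun ω A => phz r A z) h0 h1
      hw0 hw1 hΛ hB ?_ ?_ (fun ω A hI hBA => hres ω A hI hBA z)
    · intro A ω ω' hωω
      rfl
    · intro ω A a ha
      exact phz_zero r _ z a ha
  have hS0 : ∀ z ω A, 0 ≤ S z ω A := by
    intro z ω A
    rw [hS]
    beta_reduce
    split_ifs
    · exact Finset.sum_nonneg fun x _ => sq_nonneg _
    · exact le_rfl
  have hM0 : ∀ x ω A, 0 ≤ M x ω A := by
    intro x ω A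
    rw [hM]
    beta_reduce
    split_ifs <;> norm_num
  have hpt : ∀ (ω : ℕ → Bool) (A : Finset (Fin d → ZMod L)), Inv (gp e ω n) A →
      Dv r (gp e ω n) ≤ 3 * (∑ z, S z ω A) + (24 * η' ^ 2 +
        (2 / (L : ℝ) ^ d * (∑ x, M x ω A) + 2 * N ω A)) := by
    intro ω A hA
    by_cases hBA : B ω A
    · have h2 := dva (gp e ω n) A A r η' hr hrL hA hη' (hsize ω A hBA)
      have h3 : N ω A = 0 := by rw [hN]; simp [hBA]
      have h4 : ∑ x, M x ω A = A.card := by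
        rw [hM]
        simp [hBA]
      have h5 : ∀ z, S z ω A = ∑ x ∈ univ \ A,
          ((∑ y ∈ cyc (gp e ω n) x, phz r A z y) /
            ((cyc (gp e ω n) x).card : ℝ)) ^ 2 := by
        intro z
        rw [hS]
        beta_reduce
        rw [if_pos hBA]
      simp only [h5]
      rw [h3, h4]
      refine h2.trans (le_of_eq ?_)
      ring
    · have h3 : N ω A = 1 := by rw [hN]; simp [hBA]
      rw [h3]
      have h4 := Dv_le r hr hrL (gp e ω n)
      have h5 : 0 ≤ ∑ z, S z ω A := Finset.sum_nonneg fun z _ => hS0 z ω A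
      have h6 : 0 ≤ ∑ x, M x ω A := Finset.sum_nonneg fun x _ => hM0 x ω A
      have h7 : 0 ≤ 2 / (L : ℝ) ^ d * ∑ x, M x ω A := by positivity
      have h8 : 0 ≤ η' ^ 2 := sq_nonneg _
      linarith
  rw [← p1 fun ω => Dv r (gp e ω n)]
  refine (p4 _ _ hpt).trans ?_
  have e1 : PE e n δ w (fun ω A => 3 * (∑ z, S z ω A) + (24 * η' ^ 2 +
        (2 / (L : ℝ) ^ d * (∑ x, M x ω A) + 2 * N ω A))) =
      3 * (∑ z, PE e n δ w (S z)) + (24 * η' ^ 2 +
        (2 / (L : ℝ) ^ d * (∑ x, PE e n δ w (M x)) + 2 * PE e n δ w N)) := by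
    rw [p2 (fun ω A => 3 * (∑ z, S z ω A)), p3 3 (fun ω A => ∑ z, S z ω A),
      PE_sum e n δ w h0 h1 hw0 hw1, p2 (fun _ _ => 24 * η' ^ 2), PE_const e n δ w h0 h1 hw0 hw1,
      p2 (fun ω A => 2 / (L : ℝ) ^ d * (∑ x, M x ω A)),
      p3 (2 / (L : ℝ) ^ d) (fun ω A => ∑ x, M x ω A), PE_sum e n δ w h0 h1 hw0 hw1, p3 2 N]
  rw [e1]
  have h2 : ∑ z, PE e n δ w (S z) ≤ (L : ℝ) ^ d * ((1 - w) * Λ) := by
    calc ∑ z, PE e n δ w (S z) ≤ ∑ _z : Fin d → ZMod L, (1 - w) * Λ :=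
          Finset.sum_le_sum fun z _ => hSz z
      _ = _ := by rw [Finset.sum_const, nsmul_eq_mul, cardV]
  have h3 : 2 / (L : ℝ) ^ d * (∑ x, PE e n δ w (M x)) ≤ 2 * κ := by
    have h4 : ∑ x, PE e n δ w (M x) ≤ (L : ℝ) ^ d * κ := by
      calc ∑ x, PE e n δ w (M x) ≤ ∑ _x : Fin d → ZMod L, κ := by
            refine Finset.sum_le_sum fun x _ => ?_
            refine le_trans (le_of_eq ?_) (hκ x)
            rw [← p5 (fun ω A => x ∈ A ∧ B ω A), hM]
            congr 1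
            funext ω A
            by_cases hx : x ∈ A ∧ B ω A
            · rw [if_pos hx]
              beta_reduce
              rw [if_pos hx]
            · rw [if_neg hx]
              beta_reduce
              rw [if_neg hx]
        _ = _ := by rw [Finset.sum_const, nsmul_eq_mul, cardV]
    calc 2 / (L : ℝ) ^ d * (∑ x, PE e n δ w (M x)) ≤ 2 / (L : ℝ) ^ d * ((L : ℝ) ^ d * κ) :=
          mul_le_mul_of_nonneg_left h4 (by positivity)
      _ = 2 * κ := by field_simp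
  have h5 : PE e n δ w N ≤ P := by
    refine le_trans (le_of_eq ?_) hP
    rw [← p5 (fun ω A => ¬ B ω A), hN]
    congr 1
    funext ω A
    by_cases hx : ¬ B ω A
    · rw [if_pos hx, if_pos hx]
    · rw [if_neg hx, if_neg hx]
  linarith

end core

end Pool.Agent.J6H44.P2
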