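import Pool.Agent.J6H44.P2.Stm
import Pool.Agent.Q187.LC.Nas
import Pool.Agent.Q53.LC.Poi

/-! Project P2: Poincaré inequality on the whole torus off a small set. -/

set_option autoImplicit false

namespace Pool.Agent.J6H44.P2

open Finset Equiv Matrix Q292.LC

theorem en_nonneg {d L : ℕ} [NeZero L] (r : ℕ) (Dm : Finset (Fin d → ZMod L))
    (f : (Fin d → ZMod L) → ℝ) : 0 ≤ en r Dm f := by
  unfold en
  refine Finset.sum_nonneg fun x _ => Finset.sum_nonneg fun y _ => ?_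
  split_ifs
  · exact sq_nonneg _
  · exact le_rfl

theorem card_cover2 {d L : ℕ} [NeZero L] (N : ℕ) (h : N ≤ L) (x y : Fin d → ZMod L) :
    2 * N ^ d ≤ (univ.filter fun z : Fin d → ZMod L => x ∈ box z N ∧ y ∈ box z N).card + L ^ d := by
  have h1 := Pool.Agent.Q187.LC.Nas.card_cover x N h
  have h2 := Pool.Agent.Q187.LC.Nas.card_cover y N h
  have h3 : (univ.filter fun z : Fin d → ZMod L => x ∈ box z N ∧ y ∈ box z N) =
      (univ.filter fun z : Fin d → ZMod L => x ∈ box z N) ∩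
      (univ.filter fun z : Fin d → ZMod L => y ∈ box z N) := by
    ext z
    simp
  have h4 := Finset.card_union_add_card_inter
    (univ.filter fun z : Fin d → ZMod L => x ∈ box z N)
    (univ.filter fun z : Fin d → ZMod L => y ∈ box z N)
  have h5 : ((univ.filter fun z : Fin d → ZMod L => x ∈ box z N) ∪
    (univ.filter fun z : Fin d → ZMod L => y ∈ box z N)).card ≤ L ^ d := by
    refine (Finset.card_le_univ _).trans ?_
    rw [Fintype.card_fun, Fintype.card_fin, ZMod.card]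
  rw [h3]
  omega

theorem gap_poi : ∀ d : ℕ, d = 2 → ∃ C : ℝ, 1 ≤ C ∧ ∀ (L : ℕ) [NeZero L] (r : ℕ), 1 ≤ r →
    8 * r ≤ L → ∀ Dm : Finset (Fin d → ZMod L), (∀ v, 2 * (Dm ∩ box v r).card ≤ r ^ d) →
    ∀ f : (Fin d → ZMod L) → ℝ, ∑ x, f x = 0 → ∑ x ∈ Dm, f x ^ 2 ≤ (∑ x, f x ^ 2) / 8 →
    ∑ x, f x ^ 2 ≤ C * (L : ℝ) ^ 2 * en r Dm f := by
  intro d hd
  obtain ⟨C, hC1, hC⟩ := Pool.Agent.Q53.LC.poi d (by omega)
  refine ⟨3 * C, by linarith, ?_⟩
  have edR : ∀ a : ℝ, a ^ d = a ^ 2 := fun a => by rw [hd]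
  have edN : ∀ a : ℕ, a ^ d = a ^ 2 := fun a => by rw [hd]
  have ed4 : ∀ a : ℝ, a ^ (d + 2) = a ^ 4 := fun a => by rw [hd]
  intro L _ r hr h8 Dm hD f hf hfD
  obtain ⟨M, hM⟩ : ∃ M, M = L / r := ⟨_, rfl⟩
  obtain ⟨N, hN⟩ : ∃ N, N = M * r := ⟨_, rfl⟩
  have hNL : N ≤ L := by rw [hN, hM]; exact Nat.div_mul_le_self L r
  have hM1 : 1 ≤ M := by
    rw [hM, Nat.one_le_div_iff (by omega)]
    omega
  have hLN : L < N + r := by
    rw [hN, hM]
    have := Nat.lt_div_mul_add (a := L) (b := r) (by omega)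
    omega
  have hN7 : 7 * L ≤ 8 * N := by omega
  have hL0 : (0 : ℝ) < L := by
    have : 0 < L := by omega
    exact_mod_cast this
  have hN7' : 7 * (L : ℝ) ≤ 8 * N := by exact_mod_cast hN7
  have hNL' : (N : ℝ) ≤ L := by exact_mod_cast hNL
  have hN0 : (0 : ℝ) < N := by linarith
  obtain ⟨F, hF⟩ : ∃ F, F = ∑ x, f x ^ 2 := ⟨_, rfl⟩
  obtain ⟨Q, hQ⟩ : ∃ Q, Q = univ \ Dm := ⟨_, rfl⟩
  have hF0 : 0 ≤ F := by rw [hF]; exact sum_nonneg fun x _ => sq_nonneg _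
  -- the number of points of `Q`
  have hcQ : (L : ℝ) ^ 2 ≤ 2 * (Q.card : ℝ) := by
    have h1 := Pool.Agent.Q187.LC.Nas.sum_cover N hNL Dm (fun _ => (1 : ℝ))
    simp only [sum_const, nsmul_eq_mul, mul_one] at h1
    have h2 : ∀ z : Fin d → ZMod L, (N : ℝ) ^ d ≤ 2 * ((box z N \ Dm).card : ℝ) := by
      intro z
      rw [hN]
      exact Pool.Agent.J6H44.PL.card_good r M hr (by rw [← hN]; exact hNL) Dm hD z
    have h3 : ∑ _z : Fin d → ZMod L, (N : ℝ) ^ d ≤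
        ∑ z : Fin d → ZMod L, 2 * ((box z N \ Dm).card : ℝ) := sum_le_sum fun z _ => h2 z
    rw [← mul_sum, h1, sum_const, card_univ, Fintype.card_fun, Fintype.card_fin, ZMod.card,
      nsmul_eq_mul] at h3
    push_cast at h3
    rw [← hQ] at h3
    have h4 : (0 : ℝ) < (N : ℝ) ^ d := by positivity
    have h5 : (L : ℝ) ^ d * (N : ℝ) ^ d ≤ (2 * (Q.card : ℝ)) * (N : ℝ) ^ d := by linarith
    have h6 := le_of_mul_le_mul_right h5 h4
    rw [edR] at h6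
    exact h6
  have hcD : (Dm.card : ℝ) + (Q.card : ℝ) = (L : ℝ) ^ 2 := by
    have h1 : Dm.card + Q.card = L ^ d := by
      rw [hQ, card_sdiff, inter_univ, card_univ, Fintype.card_fun, Fintype.card_fin, ZMod.card]
      have : Dm.card ≤ L ^ d := by
        refine (Finset.card_le_univ _).trans ?_
        rw [Fintype.card_fun, Fintype.card_fin, ZMod.card]
      omega
    rw [edN] at h1
    exact_mod_cast h1
  -- split of the sums
  have hs1 : ∑ x ∈ Dm, f x ^ 2 + ∑ x ∈ Q, f x ^ 2 = F := by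
    rw [hF, hQ, add_comm]
    exact sum_sdiff (subset_univ Dm)
  have hs2 : ∑ x ∈ Dm, f x + ∑ x ∈ Q, f x = 0 := by
    rw [← hf, hQ, add_comm]
    exact sum_sdiff (subset_univ Dm)
  have hmean : (∑ x ∈ Q, f x) ^ 2 ≤ (Dm.card : ℝ) * (F / 8) := by
    have h1 : (∑ x ∈ Q, f x) ^ 2 = (∑ x ∈ Dm, f x) ^ 2 := by
      have : ∑ x ∈ Q, f x = -∑ x ∈ Dm, f x := by linarith
      rw [this]
      ring
    rw [h1]
    refine (sq_sum_le_card_mul_sum_sq (s := Dm) (f := f)).trans ?_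
    exact mul_le_mul_of_nonneg_left (by rw [hF]; exact hfD) (Nat.cast_nonneg _)
  -- the Poincaré inequality on the boxes, summed over the boxes
  have hpair : ∀ g : (Fin d → ZMod L) → (Fin d → ZMod L) → ℝ,
      ∑ z : Fin d → ZMod L, ∑ x ∈ box z N \ Dm, ∑ y ∈ box z N \ Dm, g x y =
      ∑ x ∈ Q, ∑ y ∈ Q,
        ((univ.filter fun z : Fin d → ZMod L => x ∈ box z N ∧ y ∈ box z N).card : ℝ) * g x y := by
    intro g
    have h1 : ∀ z : Fin d → ZMod L, ∑ x ∈ box z N \ Dm, ∑ y ∈ box z N \ Dm, g x y =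
        ∑ x ∈ Q, ∑ y ∈ Q, if x ∈ box z N ∧ y ∈ box z N then g x y else 0 := by
      intro z
      have e1 : ∀ h : (Fin d → ZMod L) → ℝ, ∑ x ∈ box z N \ Dm, h x =
          ∑ x ∈ Q, if x ∈ box z N then h x else 0 := by
        intro h
        rw [← sum_filter]
        congr 1
        ext x
        rw [hQ, mem_sdiff, mem_filter, mem_sdiff]
        simp only [mem_univ, true_and]
        tauto
      rw [e1]
      refine sum_congr rfl fun x _ => ?_
      by_cases hx : x ∈ box z N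
      · rw [if_pos hx, e1]
        refine sum_congr rfl fun y _ => ?_
        simp [hx]
      · rw [if_neg hx]
        symm
        refine sum_eq_zero fun y _ => ?_
        simp [hx]
    simp only [h1]
    rw [sum_comm]
    refine sum_congr rfl fun x _ => ?_
    rw [sum_comm]
    refine sum_congr rfl fun y _ => ?_
    rw [← sum_filter, sum_const, nsmul_eq_mul]
  have hlow : (L : ℝ) ^ 2 / 2 * ∑ x ∈ Q, ∑ y ∈ Q, (f x - f y) ^ 2 ≤
      ∑ z : Fin d → ZMod L, ∑ x ∈ box z N \ Dm, ∑ y ∈ box z N \ Dm, (f x - f y) ^ 2 := by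
    rw [hpair fun x y => (f x - f y) ^ 2, mul_sum]
    refine sum_le_sum fun x _ => ?_
    rw [mul_sum]
    refine sum_le_sum fun y _ => mul_le_mul_of_nonneg_right ?_ (sq_nonneg _)
    have h1 := card_cover2 N hNL x y
    have h2 : 2 * (N : ℝ) ^ d ≤
        ((univ.filter fun z : Fin d → ZMod L => x ∈ box z N ∧ y ∈ box z N).card : ℝ) +
          (L : ℝ) ^ d := by exact_mod_cast h1
    have h3 : (3 / 4) * (L : ℝ) ^ 2 ≤ (N : ℝ) ^ 2 := by nlinarith
    have e : (N : ℝ) ^ d = (N : ℝ) ^ 2 := by rw [hd]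
    have e' : (L : ℝ) ^ d = (L : ℝ) ^ 2 := by rw [hd]
    rw [e, e'] at h2
    linarith
  have hup : ∑ z : Fin d → ZMod L, ∑ x ∈ box z N \ Dm, ∑ y ∈ box z N \ Dm,
      (if td x y ≤ 2 * d * r then (f x - f y) ^ 2 else 0) ≤ (L : ℝ) ^ 2 * en r Dm f := by
    rw [hpair fun x y => if td x y ≤ 2 * d * r then (f x - f y) ^ 2 else 0]
    unfold en
    rw [mul_sum]
    have h1 : ∀ x ∈ Q, ∀ y ∈ Q,
        ((univ.filter fun z : Fin d → ZMod L => x ∈ box z N ∧ y ∈ box z N).card : ℝ) *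
        (if td x y ≤ 2 * d * r then (f x - f y) ^ 2 else 0) ≤
        (L : ℝ) ^ 2 * (if x ∉ Dm ∧ y ∉ Dm ∧ td x y ≤ 2 * d * r then (f x - f y) ^ 2 else 0) := by
      intro x hx y hy
      rw [hQ, mem_sdiff] at hx hy
      have h2 : ((univ.filter fun z : Fin d → ZMod L => x ∈ box z N ∧ y ∈ box z N).card : ℝ) ≤
          (L : ℝ) ^ 2 := by
        have h3 : (univ.filter fun z : Fin d → ZMod L => x ∈ box z N ∧ y ∈ box z N).card ≤
            L ^ d := by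
          refine (Finset.card_le_univ _).trans ?_
          rw [Fintype.card_fun, Fintype.card_fin, ZMod.card]
        rw [edN] at h3
        exact_mod_cast h3
      by_cases ht : td x y ≤ 2 * d * r
      · rw [if_pos ht, if_pos ⟨hx.2, hy.2, ht⟩]
        exact mul_le_mul_of_nonneg_right h2 (sq_nonneg _)
      · rw [if_neg ht, if_neg (by tauto)]
        simp
    have h0 : ∀ x y, 0 ≤ (L : ℝ) ^ 2 *
        (if x ∉ Dm ∧ y ∉ Dm ∧ td x y ≤ 2 * d * r then (f x - f y) ^ 2 else 0) := by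
      intro x y
      refine mul_nonneg (sq_nonneg _) ?_
      split_ifs
      · exact sq_nonneg _
      · exact le_rfl
    calc _ ≤ ∑ x ∈ Q, ∑ y ∈ Q, (L : ℝ) ^ 2 *
          (if x ∉ Dm ∧ y ∉ Dm ∧ td x y ≤ 2 * d * r then (f x - f y) ^ 2 else 0) :=
          sum_le_sum fun x hx => sum_le_sum fun y hy => h1 x hx y hy
      _ ≤ ∑ x ∈ Q, ∑ y, (L : ℝ) ^ 2 *
          (if x ∉ Dm ∧ y ∉ Dm ∧ td x y ≤ 2 * d * r then (f x - f y) ^ 2 else 0) :=
          sum_le_sum fun x _ => sum_le_sum_of_subset_of_nonneg (subset_univ _) fun y _ _ => h0 x y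
      _ ≤ ∑ x, ∑ y, (L : ℝ) ^ 2 *
          (if x ∉ Dm ∧ y ∉ Dm ∧ td x y ≤ 2 * d * r then (f x - f y) ^ 2 else 0) :=
          sum_le_sum_of_subset_of_nonneg (subset_univ _) fun x _ _ => sum_nonneg fun y _ => h0 x y
      _ = _ := by
          refine sum_congr rfl fun x _ => ?_
          rw [mul_sum]
  have hbox : ∑ z : Fin d → ZMod L, ∑ x ∈ box z N \ Dm, ∑ y ∈ box z N \ Dm, (f x - f y) ^ 2 ≤
      C * (M : ℝ) ^ 4 * ((L : ℝ) ^ 2 * en r Dm f) := by
    calc _ ≤ ∑ z : Fin d → ZMod L, C * (M : ℝ) ^ (d + 2) *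
          ∑ x ∈ box z N \ Dm, ∑ y ∈ box z N \ Dm,
            (if td x y ≤ 2 * d * r then (f x - f y) ^ 2 else 0) := by
          refine sum_le_sum fun z _ => ?_
          have := hC L r M hr hM1 (by rw [← hN]; exact hNL) z Dm hD f
          rw [← hN] at this
          exact this
      _ = C * (M : ℝ) ^ (d + 2) * ∑ z : Fin d → ZMod L,
          ∑ x ∈ box z N \ Dm, ∑ y ∈ box z N \ Dm,
            (if td x y ≤ 2 * d * r then (f x - f y) ^ 2 else 0) := by rw [mul_sum]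
      _ ≤ C * (M : ℝ) ^ (d + 2) * ((L : ℝ) ^ 2 * en r Dm f) :=
          mul_le_mul_of_nonneg_left hup (by positivity)
      _ = _ := by rw [ed4]
  have hvar := Pool.Agent.Q187.LC.Nas.var_id Q f
  have hmain : (L : ℝ) ^ 2 / 2 * ∑ x ∈ Q, ∑ y ∈ Q, (f x - f y) ^ 2 ≤
      C * (M : ℝ) ^ 4 * ((L : ℝ) ^ 2 * en r Dm f) := hlow.trans hbox
  have hL2 : (0 : ℝ) < (L : ℝ) ^ 2 := by positivity
  have hV : ∑ x ∈ Q, ∑ y ∈ Q, (f x - f y) ^ 2 ≤ 2 * (C * (M : ℝ) ^ 4 * en r Dm f) := by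
    have h1 : (L : ℝ) ^ 2 * ∑ x ∈ Q, ∑ y ∈ Q, (f x - f y) ^ 2 ≤
        (L : ℝ) ^ 2 * (2 * (C * (M : ℝ) ^ 4 * en r Dm f)) := by linarith
    exact le_of_mul_le_mul_left h1 hL2
  have hEn := en_nonneg r Dm f
  have hQf : 7 / 8 * F ≤ ∑ x ∈ Q, f x ^ 2 := by
    rw [← hF] at hfD
    linarith
  have h1 : (L : ℝ) ^ 2 / 2 * (7 / 8 * F) ≤ (Q.card : ℝ) * ∑ x ∈ Q, f x ^ 2 :=
    mul_le_mul (by linarith) hQf (by positivity) (Nat.cast_nonneg _)
  have h2 : (Dm.card : ℝ) * (F / 8) ≤ (L : ℝ) ^ 2 / 2 * (F / 8) :=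
    mul_le_mul_of_nonneg_right (by linarith) (by positivity)
  have h3 : (3 / 8) * (L : ℝ) ^ 2 * F ≤ C * (M : ℝ) ^ 4 * en r Dm f := by linarith
  have hML : (M : ℝ) ≤ L := by
    have : M ≤ L := by rw [hM]; exact Nat.div_le_self _ _
    exact_mod_cast this
  have h4 : (M : ℝ) ^ 4 ≤ (L : ℝ) ^ 4 := pow_le_pow_left₀ (Nat.cast_nonneg _) hML 4
  have h5 : C * (M : ℝ) ^ 4 * en r Dm f ≤ C * (L : ℝ) ^ 4 * en r Dm f :=
    mul_le_mul_of_nonneg_right (mul_le_mul_of_nonneg_left h4 (by linarith)) hEn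
  have h6 : (L : ℝ) ^ 2 * ((3 / 8) * F) ≤ (L : ℝ) ^ 2 * (C * (L : ℝ) ^ 2 * en r Dm f) := by
    calc (L : ℝ) ^ 2 * ((3 / 8) * F) = (3 / 8) * (L : ℝ) ^ 2 * F := by ring
      _ ≤ _ := h3
      _ ≤ _ := h5
      _ = _ := by ring
  have h7 := le_of_mul_le_mul_left h6 hL2
  rw [← hF]
  have h8 : 0 ≤ C * (L : ℝ) ^ 2 * en r Dm f := by
    have : 0 ≤ C := by linarith
    positivity
  linarith

end Pool.Agent.J6H44.P2
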