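import Pool.Agent.J6H44.P2.Stm
import Pool.Agent.Q257.LC.KerU

/-! Project P2: abstract part of `S_LAM2`. -/

set_option autoImplicit false

namespace Pool.Agent.J6H44.P2

open Finset Equiv Matrix Q292.LC
open Pool.Agent.Q257.LC (row_bound pow_right)

section abs

variable {V : Type} [Fintype V] [DecidableEq V]

theorem vecMul_pow_succ (T : Matrix V V ℝ) (φ : V → ℝ) (i : ℕ) :
    vecMul φ (T ^ (i + 1)) = vecMul (vecMul φ (T ^ i)) T := by
  rw [pow_succ, Matrix.vecMul_vecMul]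

theorem pow_zero_off (T : Matrix V V ℝ) (A : Finset V) (hA : ∀ x, x ∉ A → ∀ y ∈ A, T x y = 0)
    (i : ℕ) : ∀ x, x ∉ A → ∀ y ∈ A, (T ^ i) x y = 0 := by
  induction i with
  | zero =>
    intro x hx y hy
    rw [pow_zero, Matrix.one_apply_ne]
    rintro rfl
    exact hx hy
  | succ i ih =>
    intro x hx y hy
    rw [pow_succ, Matrix.mul_apply]
    refine sum_eq_zero fun c _ => ?_
    by_cases hc : c ∈ A
    · rw [ih x hx c hc, zero_mul]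
    · rw [hA c hc y hy, mul_zero]

theorem vecMul_zero_off (T : Matrix V V ℝ) (A : Finset V) (hA : ∀ x, x ∉ A → ∀ y ∈ A, T x y = 0)
    (φ : V → ℝ) (hφ : ∀ a ∈ A, φ a = 0) (i : ℕ) : ∀ a ∈ A, vecMul φ (T ^ i) a = 0 := by
  intro a ha
  refine sum_eq_zero fun x _ => ?_
  by_cases hx : x ∈ A
  · rw [hφ x hx, zero_mul]
  · beta_reduce
    rw [pow_zero_off T A hA i x hx a ha, mul_zero]

theorem row_pow (T : Matrix V V ℝ) (A : Finset V) (hA : ∀ x, x ∉ A → ∀ y ∈ A, T x y = 0)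
    (i : ℕ) : ∀ x, x ∉ A → ∀ z, (T * (dg (univ \ A) * T) ^ i) x z = (T ^ (i + 1)) x z := by
  induction i with
  | zero =>
    intro x _ z
    simp
  | succ i ih =>
    intro x hx z
    rw [pow_right, pow_succ T (i + 1), Matrix.mul_apply]
    refine sum_congr rfl fun c _ => ?_
    by_cases hc : c ∈ A
    · rw [if_neg (by simp [hc]), pow_zero_off T A hA (i + 1) x hx c hc]
    · rw [if_pos (by simp [hc]), ih x hx c]

theorem vecMul_sum (T : Matrix V V ℝ) (hrow : ∀ x, ∑ y, T x y = 1) (φ : V → ℝ) (i : ℕ) :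
    ∑ x, vecMul φ (T ^ i) x = ∑ x, φ x := by
  induction i with
  | zero => simp
  | succ i ih =>
    rw [vecMul_pow_succ, Pool.Agent.Q257.LC.sum_vecMul _ _ hrow, ih]

/-- Jensen for a signed measure with total mass at most `2` -/
theorem sq_mix (φ : V → ℝ) (t : V → V → ℝ) (B : ℝ) (hφ : ∑ x, |φ x| ≤ 2)
    (hB : ∀ x, φ x ≠ 0 → ∑ z, t x z ^ 2 ≤ B) (hB0 : 0 ≤ B) :
    ∑ z, (∑ x, φ x * t x z) ^ 2 ≤ 4 * B := by
  have h1 : ∀ z, (∑ x, φ x * t x z) ^ 2 ≤ (∑ x, |φ x|) * ∑ x, |φ x| * t x z ^ 2 := by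
    intro z
    have h2 := Finset.sum_mul_sq_le_sq_mul_sq univ (fun x => Real.sqrt |φ x|)
      (fun x => Real.sqrt |φ x| * |t x z|)
    have e1 : ∀ x, Real.sqrt |φ x| ^ 2 = |φ x| := fun x => Real.sq_sqrt (abs_nonneg _)
    have e2 : ∀ x, (Real.sqrt |φ x| * |t x z|) ^ 2 = |φ x| * t x z ^ 2 := by
      intro x
      rw [mul_pow, e1, sq_abs]
    have e3 : ∀ x, Real.sqrt |φ x| * (Real.sqrt |φ x| * |t x z|) = |φ x * t x z| := by
      intro x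
      rw [← mul_assoc, ← sq, e1, abs_mul]
    simp only [e1, e2, e3] at h2
    refine le_trans ?_ h2
    rw [← sq_abs]
    exact pow_le_pow_left₀ (abs_nonneg _) (abs_sum_le_sum_abs _ _) 2
  have h0 : 0 ≤ ∑ x, |φ x| := sum_nonneg fun x _ => abs_nonneg _
  calc ∑ z, (∑ x, φ x * t x z) ^ 2 ≤ ∑ z, (∑ x, |φ x|) * ∑ x, |φ x| * t x z ^ 2 :=
        sum_le_sum fun z _ => h1 z
    _ = (∑ x, |φ x|) * ∑ x, |φ x| * ∑ z, t x z ^ 2 := by
        rw [← mul_sum, sum_comm]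
        congr 1
        exact sum_congr rfl fun x _ => by rw [mul_sum]
    _ ≤ (∑ x, |φ x|) * ∑ x, |φ x| * B := by
        refine mul_le_mul_of_nonneg_left (sum_le_sum fun x _ => ?_) h0
        by_cases hx : φ x = 0
        · simp [hx]
        · exact mul_le_mul_of_nonneg_left (hB x hx) (abs_nonneg _)
    _ = (∑ x, |φ x|) ^ 2 * B := by
        rw [← sum_mul]
        ring
    _ ≤ 4 * B := by
        refine mul_le_mul_of_nonneg_right ?_ hB0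
        nlinarith

/-- polynomial decay -/
theorem decay_pol (T : Matrix V V ℝ) (hT0 : ∀ x y, 0 ≤ T x y) (hrow : ∀ x, ∑ y, T x y = 1)
    (hcol : ∀ y, ∑ x, T x y = 1) (A : Finset V) (hA : ∀ x, x ∉ A → ∀ y ∈ A, T x y = 0)
    (d : ℕ) (hd : d = 2) (m0 κ : ℝ) (hκ : 0 < κ) (hm0 : 0 ≤ m0)
    (hLap : ∀ f : V → ℝ, (∀ x, 0 ≤ f x) → (∀ x ∈ A, f x = 0) → ∑ x, f x ≤ 1 →
      ∑ x, (vecMul f T x) ^ 2 ≤
        max m0 (((∑ x, (f x) ^ 2) ^ (-(2 / d : ℝ)) + κ) ^ (-(d / 2 : ℝ))))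
    (φ : V → ℝ) (hφ : ∀ a ∈ A, φ a = 0) (hφ1 : ∑ x, |φ x| ≤ 2) (i : ℕ) :
    ∑ z, (vecMul φ (T ^ (i + 1)) z) ^ 2 ≤ 4 * (m0 + 1 / (((i : ℝ) + 1) * κ)) := by
  have h1 : ∀ z, vecMul φ (T ^ (i + 1)) z = ∑ x, φ x * (T ^ (i + 1)) x z := fun z => rfl
  simp only [h1]
  refine sq_mix φ (fun x z => (T ^ (i + 1)) x z) _ hφ1 ?_ (by positivity)
  intro x hx
  have hxA : x ∉ A := fun h => hx (hφ x h)
  have h2 := (row_bound T hT0 (fun x => (hrow x).le) (fun y => (hcol y).le) A (univ \ A)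
    sdiff_disjoint d (by omega) m0 κ hκ hm0 hLap x hxA i).2.2
  simp only [row_pow T A hA i x hxA] at h2
  refine h2.trans (max_le ?_ ?_)
  · have : 0 ≤ 1 / (((i : ℝ) + 1) * κ) := by positivity
    linarith
  · have e1 : ((((i : ℝ) + 1) * κ) ^ (-(d / 2 : ℝ))) = 1 / (((i : ℝ) + 1) * κ) := by
      rw [hd]
      norm_num
      rw [Real.rpow_neg_one]
      field_simp
    rw [e1]
    linarith

/-- the sum of the square norms -/
theorem sum_D (D : ℕ → ℝ) (hD0 : ∀ i, 0 ≤ D i) (γ m0 κ : ℝ) (hγ : 0 < γ) (hκ : 0 < κ)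
    (h1 : ∀ i, (1 + γ) * D (i + 1) ≤ D i)
    (h2 : ∀ i : ℕ, D (i + 1) ≤ 4 * (m0 + 1 / (((i : ℝ) + 1) * κ))) (i₀ : ℕ) (hi₀ : 1 ≤ i₀)
    (n : ℕ) :
    ∑ i ∈ range n, D (i + 1) ≤ 4 * i₀ * m0 + 4 / κ * (1 + Real.log i₀) +
      4 * (m0 + 1 / (i₀ * κ)) / γ := by
  have h3 : ∑ i ∈ range i₀, D (i + 1) ≤ 4 * i₀ * m0 + 4 / κ * (1 + Real.log i₀) := by
    have hh := harmonic_le_one_add_log i₀
    have hh2 : ((harmonic i₀ : ℚ) : ℝ) = ∑ i ∈ range i₀, 1 / ((i : ℝ) + 1) := by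
      unfold harmonic
      push_cast
      exact sum_congr rfl fun i _ => by rw [one_div]
    rw [hh2] at hh
    calc ∑ i ∈ range i₀, D (i + 1) ≤ ∑ i ∈ range i₀, (4 * m0 + 4 / κ * (1 / ((i : ℝ) + 1))) := by
          refine sum_le_sum fun i _ => (h2 i).trans (le_of_eq ?_)
          have : (i : ℝ) + 1 ≠ 0 := by positivity
          field_simp
      _ = 4 * i₀ * m0 + 4 / κ * ∑ i ∈ range i₀, 1 / ((i : ℝ) + 1) := by
          rw [sum_add_distrib, sum_const, card_range, nsmul_eq_mul, ← mul_sum]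
          ring
      _ ≤ _ := by
          have : 0 ≤ 4 / κ := by positivity
          have := mul_le_mul_of_nonneg_left hh this
          linarith
  have h4 : D i₀ ≤ 4 * (m0 + 1 / (i₀ * κ)) := by
    obtain ⟨j, rfl⟩ : ∃ j, i₀ = j + 1 := ⟨i₀ - 1, by omega⟩
    have := h2 j
    push_cast
    exact this
  have h5 : ∀ j, γ * ∑ i ∈ range j, D (i₀ + i + 1) ≤ D i₀ - D (i₀ + j) := by
    intro j
    induction j with
    | zero => simp
    | succ j ih =>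
      rw [sum_range_succ, mul_add]
      have h6 := h1 (i₀ + j)
      rw [← add_assoc]
      linarith
  have h6 : ∑ i ∈ range n, D (i + 1) ≤ ∑ i ∈ range i₀, D (i + 1) + D i₀ / γ := by
    rcases le_or_gt n i₀ with hn | hn
    · have h7 : ∑ i ∈ range n, D (i + 1) ≤ ∑ i ∈ range i₀, D (i + 1) :=
        sum_le_sum_of_subset_of_nonneg (range_subset_range.2 hn) fun i _ _ => hD0 _
      have : 0 ≤ D i₀ / γ := div_nonneg (hD0 _) hγ.le
      linarith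
    · obtain ⟨j, rfl⟩ : ∃ j, n = i₀ + j := ⟨n - i₀, by omega⟩
      rw [sum_range_add]
      have h7 := h5 j
      have h8 : ∑ i ∈ range j, D (i₀ + i + 1) ≤ D i₀ / γ := by
        rw [le_div_iff₀ hγ]
        have := hD0 (i₀ + j)
        linarith
      linarith
  have h7 : D i₀ / γ ≤ 4 * (m0 + 1 / (i₀ * κ)) / γ := div_le_div_of_nonneg_right h4 hγ.le
  linarith

/-- the partial sums of the Neumann series -/
theorem partial_sum (T : Matrix V V ℝ) (φ : V → ℝ) (w : ℝ) (hw0 : 0 ≤ w) (hw1 : w ≤ 1) (n : ℕ) :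
    ∑ k ∈ range (2 * n + 1), w ^ k * (φ ⬝ᵥ ((T ^ k) *ᵥ φ)) ≤
      ∑ x, φ x ^ 2 + (∑ x, φ x ^ 2 - ∑ x, (vecMul φ (T ^ n) x) ^ 2) / 2 +
      ∑ i ∈ range n, (∑ x, (vecMul φ (T ^ (i + 1)) x) ^ 2 +
        ∑ x, (vecMul φ (Tᵀ ^ (i + 1)) x) ^ 2) := by
  have hc : ∀ i j, φ ⬝ᵥ ((T ^ (i + j)) *ᵥ φ) ≤ (∑ x, (vecMul φ (T ^ i) x) ^ 2 +
      ∑ x, (vecMul φ (Tᵀ ^ j) x) ^ 2) / 2 := by
    intro i j
    have e1 : φ ⬝ᵥ ((T ^ (i + j)) *ᵥ φ) = vecMul φ (T ^ i) ⬝ᵥ vecMul φ (Tᵀ ^ j) := by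
      rw [pow_add, ← Matrix.mulVec_mulVec, Matrix.dotProduct_mulVec, ← Matrix.transpose_pow,
        Matrix.vecMul_transpose]
    rw [e1, ← sum_add_distrib]
    have e2 : vecMul φ (T ^ i) ⬝ᵥ vecMul φ (Tᵀ ^ j) =
      ∑ x, vecMul φ (T ^ i) x * vecMul φ (Tᵀ ^ j) x := rfl
    rw [e2, sum_div]
    refine sum_le_sum fun x _ => ?_
    nlinarith [sq_nonneg (vecMul φ (T ^ i) x - vecMul φ (Tᵀ ^ j) x)]
  have hw : ∀ k c B : ℝ, ∀ m : ℕ, 0 ≤ B → c ≤ B → w ^ m * c ≤ B := by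
    intro k c B m hB hcB
    have h1 : w ^ m ≤ 1 := pow_le_one₀ hw0 hw1
    have h2 : 0 ≤ w ^ m := pow_nonneg hw0 _
    calc w ^ m * c ≤ w ^ m * B := mul_le_mul_of_nonneg_left hcB h2
      _ ≤ 1 * B := mul_le_mul_of_nonneg_right h1 hB
      _ = B := one_mul B
  induction n with
  | zero =>
    simp only [Nat.mul_zero, zero_add, sum_range_one, pow_zero, one_mul, Matrix.one_mulVec,
      Matrix.vecMul_one, sub_self, zero_div, range_zero, sum_empty, add_zero]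
    refine le_of_eq ?_
    exact sum_congr rfl fun x _ => by ring
  | succ n ih =>
    have e1 : 2 * (n + 1) + 1 = 2 * n + 1 + 1 + 1 := by ring
    rw [e1, sum_range_succ, sum_range_succ, sum_range_succ (n := n)]
    have hpos : ∀ i j : ℕ, 0 ≤ (∑ x, (vecMul φ (T ^ i) x) ^ 2 +
      ∑ x, (vecMul φ (Tᵀ ^ j) x) ^ 2) / 2 := by
      intro i j
      have h1 : 0 ≤ ∑ x, (vecMul φ (T ^ i) x) ^ 2 := sum_nonneg fun _ _ => sq_nonneg _
      have h2 : 0 ≤ ∑ x, (vecMul φ (Tᵀ ^ j) x) ^ 2 := sum_nonneg fun _ _ => sq_nonneg _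
      linarith
    have h1 := hc n (n + 1)
    have h2 := hc (n + 1) (n + 1)
    rw [show n + (n + 1) = 2 * n + 1 by ring] at h1
    rw [show n + 1 + (n + 1) = 2 * n + 1 + 1 by ring] at h2
    have h3 := hw 0 _ _ (2 * n + 1) (hpos n (n + 1)) h1
    have h4 := hw 0 _ _ (2 * n + 1 + 1) (hpos (n + 1) (n + 1)) h2
    linarith

/-- the resolvent form as limit of the partial sums -/
theorem res_lim (T : Matrix V V ℝ) (A : Finset V)
    (hA2 : ∀ x ∈ A, ∀ y, y ∉ A → T x y = 0) (φ : V → ℝ) (w : ℝ) (hw0 : 0 ≤ w) (hw1 : w < 1)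
    (hdet : (1 - w • (dg (univ \ A) * T)).det ≠ 0) (hφ : ∀ a ∈ A, φ a = 0)
    (hD : ∀ i, ∑ x, (vecMul φ (T ^ i) x) ^ 2 ≤ ∑ x, φ x ^ 2) (B : ℝ)
    (hB : ∀ n, ∑ k ∈ range (2 * n + 1), w ^ k * (φ ⬝ᵥ ((T ^ k) *ᵥ φ)) ≤ B) :
    φ ⬝ᵥ ((1 - w • (dg (univ \ A) * T))⁻¹ *ᵥ φ) ≤ B := by
  obtain ⟨v, hv⟩ : ∃ v : V → ℝ, v = (1 - w • (dg (univ \ A) * T))⁻¹ *ᵥ φ := ⟨_, rfl⟩
  have hsol : ∀ x, v x - w * (if x ∈ univ \ A then (T *ᵥ v) x else 0) = φ x := by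
    intro x
    have h := Pool.Agent.J6H44.PL.sol_eq hdet φ
    rw [← hv] at h
    rw [← Pool.Agent.J6H44.PL.dg_mulVec, h]
  have hvA : ∀ x ∈ A, v x = 0 := by
    intro x hx
    have h := hsol x
    rw [if_neg (by simp [hx]), hφ x hx] at h
    linarith
  have hv1 : v = φ + w • (T *ᵥ v) := by
    funext x
    rw [Pi.add_apply, Pi.smul_apply, smul_eq_mul]
    by_cases hx : x ∈ A
    · have h1 : (T *ᵥ v) x = 0 := by
        refine sum_eq_zero fun y _ => ?_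
        by_cases hy : y ∈ A
        · rw [hvA y hy, mul_zero]
        · beta_reduce
          rw [hA2 x hx y hy, zero_mul]
      rw [hvA x hx, hφ x hx, h1]
      ring
    · have h := hsol x
      rw [if_pos (by simp [hx])] at h
      linarith
  have hser : ∀ N, φ ⬝ᵥ v = ∑ k ∈ range N, w ^ k * (φ ⬝ᵥ ((T ^ k) *ᵥ φ)) +
      w ^ N * (φ ⬝ᵥ ((T ^ N) *ᵥ v)) := by
    intro N
    induction N with
    | zero => simp
    | succ N ih =>
      rw [sum_range_succ, ih]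
      have e1 : (T ^ N) *ᵥ v = (T ^ N) *ᵥ φ + w • ((T ^ (N + 1)) *ᵥ v) := by
        conv_lhs => rw [hv1]
        rw [Matrix.mulVec_add, Matrix.mulVec_smul, Matrix.mulVec_mulVec, ← pow_succ]
      rw [e1, dotProduct_add, dotProduct_smul, smul_eq_mul]
      ring
  have hrem : ∀ N, φ ⬝ᵥ ((T ^ N) *ᵥ v) ≤ ∑ x, φ x ^ 2 + ∑ x, v x ^ 2 := by
    intro N
    rw [Matrix.dotProduct_mulVec]
    have e2 : vecMul φ (T ^ N) ⬝ᵥ v = ∑ x, vecMul φ (T ^ N) x * v x := rfl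
    rw [e2]
    have h1 : ∑ x, vecMul φ (T ^ N) x * v x ≤ ∑ x, (vecMul φ (T ^ N) x ^ 2 + v x ^ 2) := by
      refine sum_le_sum fun x _ => ?_
      have a1 := sq_nonneg (vecMul φ (T ^ N) x - v x)
      have a2 := sq_nonneg (vecMul φ (T ^ N) x)
      have a3 := sq_nonneg (v x)
      nlinarith
    rw [sum_add_distrib] at h1
    linarith [hD N]
  obtain ⟨c, hc⟩ : ∃ c : ℝ, c = ∑ x, φ x ^ 2 + ∑ x, v x ^ 2 := ⟨_, rfl⟩
  have hbound : ∀ n : ℕ, φ ⬝ᵥ v ≤ B + w ^ (2 * n + 1) * c := by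
    intro n
    rw [hser (2 * n + 1)]
    refine add_le_add (hB n) (mul_le_mul_of_nonneg_left ?_ (pow_nonneg hw0 _))
    rw [hc]
    exact hrem _
  rw [← hv]
  have hlim : Filter.Tendsto (fun n : ℕ => B + w ^ (2 * n + 1) * c) Filter.atTop
      (nhds (B + 0 * c)) := by
    refine tendsto_const_nhds.add (Filter.Tendsto.mul_const c ?_)
    have h1 := tendsto_pow_atTop_nhds_zero_of_lt_one hw0 hw1
    refine h1.comp ?_
    refine Filter.tendsto_atTop_mono (fun n => ?_) Filter.tendsto_id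
    simp only [id]
    omega
  rw [zero_mul, add_zero] at hlim
  exact ge_of_tendsto' hlim hbound

end abs

end Pool.Agent.J6H44.P2
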