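import Pool.Agent.J6H44.P2.LapB
import Pool.Agent.Q229.LC.Seq

/-! Project P2: decay in the plane, `S_LAP2`. -/

set_option autoImplicit false

namespace Pool.Agent.J6H44.P2

open Finset Equiv Matrix Q292.LC

theorem lap_sm (Z : ℝ) (hZ : 64 ≤ Z) :
    Real.sqrt ((3 * Z ^ 2) ^ 2 * (20 / Real.sqrt (Z ^ 16))) + Real.exp (-(Z ^ 16)) ≤ 1 / 32 := by
  have hZ0 : 0 < Z := by linarith
  have e1 : Real.sqrt (Z ^ 16) = Z ^ 8 := by
    rw [show Z ^ 16 = (Z ^ 8) ^ 2 by ring]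
    exact Real.sqrt_sq (by positivity)
  have h64 : (64 : ℝ) ^ 4 ≤ Z ^ 4 := pow_le_pow_left₀ (by norm_num) hZ 4
  have h1 : (3 * Z ^ 2) ^ 2 * (20 / Z ^ 8) ≤ (1 / 64) ^ 2 := by
    have : (3 * Z ^ 2) ^ 2 * (20 / Z ^ 8) = 180 / Z ^ 4 := by
      field_simp
      ring
    rw [this, div_le_iff₀ (by positivity)]
    norm_num at h64 ⊢
    linarith
  have h2 : Real.sqrt ((3 * Z ^ 2) ^ 2 * (20 / Real.sqrt (Z ^ 16))) ≤ 1 / 64 := by
    rw [e1]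
    exact Real.sqrt_le_iff.2 ⟨by norm_num, h1⟩
  have h3 : Real.exp (-(Z ^ 16)) ≤ 1 / 64 := by
    rw [Real.exp_neg, ← one_div]
    have g6 := Real.add_one_le_exp (Z ^ 16)
    have g7 : Z ≤ Z ^ 16 := le_self_pow₀ (by linarith) (by norm_num)
    exact one_div_le_one_div_of_le (by norm_num) (by linarith)
  linarith

theorem lap2 (hGEO : S_GEO2) (hSMO : S_SMO2) : S_LAP2 := by
  intro d hd
  obtain ⟨Cn, hCn, hNAS⟩ := Pool.Agent.Q187.LC.Nas.nas Pool.Agent.Q53.LC.poi d (by omega)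
  obtain ⟨Cs, hCs1, hCs⟩ := hSMO d (by omega)
  obtain ⟨Cp, hCp1, hCp⟩ := gap_poi d hd
  obtain ⟨c', C₁, hc', hC₁, hSEQ⟩ := Pool.Agent.Q229.LC.Seq.seq d 1 (by omega) one_pos le_rfl
  have hNASb : Pool.Agent.Q257.LC.NASb d Cn := hNAS
  have hS : SMO2b d Cs := hCs
  have hG : GEO2b d := fun L _ => hGEO d L hd
  obtain ⟨P, hP⟩ : ∃ P : ℝ, P = 8000 * 24 ^ 6 := ⟨_, rfl⟩
  have hP0 : 0 < P := by rw [hP]; norm_num
  obtain ⟨X, hX⟩ : ∃ X : ℕ, 64 ≤ X ∧ 4 * Cs ≤ X ∧ P * 64 * Cn ^ 2 ≤ X ∧ 8 * P * Cp ≤ X ∧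
      8 * C₁ ≤ X ∧ 4 / c' ≤ X ∧ 16 * Cn ≤ X := by
    refine ⟨64 + 4 * Cs + ⌈P * 64 * Cn ^ 2⌉₊ + ⌈8 * P * Cp⌉₊ + ⌈8 * C₁⌉₊ + ⌈4 / c'⌉₊ + ⌈16 * Cn⌉₊,
      by omega, by omega, ?_, ?_, ?_, ?_, ?_⟩
    all_goals
      push_cast
    · have h1 := Nat.le_ceil (P * 64 * Cn ^ 2)
      have h2 : (0 : ℝ) ≤ 64 + 4 * Cs + ⌈8 * P * Cp⌉₊ + ⌈8 * C₁⌉₊ + ⌈4 / c'⌉₊ + ⌈16 * Cn⌉₊ := by
        positivity
      linarith
    · have h1 := Nat.le_ceil (8 * P * Cp)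
      have h2 : (0 : ℝ) ≤ 64 + 4 * Cs + ⌈P * 64 * Cn ^ 2⌉₊ + ⌈8 * C₁⌉₊ + ⌈4 / c'⌉₊ + ⌈16 * Cn⌉₊ := by
        positivity
      linarith
    · have h1 := Nat.le_ceil (8 * C₁)
      have h2 : (0 : ℝ) ≤ 64 + 4 * Cs + ⌈P * 64 * Cn ^ 2⌉₊ + ⌈8 * P * Cp⌉₊ + ⌈4 / c'⌉₊ +
          ⌈16 * Cn⌉₊ := by positivity
      linarith
    · have h1 := Nat.le_ceil (4 / c')
      have h2 : (0 : ℝ) ≤ 64 + 4 * Cs + ⌈P * 64 * Cn ^ 2⌉₊ + ⌈8 * P * Cp⌉₊ + ⌈8 * C₁⌉₊ +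
          ⌈16 * Cn⌉₊ := by positivity
      linarith
    · have h1 := Nat.le_ceil (16 * Cn)
      have h2 : (0 : ℝ) ≤ 64 + 4 * Cs + ⌈P * 64 * Cn ^ 2⌉₊ + ⌈8 * P * Cp⌉₊ + ⌈8 * C₁⌉₊ +
          ⌈4 / c'⌉₊ := by positivity
      linarith
  obtain ⟨hX1, hX2, hX3, hX4, hX5, hX6, hX7⟩ := hX
  refine ⟨X, 22, 14, by omega, ?_⟩
  intro Z hXZ L K lam r ρ κ₀ _ hlam hρ hκ hr hLZ hK
  have hXZ' : (X : ℝ) ≤ Z := by exact_mod_cast hXZ
  have hZ64 : 64 ≤ Z := by omega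
  have hZ64' : (64 : ℝ) ≤ Z := by exact_mod_cast hZ64
  have hZ0 : (0 : ℝ) < Z := by linarith
  have hZ1 : (1 : ℝ) ≤ Z := by linarith
  refine ⟨64 + 2 * Cs + 4 * Z ^ 2, ?_⟩
  intro q hq σ hσ δ hδ1 hδ2 ω A hE
  -- powers of Z
  obtain ⟨p2, hp2⟩ : ∃ p2, p2 = Z ^ 2 := ⟨_, rfl⟩
  have hp2Z : 64 * Z ≤ Z ^ 2 := by nlinarith
  have hZ3 : 64 * Z ^ 2 ≤ Z ^ 3 := by
    have : Z ^ 3 = Z * Z ^ 2 := by ring
    rw [this]
    exact Nat.mul_le_mul_right _ hZ64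
  have hZ16 : Z ^ 3 ≤ Z ^ 16 := Nat.pow_le_pow_right (by omega) (by norm_num)
  have hZ17 : 64 * Z ^ 16 ≤ Z ^ 17 := by
    have : Z ^ 17 = Z * Z ^ 16 := by ring
    rw [this]
    exact Nat.mul_le_mul_right _ hZ64
  have hZ18 : 64 * Z ^ 17 ≤ Z ^ 18 := by
    have : Z ^ 18 = Z * Z ^ 17 := by ring
    rw [this]
    exact Nat.mul_le_mul_right _ hZ64
  have hZ19 : 64 * Z ^ 18 ≤ Z ^ 19 := by
    have : Z ^ 19 = Z * Z ^ 18 := by ring
    rw [this]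
    exact Nat.mul_le_mul_right _ hZ64
  have hZ22 : 64 * Z ^ 19 ≤ Z ^ 22 := by
    have h1 : 64 * Z ^ 19 ≤ Z * Z ^ 19 := Nat.mul_le_mul_right _ hZ64
    have h2 : Z * Z ^ 19 = Z ^ 20 := by ring
    have h3 : Z ^ 20 ≤ Z ^ 22 := Nat.pow_le_pow_right (by omega) (by norm_num)
    omega
  have hL3 : 3 ≤ L := by omega
  have hL0 : (0 : ℝ) < L := by
    have : 0 < L := by omega
    exact_mod_cast this
  have hd1 : 1 ≤ d := by omega
  have hdR : (d : ℝ) = 2 := by rw [hd]; norm_num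
  have hq1 : 1 ≤ q := by omega
  have hqR : (64 : ℝ) + 2 * Cs + 4 * (Z : ℝ) ^ 2 ≤ q := by exact_mod_cast hq
  have hq0 : (0 : ℝ) < q := by
    have : (0 : ℝ) ≤ Cs := Nat.cast_nonneg _
    nlinarith [sq_nonneg (Z : ℝ)]
  have hδ0 : 0 < δ := by
    by_contra h
    push Not at h
    have : δ * q ≤ 0 := mul_nonpos_of_nonpos_of_nonneg h hq0.le
    linarith
  have hq64 : (64 : ℝ) ≤ q := by
    have : (0 : ℝ) ≤ Cs := Nat.cast_nonneg _
    nlinarith [sq_nonneg (Z : ℝ)]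
  have hqCs : 2 * (Cs : ℝ) ≤ q := by
    nlinarith [sq_nonneg (Z : ℝ)]
  have hδ32 : 32 * δ ≤ 1 := by
    have h1 : δ * 64 ≤ δ * q := mul_le_mul_of_nonneg_left hq64 hδ0.le
    linarith
  have hδd : 16 * (d : ℝ) * δ ≤ 1 := by rw [hdR]; linarith
  have hδ1' : δ ≤ 1 := by linarith
  have hCδ : (Cs : ℝ) * δ ≤ 1 := by
    have h1 : δ * (2 * Cs) ≤ δ * q := mul_le_mul_of_nonneg_left hqCs hδ0.le
    linarith
  -- parameters
  obtain ⟨b, hb⟩ : ∃ b, b = 3 * Z ^ 2 := ⟨_, rfl⟩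
  obtain ⟨r₀, hr₀⟩ : ∃ r₀, r₀ = 5 * Z ^ 2 := ⟨_, rfl⟩
  obtain ⟨W, hW⟩ : ∃ W, W = 24 * Z ^ 2 := ⟨_, rfl⟩
  obtain ⟨u, hu⟩ : ∃ u, u = Z ^ 16 := ⟨_, rfl⟩
  obtain ⟨R, hR⟩ : ∃ R, R = Z ^ 19 := ⟨_, rfl⟩
  have hlamρ : lam * ρ ≤ Z ^ 2 := by
    rw [pow_two]
    exact Nat.mul_le_mul hlam hρ
  have hbb : lam + 2 * (lam * ρ) ≤ b := by omega
  have hbW : b + 4 * r₀ + 1 ≤ W := by
    have : 1 ≤ Z ^ 2 := Nat.one_le_pow _ _ (by omega)
    omega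
  have hr₀1 : 1 ≤ r₀ := by
    have : 1 ≤ Z ^ 2 := Nat.one_le_pow _ _ (by omega)
    omega
  have hWL : 4 * W + 1 ≤ L := by omega
  have hWr : 4 * W + ρ + 8 ≤ r := by omega
  have hu1 : 1 ≤ u := by omega
  have hρu : ρ * (u + 1) ≤ Z ^ 17 + Z := by
    calc ρ * (u + 1) ≤ Z * (u + 1) := Nat.mul_le_mul_right _ hρ
      _ = Z ^ 17 + Z := by rw [hu]; ring
  have hRr : R + ρ * (u + 1) + 4 ≤ r := by omega
  have hWR : R + W + ρ + 8 ≤ r := by omega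
  have hlk : 4 * lam ^ 2 * κ₀ ≤ u := by
    calc 4 * lam ^ 2 * κ₀ ≤ 4 * Z ^ 2 * Z :=
          Nat.mul_le_mul (Nat.mul_le_mul_left _ (Nat.pow_le_pow_left hlam 2)) hκ
      _ = 4 * Z ^ 3 := by ring
      _ ≤ u := by
          have h1 : Z ^ 4 = Z * Z ^ 3 := by ring
          have h2 : 64 * Z ^ 3 ≤ Z * Z ^ 3 := Nat.mul_le_mul_right _ hZ64
          have h3 : Z ^ 4 ≤ Z ^ 16 := Nat.pow_le_pow_right (by omega) (by norm_num)
          omega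
  have hlq : 4 * lam * ρ ≤ q := by
    calc 4 * lam * ρ = 4 * (lam * ρ) := by ring
      _ ≤ q := by omega
  have hCR : Cs * (lam * ρ + 1) * (u + 1) ≤ R := by
    calc Cs * (lam * ρ + 1) * (u + 1) ≤ Cs * (2 * Z ^ 2) * (2 * Z ^ 16) := by
          refine Nat.mul_le_mul (Nat.mul_le_mul_left _ ?_) ?_
          · have : 1 ≤ Z ^ 2 := Nat.one_le_pow _ _ (by omega)
            omega
          · omega
      _ = (4 * Cs) * Z ^ 18 := by ring
      _ ≤ Z * Z ^ 18 := Nat.mul_le_mul_right _ (by omega)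
      _ = R := by rw [hR]; ring
  have hRL : 4 * R + 8 ≤ L := by omega
  have hsm : Real.sqrt ((b : ℝ) ^ 2 * (20 / Real.sqrt u)) + Real.exp (-(u : ℝ)) ≤ 1 / 32 := by
    rw [hb, hu]
    push_cast
    exact lap_sm Z hZ64'
  have hq' : 64 + 2 * Cs + 4 * Z ^ 2 ≤ q := hq
  obtain ⟨κ, hκd⟩ : ∃ κ, κ = δ / (8000 * (W : ℝ) ^ 6) := ⟨_, rfl⟩
  have hWreal : 8000 * (W : ℝ) ^ 6 = P * (Z : ℝ) ^ 12 := by
    rw [hW, hP]
    push_cast
    ring
  have hκ0 : 0 < κ := by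
    rw [hκd, hWreal]
    positivity
  -- decrease and smoothing
  have hdecr : ∀ (f : (Fin d → ZMod L) → ℝ) (s : ℕ), s < K * q →
      κ * en r₀ (Ds W σ ω A s) (fs σ ω A δ f s) ≤ Fs σ ω A δ f s - Fs σ ω A δ f (s + 1) := by
    intro f s hs
    rw [hκd]
    exact Fs_en hG hd1 hL3 hσ hδ0 hδd hq1 hE hbb hr₀1 hbW hWL hWr f s hs
  obtain ⟨V, hV⟩ : ∃ V, V = (u + 1) * q := ⟨_, rfl⟩
  have hsmooth : ∀ (f : (Fin d → ZMod L) → ℝ), (∀ x ∈ A, f x = 0) → ∀ s, V ≤ s → s < K * q →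
      ∑ x ∈ Ds W σ ω A s, fs σ ω A δ f s x ^ 2 ≤ Fs σ ω A δ f (s - V) / 32 := by
    intro f hf s hVs hs
    rw [hV] at hVs ⊢
    exact Fs_smooth hG hS hd1 hL3 hσ hq1 hδ0 hδd hCδ hδ1 hδ2 hE hu1 hRr hlk hlq hCR hRL hbb
      (by omega) hWL hWr hWR hsm hf s hs hVs
  have hbox : ∀ s < K * q, ∀ v, 2 * (Ds W σ ω A s ∩ Q292.LC.box v r₀).card ≤ r₀ ^ d := by
    intro s hs v
    have h1 : (Ds W σ ω A s ∩ Q292.LC.box v r₀).card ≤
        (Ds W σ ω A s ∩ bal v (d * r₀)).card :=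
      card_le_card (inter_subset_inter_left (Pool.Agent.Q257.LC.box_sub v r₀))
    have h2 : (Ds W σ ω A s ∩ bal v (d * r₀)).card ≤ b ^ 2 := by
      refine Ds_card hG hd1 hL3 hσ hq1 hE hbb (by omega) hWL hWr s hs v _ ?_
      rw [hd]
      omega
    have h3 : r₀ ^ d = r₀ ^ 2 := by rw [hd]
    rw [h3]
    have h4 : b ^ 2 = 9 * Z ^ 4 := by rw [hb]; ring
    have h5 : r₀ ^ 2 = 25 * Z ^ 4 := by rw [hr₀]; ring
    omega
  -- number of blocks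
  obtain ⟨n, hn⟩ : ∃ n, n = K / (u + 1) := ⟨_, rfl⟩
  have hnK : n * (u + 1) ≤ K := by rw [hn]; exact Nat.div_mul_le_self _ _
  have hnK2 : K < n * (u + 1) + (u + 1) := by
    rw [hn]
    exact Nat.lt_div_mul_add (by omega)
  have hK64 : 4 * (u + 1) ≤ K := by omega
  have hn4 : 4 ≤ n := by
    rw [hn, Nat.le_div_iff_mul_le (by omega)]
    exact hK64
  have hnV : n * V ≤ K * q := by
    rw [hV]
    calc n * ((u + 1) * q) = (n * (u + 1)) * q := by ring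
      _ ≤ K * q := Nat.mul_le_mul_right _ hnK
  have hK0 : (0 : ℝ) < K := by
    have : 0 < K := by omega
    exact_mod_cast this
  have hnu : (K : ℝ) / 2 ≤ n * (u + 1) := by
    have h1 : K ≤ 2 * (n * (u + 1)) := by
      have : (u + 1) ≤ n * (u + 1) := Nat.le_mul_of_pos_left _ (by omega)
      omega
    have h2 : (K : ℝ) ≤ 2 * (n * (u + 1)) := by exact_mod_cast h1
    linarith
  have hVκ1 : (u + 1 : ℝ) / (P * (Z : ℝ) ^ 12) ≤ V * κ := by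
    rw [hV, hκd, hWreal]
    push_cast
    have : ((u : ℝ) + 1) * q * (δ / (P * (Z : ℝ) ^ 12)) =
        (u + 1) / (P * (Z : ℝ) ^ 12) * (δ * q) := by ring
    rw [this]
    exact le_mul_of_one_le_right (by positivity) hδ1
  have hVκ2 : V * κ ≤ (u + 1 : ℝ) / (P * (Z : ℝ) ^ 12) * 2 := by
    rw [hV, hκd, hWreal]
    push_cast
    have : ((u : ℝ) + 1) * q * (δ / (P * (Z : ℝ) ^ 12)) =
        (u + 1) / (P * (Z : ℝ) ^ 12) * (δ * q) := by ring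
    rw [this]
    exact mul_le_mul_of_nonneg_left hδ2 (by positivity)
  have huR : (u : ℝ) = (Z : ℝ) ^ 16 := by rw [hu]; push_cast; ring
  have hfin : ∀ f : (Fin d → ZMod L) → ℝ,
      ∑ x, (vecMul f (TT (ed ∘ σ) ω A δ (K * (q * ms d L))) x) ^ 2 = Fs σ ω A δ f (K * q) := by
    intro f
    unfold Fs fs
    rw [← mul_assoc]
  have hF0 : ∀ f : (Fin d → ZMod L) → ℝ, Fs σ ω A δ f 0 = ∑ x, f x ^ 2 := by
    intro f
    unfold Fs fs
    rw [Nat.zero_mul]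
    have : TT (ed ∘ σ) ω A δ 0 = 1 := rfl
    rw [this, Matrix.vecMul_one]
  refine ⟨?_, ?_⟩
  · -- nonnegative functions
    intro f hf0 hfA hf1
    rw [hfin f]
    obtain ⟨c, hc⟩ : ∃ c, c = κ / (64 * Cn ^ 2) := ⟨_, rfl⟩
    have hc0 : 0 ≤ c := by rw [hc]; positivity
    have hanti := Fs_anti hd1 hL3 hσ ω A hδ0 hδd f
    have hWin : ∀ s, s < K * q → ∑ x ∈ Ds W σ ω A s, fs σ ω A δ f s x ^ 2 ≤ Fs σ ω A δ f s / 2 →
        Fs σ ω A δ f s ≤ 16 * Cn / (L : ℝ) ^ d ∨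
        c * Fs σ ω A δ f s ^ 2 ≤ Fs σ ω A δ f s - Fs σ ω A δ f (s + 1) := by
      intro s hs hGs
      rw [hc]
      exact window2 hd hCn hNASb hL3 (Ds W σ ω A s) hκ0 (hbox s hs) hr₀1 (by omega)
        (fs σ ω A δ f s) (fs_nonneg σ ω A hδ0.le hδ1' hf0 s)
        (by rw [fs_sum σ ω A hδ0.le hδ1' f s]; exact hf1) (hdecr f s hs) hGs
    have hblock := block_pos (Fs σ ω A δ f) (fun s => ∑ x ∈ Ds W σ ω A s, fs σ ω A δ f s x ^ 2)
      hanti (Fs_nonneg σ ω A δ f) (K * q) V c (16 * Cn / (L : ℝ) ^ d) hc0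
      (fun s h1 h2 => hsmooth f hfA s h1 h2) hWin
    have hVc : (Z : ℝ) ^ 3 ≤ V * c := by
      have h1 : V * c = V * κ / (64 * Cn ^ 2) := by rw [hc]; ring
      rw [h1, le_div_iff₀ (by positivity)]
      refine le_trans ?_ hVκ1
      rw [le_div_iff₀ (by positivity)]
      calc (Z : ℝ) ^ 3 * (64 * Cn ^ 2) * (P * (Z : ℝ) ^ 12) =
            (P * 64 * Cn ^ 2) * (Z : ℝ) ^ 15 := by ring
        _ ≤ Z * (Z : ℝ) ^ 15 := mul_le_mul_of_nonneg_right (hX3.trans hXZ') (by positivity)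
        _ = (Z : ℝ) ^ 16 := by ring
        _ ≤ u + 1 := by rw [huR]; linarith
    have hseq := hSEQ (fun k => Fs σ ω A δ f (k * V)) n ((Z : ℝ) ^ 3) 3 (16 * Cn / (L : ℝ) ^ d)
      (one_le_pow₀ hZ1) (by norm_num) (by positivity) (fun k => Fs_nonneg _ _ _ _ _ _)
      (fun k => hanti (Nat.mul_le_mul_right _ (Nat.le_succ k)))
      (by
        rw [Nat.zero_mul, hF0 f]
        have h1 : ∑ x, f x ^ 2 ≤ (∑ x, f x) ^ 2 :=
          Finset.sum_sq_le_sq_sum_of_nonneg fun x _ => hf0 x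
        have h2 := sum_nonneg fun x (_ : x ∈ univ) => hf0 x
        nlinarith)
      (by
        have h1 : Real.log ((Z : ℝ) ^ 3 + 1) ≤ (Z : ℝ) ^ 3 := by
          have := Real.log_le_sub_one_of_pos (show (0 : ℝ) < (Z : ℝ) ^ 3 + 1 by positivity)
          linarith
        have h2 : (1 : ℝ) ≤ (Z : ℝ) ^ 3 := one_le_pow₀ hZ1
        have h3 : C₁ * (1 + Real.log ((Z : ℝ) ^ 3 + 1)) ≤ C₁ * (2 * (Z : ℝ) ^ 3) :=
          mul_le_mul_of_nonneg_left (by linarith) (by linarith)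
        have h4 : C₁ * (2 * (Z : ℝ) ^ 3) ≤ (Z : ℝ) ^ 4 := by
          calc C₁ * (2 * (Z : ℝ) ^ 3) = (2 * C₁) * (Z : ℝ) ^ 3 := by ring
            _ ≤ Z * (Z : ℝ) ^ 3 :=
              mul_le_mul_of_nonneg_right (by linarith) (by positivity)
            _ = _ := by ring
        have h5 : (Z : ℝ) ^ 4 ≤ n := by
          have h6 : Z ^ 4 ≤ n := by
            rw [hn, Nat.le_div_iff_mul_le (by omega), hu]
            have e1 : Z ^ 4 * (Z ^ 16 + 1) = Z ^ 20 + Z ^ 4 := by ring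
            have e2 : Z ^ 4 ≤ Z ^ 20 := Nat.pow_le_pow_right (by omega) (by norm_num)
            have e3 : 64 * Z ^ 20 ≤ Z * Z ^ 20 := Nat.mul_le_mul_right _ hZ64
            have e4 : Z * Z ^ 20 = Z ^ 21 := by ring
            have e5 : Z ^ 21 ≤ Z ^ 22 := Nat.pow_le_pow_right (by omega) (by norm_num)
            omega
          exact_mod_cast h6
        linarith)
      (by
        intro k hk1 hkn
        have h1 : (k + 1) * V ≤ K * q := (Nat.mul_le_mul_right _ (by omega)).trans hnV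
        rcases hblock k hk1 h1 with h2 | h2 | h2
        · exact Or.inl h2
        · exact Or.inr (Or.inl h2)
        · refine Or.inr (Or.inr ?_)
          refine le_trans ?_ h2
          rw [one_mul]
          refine (min_le_right _ _).trans ?_
          have e1 : (1 + 2 / d : ℝ) = ((2 : ℕ) : ℝ) := by
            rw [hdR]
            norm_num
          rw [e1, Real.rpow_natCast]
          exact mul_le_mul_of_nonneg_right hVc (sq_nonneg _))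
    beta_reduce at hseq
    rw [Nat.zero_mul, hF0 f] at hseq
    refine (hanti hnV).trans (hseq.trans (max_le_max ?_ ?_))
    · exact div_le_div_of_nonneg_right hX7 (by positivity)
    · have h1 : 1 / (Z : ℝ) ^ 14 * K ≤ c' * (Z : ℝ) ^ 3 * n := by
        have h2 : (K : ℝ) / 2 ≤ n * (2 * (Z : ℝ) ^ 16) := by
          refine hnu.trans (mul_le_mul_of_nonneg_left ?_ (Nat.cast_nonneg _))
          rw [huR]
          have : (1 : ℝ) ≤ (Z : ℝ) ^ 16 := one_le_pow₀ hZ1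
          linarith
        have h3 : 4 ≤ c' * Z := by
          have h4 := hX6.trans hXZ'
          rw [div_le_iff₀ hc'] at h4
          linarith
        rw [one_div, inv_mul_le_iff₀ (by positivity)]
        calc (K : ℝ) ≤ 4 * (n * (Z : ℝ) ^ 16) := by linarith
          _ ≤ (c' * Z) * (n * (Z : ℝ) ^ 16) := mul_le_mul_of_nonneg_right h3 (by positivity)
          _ = (Z : ℝ) ^ 14 * (c' * (Z : ℝ) ^ 3 * n) := by ring
      have h2 : 0 < 1 / (Z : ℝ) ^ 14 * K := by positivity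
      have h3 : 0 ≤ (∑ x, f x ^ 2) ^ (-(2 / d : ℝ)) :=
        Real.rpow_nonneg (sum_nonneg fun _ _ => sq_nonneg _) _
      refine Real.rpow_le_rpow_of_nonpos (by linarith) (by linarith) ?_
      rw [hdR]
      norm_num
  · -- functions with sum zero
    intro f hfA hfs
    rw [hfin f]
    obtain ⟨c, hc⟩ : ∃ c, c = κ / (Cp * (L : ℝ) ^ 2) := ⟨_, rfl⟩
    have hc0 : 0 ≤ c := by rw [hc]; positivity
    have hanti := Fs_anti hd1 hL3 hσ ω A hδ0 hδd f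
    have hWin : ∀ s, s < K * q → ∑ x ∈ Ds W σ ω A s, fs σ ω A δ f s x ^ 2 ≤ Fs σ ω A δ f s / 8 →
        c * Fs σ ω A δ f s ≤ Fs σ ω A δ f s - Fs σ ω A δ f (s + 1) := by
      intro s hs hGs
      have h1 := hCp L r₀ hr₀1 (by omega) (Ds W σ ω A s) (hbox s hs) (fs σ ω A δ f s)
        (by rw [fs_sum σ ω A hδ0.le hδ1' f s]; exact hfs) hGs
      refine le_trans ?_ (hdecr f s hs)
      rw [hc, div_mul_eq_mul_div, div_le_iff₀ (by positivity)]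
      calc κ * Fs σ ω A δ f s ≤ κ * (Cp * (L : ℝ) ^ 2 * en r₀ (Ds W σ ω A s) (fs σ ω A δ f s)) :=
            mul_le_mul_of_nonneg_left h1 hκ0.le
        _ = _ := by ring
    have hL2 : (u : ℝ) + 1 ≤ (L : ℝ) ^ 2 := by
      have h1 : u + 1 ≤ L ^ 2 := by
        have h2 : u + 1 ≤ L := by omega
        have h3 : L ≤ L ^ 2 := Nat.le_self_pow (by norm_num) _
        omega
      exact_mod_cast h1
    have hVc3 : V * c ≤ 3 := by
      have h1 : V * c = V * κ / (Cp * (L : ℝ) ^ 2) := by rw [hc]; ring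
      rw [h1, div_le_iff₀ (by positivity)]
      refine hVκ2.trans ?_
      have h2 : (1 : ℝ) ≤ P * (Z : ℝ) ^ 12 := by
        have h3 : (1 : ℝ) ≤ (Z : ℝ) ^ 12 := one_le_pow₀ hZ1
        have h4 : (1 : ℝ) ≤ P := by rw [hP]; norm_num
        nlinarith
      have h3 : (u + 1 : ℝ) / (P * (Z : ℝ) ^ 12) ≤ u + 1 := div_le_self (by positivity) h2
      have h4 : (L : ℝ) ^ 2 ≤ Cp * (L : ℝ) ^ 2 := le_mul_of_one_le_left (by positivity) hCp1
      have h5 : (0 : ℝ) ≤ (L : ℝ) ^ 2 := by positivity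
      linarith
    have hblock := block_gap (Fs σ ω A δ f) (fun s => ∑ x ∈ Ds W σ ω A s, fs σ ω A δ f s x ^ 2)
      hanti (Fs_nonneg σ ω A δ f) (K * q) V c hc0 hVc3
      (fun s h1 h2 => hsmooth f hfA s h1 h2) hWin
    have hit := block_iter (Fs σ ω A δ f) (Fs_nonneg σ ω A δ f) V n (V * c)
      (mul_nonneg (Nat.cast_nonneg _) hc0)
      (fun k hk1 hkn => hblock k hk1 ((Nat.mul_le_mul_right _ hkn).trans hnV)) (n / 2)
      (Nat.mul_div_le _ _)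
    rw [hF0 f] at hit
    refine le_trans ?_ hit
    have h1 : Fs σ ω A δ f (K * q) ≤ Fs σ ω A δ f ((2 * (n / 2)) * V) :=
      hanti ((Nat.mul_le_mul_right _ (Nat.mul_div_le _ _)).trans hnV)
    have h2 : 1 / (Z : ℝ) ^ 14 * K / (L : ℝ) ^ 2 ≤ ((n / 2 : ℕ) : ℝ) * (V * c) := by
      have h3 : (n : ℝ) / 4 ≤ ((n / 2 : ℕ) : ℝ) := by
        have h4 : n ≤ 4 * (n / 2) := by omega
        have h5 : (n : ℝ) ≤ 4 * ((n / 2 : ℕ) : ℝ) := by exact_mod_cast h4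
        linarith
      have h4 : (u + 1 : ℝ) / (P * (Z : ℝ) ^ 12) / (Cp * (L : ℝ) ^ 2) ≤ V * c := by
        have h5 : V * c = V * κ / (Cp * (L : ℝ) ^ 2) := by rw [hc]; ring
        rw [h5]
        exact div_le_div_of_nonneg_right hVκ1 (by positivity)
      have h5 : (n : ℝ) / 4 * ((u + 1 : ℝ) / (P * (Z : ℝ) ^ 12) / (Cp * (L : ℝ) ^ 2)) ≤
          ((n / 2 : ℕ) : ℝ) * (V * c) :=
        mul_le_mul h3 h4 (by positivity) (Nat.cast_nonneg _)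
      refine le_trans ?_ h5
      have h6 : (n : ℝ) / 4 * ((u + 1 : ℝ) / (P * (Z : ℝ) ^ 12) / (Cp * (L : ℝ) ^ 2)) =
          (n * (u + 1)) / (4 * P * Cp * (Z : ℝ) ^ 12) / (L : ℝ) ^ 2 := by
        field_simp
      rw [h6]
      refine div_le_div_of_nonneg_right ?_ (by positivity)
      rw [one_div, inv_mul_le_iff₀ (by positivity)]
      have hCp0 : 0 < Cp := by linarith
      have h7 : (K : ℝ) / 2 / (4 * P * Cp * (Z : ℝ) ^ 12) ≤
          (n * (u + 1)) / (4 * P * Cp * (Z : ℝ) ^ 12) :=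
        div_le_div_of_nonneg_right hnu (by positivity)
      refine le_trans ?_ (mul_le_mul_of_nonneg_left h7 (by positivity))
      have h8 : (Z : ℝ) ^ 14 * ((K : ℝ) / 2 / (4 * P * Cp * (Z : ℝ) ^ 12)) =
          K * ((Z : ℝ) ^ 2 / (8 * P * Cp)) := by
        field_simp
        ring
      rw [h8]
      refine le_mul_of_one_le_right hK0.le ?_
      rw [le_div_iff₀ (by positivity), one_mul]
      calc 8 * P * Cp ≤ Z := hX4.trans hXZ'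
        _ ≤ (Z : ℝ) ^ 2 := by nlinarith
    exact mul_le_mul (by linarith) h1 (Fs_nonneg _ _ _ _ _ _) (by
      have : 0 ≤ ((n / 2 : ℕ) : ℝ) * (V * c) :=
        mul_nonneg (Nat.cast_nonneg _) (mul_nonneg (Nat.cast_nonneg _) hc0)
      linarith)

end Pool.Agent.J6H44.P2
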