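import Pool.Agent.J6H44.P2.Gap
import Pool.Agent.J6H44.P2.Swd2
import Pool.Agent.J6H44.P2.Bdc
import Pool.Agent.Q257.LC.LapC

/-! Project P2: pieces of `S_LAP2`. -/

set_option autoImplicit false

namespace Pool.Agent.J6H44.P2

open Finset Equiv Matrix Q292.LC

/-- body of `S_SMO2` -/
def SMO2b (d C : ℕ) : Prop := ∀ (L : ℕ) [NeZero L], 3 ≤ L →
  ∀ σ : ℕ → (Fin d → ZMod L) × Fin d, Per σ → ∀ (ω : ℕ → Bool) (A : Finset (Fin d → ZMod L))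
  (δ : ℝ) (q u R lam ρ κ₀ : ℕ) (z : Fin d → ZMod L), 0 < δ → C * δ ≤ 1 → 1 ≤ δ * q → δ * q ≤ 2 →
  z ∉ A → 1 ≤ u → (A ∩ bal z (R + ρ * (u + 1) + 4)).card ≤ lam →
  (∀ j < u + 1, ∀ a ∈ A, jumps (ed ∘ σ) ω (j * (q * ms d L)) ((j + 1) * (q * ms d L)) a ≤ ρ) →
  (∀ a ∈ A, ∀ b ∈ A, a ≠ b → ((Finset.range (u * q)).filter fun s =>
    td (gp (ed ∘ σ) ω (s * ms d L) a) (gp (ed ∘ σ) ω (s * ms d L) b) ≤ 3).card ≤ κ₀ * q) →
  4 * lam ^ 2 * κ₀ ≤ u → 4 * lam * ρ ≤ q → C * (lam * ρ + 1) * (u + 1) ≤ R → 4 * R + 8 ≤ L →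
  ∀ n : ℕ, u * (q * ms d L) ≤ n → n ≤ (u + 1) * (q * ms d L) →
  ∃ g : (Fin d → ZMod L) → ℝ, (∀ y, 0 ≤ g y ∧ g y ≤ TT (ed ∘ σ) ω A δ n z y ∧
    (g y ≠ 0 → td z y ≤ R)) ∧ ∑ y, (g y) ^ 2 ≤ 20 / Real.sqrt u ∧ 1 - ∑ y, g y ≤ Real.exp (-(u : ℝ))

/-- body of `S_GEO2` -/
def GEO2b (d : ℕ) : Prop := ∀ (L : ℕ) [NeZero L], 3 ≤ L →
  ∀ (S : Finset (Fin d → ZMod L)) (W b r : ℕ), 1 ≤ r →
  (∀ v, (S ∩ bal v (4 * W)).card ≤ b) → b + 4 * r + 1 ≤ W → 4 * W + 1 ≤ L →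
  S ⊆ dm W S ∧
  (∀ (v : Fin d → ZMod L) (R b' : ℕ), (S ∩ bal v (R + W)).card ≤ b' →
    (dm W S ∩ bal v R).card ≤ b' ^ 2) ∧
  ∀ f : (Fin d → ZMod L) → ℝ, en r (dm W S) f ≤ 4000 * (W : ℝ) ^ 6 * eg S f

section sweep

variable {d L : ℕ} [NeZero L]

/-- positions of the particles after `s` sweeps -/
def As (σ : ℕ → (Fin d → ZMod L) × Fin d) (ω : ℕ → Bool) (A : Finset (Fin d → ZMod L)) (s : ℕ) :
    Finset (Fin d → ZMod L) :=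
  A.image (gp (ed ∘ σ) ω (s * ms d L))

/-- the function after `s` sweeps -/
noncomputable def fs (σ : ℕ → (Fin d → ZMod L) × Fin d) (ω : ℕ → Bool)
    (A : Finset (Fin d → ZMod L)) (δ : ℝ) (f : (Fin d → ZMod L) → ℝ) (s : ℕ) :
    (Fin d → ZMod L) → ℝ :=
  vecMul f (TT (ed ∘ σ) ω A δ (s * ms d L))

/-- its square norm -/
noncomputable def Fs (σ : ℕ → (Fin d → ZMod L) × Fin d) (ω : ℕ → Bool)
    (A : Finset (Fin d → ZMod L)) (δ : ℝ) (f : (Fin d → ZMod L) → ℝ) (s : ℕ) : ℝ :=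
  ∑ x, fs σ ω A δ f s x ^ 2

/-- the blocked points of sweep `s` -/
def Ss (σ : ℕ → (Fin d → ZMod L) × Fin d) (ω : ℕ → Bool) (A : Finset (Fin d → ZMod L)) (s : ℕ) :
    Finset (Fin d → ZMod L) :=
  bdS σ (sh (s * ms d L) ω) (As σ ω A s)

/-- the bad points of sweep `s` -/
noncomputable def Ds (W : ℕ) (σ : ℕ → (Fin d → ZMod L) × Fin d) (ω : ℕ → Bool)
    (A : Finset (Fin d → ZMod L)) (s : ℕ) : Finset (Fin d → ZMod L) :=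
  dm W (Ss σ ω A s)

theorem TT_sweeps {σ : ℕ → (Fin d → ZMod L) × Fin d} (hσ : Per σ) (ω : ℕ → Bool)
    (A : Finset (Fin d → ZMod L)) {δ : ℝ} (h0 : 0 ≤ δ) (h1 : δ ≤ 1) (s n : ℕ) :
    TT (ed ∘ σ) ω A δ (s * ms d L + n) = TT (ed ∘ σ) ω A δ (s * ms d L) *
      TT (ed ∘ σ) (sh (s * ms d L) ω) (As σ ω A s) δ n := by
  have h := (Pool.Agent.Q68.LC.bas2 _ (ed ∘ σ) ω A δ h0 h1).2.2.2.2.2 (s * ms d L) n
  rw [sh_sweep hσ] at h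
  exact h

theorem fs_add {σ : ℕ → (Fin d → ZMod L) × Fin d} (hσ : Per σ) (ω : ℕ → Bool)
    (A : Finset (Fin d → ZMod L)) {δ : ℝ} (h0 : 0 ≤ δ) (h1 : δ ≤ 1)
    (f : (Fin d → ZMod L) → ℝ) (s t : ℕ) :
    fs σ ω A δ f (s + t) = vecMul (fs σ ω A δ f s)
      (TT (ed ∘ σ) (sh (s * ms d L) ω) (As σ ω A s) δ (t * ms d L)) := by
  unfold fs
  rw [add_mul, TT_sweeps hσ ω A h0 h1 s (t * ms d L), Matrix.vecMul_vecMul]

theorem fs_nonneg (σ : ℕ → (Fin d → ZMod L) × Fin d) (ω : ℕ → Bool)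
    (A : Finset (Fin d → ZMod L)) {δ : ℝ} (h0 : 0 ≤ δ) (h1 : δ ≤ 1)
    {f : (Fin d → ZMod L) → ℝ} (hf : ∀ x, 0 ≤ f x) (s : ℕ) (x : Fin d → ZMod L) :
    0 ≤ fs σ ω A δ f s x :=
  Pool.Agent.Q257.LC.vecMul_nonneg _ _ ((Pool.Agent.Q68.LC.bas2 _ (ed ∘ σ) ω A δ h0 h1).1 _) hf x

theorem fs_sum (σ : ℕ → (Fin d → ZMod L) × Fin d) (ω : ℕ → Bool)
    (A : Finset (Fin d → ZMod L)) {δ : ℝ} (h0 : 0 ≤ δ) (h1 : δ ≤ 1)
    (f : (Fin d → ZMod L) → ℝ) (s : ℕ) : ∑ x, fs σ ω A δ f s x = ∑ x, f x :=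
  Pool.Agent.Q257.LC.sum_vecMul _ _ ((Pool.Agent.Q68.LC.bas2 _ (ed ∘ σ) ω A δ h0 h1).2.1 _)

theorem fs_zero (σ : ℕ → (Fin d → ZMod L) × Fin d) (ω : ℕ → Bool)
    (A : Finset (Fin d → ZMod L)) {δ : ℝ} (h0 : 0 ≤ δ) (h1 : δ ≤ 1)
    {f : (Fin d → ZMod L) → ℝ} (hf : ∀ x ∈ A, f x = 0) (s : ℕ) (x : Fin d → ZMod L)
    (hx : x ∈ As σ ω A s) : fs σ ω A δ f s x = 0 := by
  refine sum_eq_zero fun y _ => ?_
  by_cases hy : y ∈ A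
  · rw [hf y hy, zero_mul]
  · beta_reduce
    rw [(Pool.Agent.Q68.LC.bas2 _ (ed ∘ σ) ω A δ h0 h1).2.2.2.2.1 _ y hy x hx, mul_zero]

theorem Fs_dec (hd : 1 ≤ d) (hL : 3 ≤ L) {σ : ℕ → (Fin d → ZMod L) × Fin d} (hσ : Per σ)
    (ω : ℕ → Bool) (A : Finset (Fin d → ZMod L)) {δ : ℝ} (h0 : 0 < δ) (h1 : 16 * d * δ ≤ 1)
    (f : (Fin d → ZMod L) → ℝ) (s : ℕ) :
    Fs σ ω A δ f (s + 1) + δ / 2 * eg (Ss σ ω A s) (fs σ ω A δ f s) ≤ Fs σ ω A δ f s := by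
  have hd' : (1 : ℝ) ≤ d := by exact_mod_cast hd
  have h1' : δ ≤ 1 := by nlinarith
  unfold Fs
  rw [fs_add hσ ω A h0.le h1' f s 1, one_mul]
  exact swd2 d L hd hL σ hσ (sh (s * ms d L) ω) (As σ ω A s) δ (fs σ ω A δ f s) h0 h1

theorem eg_nonneg (S : Finset (Fin d → ZMod L)) (f : (Fin d → ZMod L) → ℝ) : 0 ≤ eg S f := by
  unfold eg
  refine sum_nonneg fun i _ => ?_
  split_ifs
  · exact sq_nonneg _
  · exact le_rfl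

theorem Fs_anti (hd : 1 ≤ d) (hL : 3 ≤ L) {σ : ℕ → (Fin d → ZMod L) × Fin d} (hσ : Per σ)
    (ω : ℕ → Bool) (A : Finset (Fin d → ZMod L)) {δ : ℝ} (h0 : 0 < δ) (h1 : 16 * d * δ ≤ 1)
    (f : (Fin d → ZMod L) → ℝ) : Antitone (Fs σ ω A δ f) := by
  refine antitone_nat_of_succ_le fun s => ?_
  have h2 := Fs_dec hd hL hσ ω A h0 h1 f s
  have h3 : 0 ≤ δ / 2 * eg (Ss σ ω A s) (fs σ ω A δ f s) :=
    mul_nonneg (by linarith) (eg_nonneg _ _)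
  linarith

theorem Fs_nonneg (σ : ℕ → (Fin d → ZMod L) × Fin d) (ω : ℕ → Bool)
    (A : Finset (Fin d → ZMod L)) (δ : ℝ) (f : (Fin d → ZMod L) → ℝ) (s : ℕ) :
    0 ≤ Fs σ ω A δ f s := sum_nonneg fun _ _ => sq_nonneg _

/-- the number of blocked points -/
theorem Ss_card (hd : 1 ≤ d) (hL : 3 ≤ L) {σ : ℕ → (Fin d → ZMod L) × Fin d} (hσ : Per σ)
    {q K lam r ρ κ₀ : ℕ} {ω : ℕ → Bool} {A : Finset (Fin d → ZMod L)} (hq : 1 ≤ q)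
    (hE : Ev σ q K lam r ρ κ₀ ω A) {b : ℕ} (hb : lam + 2 * (lam * ρ) ≤ b) (s : ℕ)
    (hs : s < K * q) (v : Fin d → ZMod L) (R' : ℕ) (hR : R' + ρ + 8 ≤ r) :
    (Ss σ ω A s ∩ bal v R').card ≤ b :=
  (bdc d L hd hL σ hσ q K lam r ρ κ₀ ω A hq hE s hs v R' hR).trans hb

theorem Ds_card (hG : GEO2b d) (hd : 1 ≤ d) (hL : 3 ≤ L) {σ : ℕ → (Fin d → ZMod L) × Fin d}
    (hσ : Per σ)
    {q K lam r ρ κ₀ : ℕ} {ω : ℕ → Bool} {A : Finset (Fin d → ZMod L)} (hq : 1 ≤ q)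
    (hE : Ev σ q K lam r ρ κ₀ ω A) {b W : ℕ} (hb : lam + 2 * (lam * ρ) ≤ b) (hbW : b + 5 ≤ W)
    (hWL : 4 * W + 1 ≤ L) (hWr : 4 * W + ρ + 8 ≤ r) (s : ℕ)
    (hs : s < K * q) (v : Fin d → ZMod L) (R' : ℕ) (hR : R' + W + ρ + 8 ≤ r) :
    (Ds W σ ω A s ∩ bal v R').card ≤ b ^ 2 := by
  refine (hG L hL (Ss σ ω A s) W b 1 le_rfl (fun v => ?_) (by omega) hWL).2.1 v R' b ?_
  · exact Ss_card hd hL hσ hq hE hb s hs v _ (by omega)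
  · exact Ss_card hd hL hσ hq hE hb s hs v _ (by omega)

theorem Fs_en (hG : GEO2b d) (hd : 1 ≤ d) (hL : 3 ≤ L) {σ : ℕ → (Fin d → ZMod L) × Fin d}
    (hσ : Per σ) {δ : ℝ} (h0 : 0 < δ) (h1 : 16 * d * δ ≤ 1)
    {q K lam r ρ κ₀ : ℕ} {ω : ℕ → Bool} {A : Finset (Fin d → ZMod L)} (hq : 1 ≤ q)
    (hE : Ev σ q K lam r ρ κ₀ ω A) {b W r₀ : ℕ} (hb : lam + 2 * (lam * ρ) ≤ b) (hr₀ : 1 ≤ r₀)
    (hbW : b + 4 * r₀ + 1 ≤ W)
    (hWL : 4 * W + 1 ≤ L) (hWr : 4 * W + ρ + 8 ≤ r) (f : (Fin d → ZMod L) → ℝ) (s : ℕ)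
    (hs : s < K * q) :
    δ / (8000 * (W : ℝ) ^ 6) * en r₀ (Ds W σ ω A s) (fs σ ω A δ f s) ≤
      Fs σ ω A δ f s - Fs σ ω A δ f (s + 1) := by
  have h2 := (hG L hL (Ss σ ω A s) W b r₀ hr₀ (fun v => Ss_card hd hL hσ hq hE hb s hs v _ (by omega))
    hbW hWL).2.2 (fs σ ω A δ f s)
  have h3 := Fs_dec hd hL hσ ω A h0 h1 f s
  have hW : (0 : ℝ) < W := by
    have : 0 < W := by omega
    exact_mod_cast this
  have h4 : δ / (8000 * (W : ℝ) ^ 6) * en r₀ (Ds W σ ω A s) (fs σ ω A δ f s) ≤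
      δ / 2 * eg (Ss σ ω A s) (fs σ ω A δ f s) := by
    calc δ / (8000 * (W : ℝ) ^ 6) * en r₀ (Ds W σ ω A s) (fs σ ω A δ f s)
        ≤ δ / (8000 * (W : ℝ) ^ 6) * (4000 * (W : ℝ) ^ 6 * eg (Ss σ ω A s) (fs σ ω A δ f s)) :=
          mul_le_mul_of_nonneg_left h2 (by positivity)
      _ = _ := by
          field_simp
          ring
  linarith

/-- few mass near the particles -/
theorem smooth2 {C : ℕ} (hS : SMO2b d C) (hL : 3 ≤ L)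
    (σ : ℕ → (Fin d → ZMod L) × Fin d) (hσ : Per σ) (ω : ℕ → Bool)
    (A : Finset (Fin d → ZMod L)) {δ : ℝ} {q u R lam r ρ κ₀ : ℕ} (z : Fin d → ZMod L)
    (hδ : 0 < δ) (hδ1 : δ ≤ 1) (hC : C * δ ≤ 1) (h1 : 1 ≤ δ * q) (h2 : δ * q ≤ 2) (hz : z ∉ A)
    (hu : 1 ≤ u) (hE : Ev σ q (u + 1) lam r ρ κ₀ ω A) (hr : R + ρ * (u + 1) + 4 ≤ r)
    (h4 : 4 * lam ^ 2 * κ₀ ≤ u) (h5 : 4 * lam * ρ ≤ q) (h6 : C * (lam * ρ + 1) * (u + 1) ≤ R)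
    (h7 : 4 * R + 8 ≤ L) (n : ℕ) (hn1 : u * (q * ms d L) ≤ n) (hn2 : n ≤ (u + 1) * (q * ms d L))
    (S : Finset (Fin d → ZMod L)) (N : ℝ)
    (hN : ((S ∩ bal z R).card : ℝ) ≤ N) :
    ∑ x ∈ S, TT (ed ∘ σ) ω A δ n z x ≤
      Real.sqrt (N * (20 / Real.sqrt u)) + Real.exp (-(u : ℝ)) := by
  obtain ⟨hE1, hE2, hE3⟩ := hE
  have hcard : (A ∩ bal z (R + ρ * (u + 1) + 4)).card ≤ lam := by
    have h8 := hE1 0 (Nat.zero_le _) z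
    rw [Nat.zero_mul] at h8
    have h9 : A.image (gp (ed ∘ σ) ω 0) = A := by simp [gp]
    rw [h9] at h8
    exact (card_le_card (inter_subset_inter_left (Pool.Agent.Q257.LC.bal_mono z hr))).trans h8
  obtain ⟨g, hg1, hg2, hg3⟩ := hS L hL σ hσ ω A δ q u R lam ρ κ₀ z hδ hC h1 h2 hz hu hcard hE2
    (fun a ha b hb hab => (card_le_card (filter_subset_filter _
      (range_subset_range.2 (by
        have : u * q ≤ (u + 1) * q := Nat.mul_le_mul_right _ (Nat.le_succ _)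
        omega)))).trans (hE3 a ha b hb hab)) h4 h5 h6 h7 n hn1 hn2
  set T := TT (ed ∘ σ) ω A δ n with hT
  have hB := Pool.Agent.Q68.LC.bas2 (Fin d → ZMod L) (ed ∘ σ) ω A δ hδ.le hδ1
  have hrow : ∑ y, T z y = 1 := hB.2.1 _ z
  have e1 : ∑ x ∈ S, T z x = ∑ x ∈ S, g x + ∑ x ∈ S, (T z x - g x) := by
    rw [← sum_add_distrib]
    exact sum_congr rfl fun x _ => by ring
  have e2 : ∑ x ∈ S, (T z x - g x) ≤ Real.exp (-(u : ℝ)) := by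
    calc ∑ x ∈ S, (T z x - g x) ≤ ∑ x, (T z x - g x) :=
          sum_le_sum_of_subset_of_nonneg (subset_univ _) fun x _ _ => by
            have := (hg1 x).2.1
            linarith
      _ = 1 - ∑ y, g y := by rw [sum_sub_distrib, hrow]
      _ ≤ _ := hg3
  have e3 : ∑ x ∈ S, g x = ∑ x ∈ S ∩ bal z R, g x := by
    symm
    refine sum_subset inter_subset_left fun x hx hx2 => ?_
    by_contra hgx
    exact hx2 (mem_inter.2 ⟨hx, (Pool.Agent.Q257.LC.mem_bal _ _ _).2 ((hg1 x).2.2 hgx)⟩)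
  have e4 : ∑ x ∈ S ∩ bal z R, g x ≤ Real.sqrt (N * (20 / Real.sqrt u)) := by
    apply Real.le_sqrt_of_sq_le
    calc (∑ x ∈ S ∩ bal z R, g x) ^ 2 ≤ ((S ∩ bal z R).card : ℝ) * ∑ x ∈ S ∩ bal z R, g x ^ 2 :=
          sq_sum_le_card_mul_sum_sq
      _ ≤ N * (20 / Real.sqrt u) := by
          have h10 : ∑ x ∈ S ∩ bal z R, g x ^ 2 ≤ 20 / Real.sqrt u :=
            (sum_le_sum_of_subset_of_nonneg (subset_univ _) fun x _ _ => sq_nonneg _).trans hg2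
          exact mul_le_mul hN h10 (sum_nonneg fun x _ => sq_nonneg _)
            (le_trans (Nat.cast_nonneg _) hN)
  rw [e1, e3]
  exact add_le_add e4 e2

/-- the part of the square norm on the bad points -/
theorem Fs_smooth (hG : GEO2b d) {Cs : ℕ} (hSMO : SMO2b d Cs) (hd : 1 ≤ d) (hL : 3 ≤ L)
    {σ : ℕ → (Fin d → ZMod L) × Fin d} (hσ : Per σ) {ω : ℕ → Bool}
    {A : Finset (Fin d → ZMod L)} {δ : ℝ} {q K u ρ lam r κ₀ R b W : ℕ} (hq : 1 ≤ q)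
    (hδ : 0 < δ) (hδ1 : 16 * d * δ ≤ 1) (hC : Cs * δ ≤ 1) (h1 : 1 ≤ δ * q) (h3 : δ * q ≤ 2)
    (hE : Ev σ q K lam r ρ κ₀ ω A) (hu : 1 ≤ u) (hr : R + ρ * (u + 1) + 4 ≤ r)
    (h4 : 4 * lam ^ 2 * κ₀ ≤ u) (h5 : 4 * lam * ρ ≤ q) (h6 : Cs * (lam * ρ + 1) * (u + 1) ≤ R)
    (h7 : 4 * R + 8 ≤ L)
    (hb : lam + 2 * (lam * ρ) ≤ b) (hbW : b + 5 ≤ W)
    (hWL : 4 * W + 1 ≤ L) (hWr : 4 * W + ρ + 8 ≤ r) (hWR : R + W + ρ + 8 ≤ r)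
    (hsm : Real.sqrt ((b : ℝ) ^ 2 * (20 / Real.sqrt u)) + Real.exp (-(u : ℝ)) ≤ 1 / 32)
    {f : (Fin d → ZMod L) → ℝ} (hf : ∀ x ∈ A, f x = 0) (s : ℕ)
    (hs : s < K * q) (hus : (u + 1) * q ≤ s) :
    ∑ x ∈ Ds W σ ω A s, fs σ ω A δ f s x ^ 2 ≤ Fs σ ω A δ f (s - (u + 1) * q) / 32 := by
  have hd' : (1 : ℝ) ≤ d := by exact_mod_cast hd
  have hδ1' : δ ≤ 1 := by nlinarith
  obtain ⟨j, hj⟩ : ∃ j, j = s / q := ⟨_, rfl⟩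
  obtain ⟨t, ht⟩ : ∃ t, t = s % q := ⟨_, rfl⟩
  have hst : s = j * q + t := by rw [hj, ht]; exact (Nat.div_add_mod' s q).symm
  have htq : t < q := by rw [ht]; exact Nat.mod_lt _ (by omega)
  have hjK : j < K := by
    rw [hj]
    exact (Nat.div_lt_iff_lt_mul (by omega)).2 hs
  have huj : u + 1 ≤ j := by
    rw [hj, Nat.le_div_iff_mul_le (by omega)]
    exact hus
  obtain ⟨i, hi⟩ : ∃ i, j = i + u := ⟨j - u, by omega⟩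
  have hE1 := (Pool.Agent.Q277.LC.sub d L hL σ hσ q K lam r ρ κ₀ ω A hE i (u + 1) (by omega)).2
  have hs2 : s = i * q + (u * q + t) := by rw [hst, hi]; ring
  have hmono : Fs σ ω A δ f (i * q) ≤ Fs σ ω A δ f (s - (u + 1) * q) := by
    refine Fs_anti hd hL hσ ω A hδ hδ1 f ?_
    have : (u + 1) * q = u * q + q := by ring
    omega
  refine le_trans ?_ (div_le_div_of_nonneg_right hmono (by norm_num))
  have hms : i * (q * ms d L) = (i * q) * ms d L := by ring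
  rw [hms] at hE1
  have hEs : Ev σ q (u + 1) lam r ρ κ₀ (sh ((i * q) * ms d L) ω) (As σ ω A (i * q)) := hE1
  have hn1 : u * (q * ms d L) ≤ (u * q + t) * ms d L := by
    have : u * (q * ms d L) = (u * q) * ms d L := by ring
    rw [this]
    exact Nat.mul_le_mul_right _ (by omega)
  have hn2 : (u * q + t) * ms d L ≤ (u + 1) * (q * ms d L) := by
    have : (u + 1) * (q * ms d L) = (u * q + q) * ms d L := by ring
    rw [this]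
    exact Nat.mul_le_mul_right _ (by omega)
  have hB := Pool.Agent.Q68.LC.bas2 _ (ed ∘ σ) (sh ((i * q) * ms d L) ω) (As σ ω A (i * q)) δ
    hδ.le hδ1'
  set T := TT (ed ∘ σ) (sh ((i * q) * ms d L) ω) (As σ ω A (i * q)) δ ((u * q + t) * ms d L)
    with hT
  set S := Ds W σ ω A s with hS
  have hcS : ∀ z, ((S ∩ bal z R).card : ℝ) ≤ (b : ℝ) ^ 2 := by
    intro z
    have := Ds_card hG hd hL hσ hq hE hb hbW hWL hWr s hs z R hWR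
    exact_mod_cast this
  have hfs : fs σ ω A δ f s = vecMul (fs σ ω A δ f (i * q)) T := by
    rw [hs2]
    exact fs_add hσ ω A hδ.le hδ1' f (i * q) (u * q + t)
  rw [hfs]
  calc ∑ x ∈ S, vecMul (fs σ ω A δ f (i * q)) T x ^ 2
      ≤ ∑ x ∈ S, ∑ z, fs σ ω A δ f (i * q) z ^ 2 * T z x :=
        sum_le_sum fun x _ => Pool.Agent.Q257.LC.vecMul_sq_le T _ (hB.1 _)
          (fun y => (hB.2.2.1 _ y).le) x
    _ = ∑ z, fs σ ω A δ f (i * q) z ^ 2 * ∑ x ∈ S, T z x := by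
        rw [sum_comm]
        exact sum_congr rfl fun z _ => by rw [mul_sum]
    _ ≤ ∑ z, fs σ ω A δ f (i * q) z ^ 2 * (1 / 32) := by
        refine sum_le_sum fun z _ => ?_
        by_cases hz : z ∈ As σ ω A (i * q)
        · rw [fs_zero σ ω A hδ.le hδ1' hf (i * q) z hz]
          simp
        · refine mul_le_mul_of_nonneg_left ?_ (sq_nonneg _)
          refine le_trans ?_ hsm
          exact smooth2 hSMO hL σ hσ _ _ z hδ hδ1' hC h1 h3 hz hu hEs hr h4 h5 h6 h7 _ hn1 hn2 S _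
            (hcS z)
    _ = Fs σ ω A δ f (i * q) / 32 := by
        rw [← sum_mul]
        unfold Fs
        ring

end sweep

end Pool.Agent.J6H44.P2
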