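import Pool.Agent.J6H44.P2.LapA

/-! Project P2: window and block arguments for `S_LAP2`. -/

set_option autoImplicit false

namespace Pool.Agent.J6H44.P2

open Finset Equiv Matrix Q292.LC

/-- decrease of the square norm of a nonnegative function in one step -/
theorem window2 {d : ℕ} (hd : d = 2) {Cn : ℝ} (hCn : 1 ≤ Cn) (hNAS : Pool.Agent.Q257.LC.NASb d Cn)
    {L : ℕ} [NeZero L] (hL : 3 ≤ L) (Dm : Finset (Fin d → ZMod L)) {κ F1 : ℝ} {r0 : ℕ}
    (hκ : 0 < κ)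
    (hbox : ∀ v, 2 * (Dm ∩ Q292.LC.box v r0).card ≤ r0 ^ d) (hr0 : 1 ≤ r0) (hrL : 2 * r0 ≤ L)
    (f : (Fin d → ZMod L) → ℝ) (hf0 : ∀ x, 0 ≤ f x) (hf1 : ∑ x, f x ≤ 1)
    (hE : κ * en r0 Dm f ≤ ∑ x, f x ^ 2 - F1)
    (hfD : ∑ x ∈ Dm, f x ^ 2 ≤ (∑ x, f x ^ 2) / 2) :
    ∑ x, f x ^ 2 ≤ 16 * Cn / (L : ℝ) ^ d ∨
      κ / (64 * Cn ^ 2) * (∑ x, f x ^ 2) ^ 2 ≤ ∑ x, f x ^ 2 - F1 := by
  have edR : ∀ a : ℝ, a ^ d = a ^ 2 := fun a => by rw [hd]
  set F := ∑ x, f x ^ 2 with hF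
  have hF0 : 0 ≤ F := sum_nonneg fun x _ => sq_nonneg _
  have hL0 : (0 : ℝ) < L := by
    have : 0 < L := by omega
    exact_mod_cast this
  rcases hF0.eq_or_lt with hF00 | hFpos
  · left
    rw [← hF00]
    positivity
  have hr0' : (1 : ℝ) ≤ r0 := by exact_mod_cast hr0
  have hr2 : (1 : ℝ) ≤ (r0 : ℝ) ^ 2 := one_le_pow₀ hr0'
  have hCr : Cn ≤ Cn * (r0 : ℝ) ^ 2 := le_mul_of_one_le_right (by linarith) hr2
  have hf2 : (∑ x, f x) ^ 2 ≤ 1 := by
    have := sum_nonneg fun x (_ : x ∈ univ) => hf0 x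
    nlinarith
  have hFle : F ≤ 1 := by
    have h1 : F ≤ (∑ x, f x) ^ 2 := by
      rw [hF]
      exact Finset.sum_sq_le_sq_sum_of_nonneg fun x _ => hf0 x
    exact h1.trans hf2
  obtain ⟨θ, hθ⟩ : ∃ θ, θ = Real.sqrt (4 * Cn / F) := ⟨_, rfl⟩
  have hθpos : 0 < θ := by rw [hθ]; exact Real.sqrt_pos.2 (by positivity)
  have hθd : θ ^ 2 = 4 * Cn / F := by rw [hθ]; exact Real.sq_sqrt (by positivity)
  obtain ⟨t, ht⟩ : ∃ t, t = θ / r0 := ⟨_, rfl⟩
  have htpos : 0 < t := by rw [ht]; positivity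
  obtain ⟨M, hM⟩ : ∃ M, M = ⌈t⌉₊ := ⟨_, rfl⟩
  have hM1 : 1 ≤ M := by rw [hM]; exact Nat.one_le_iff_ne_zero.2 (Nat.ceil_pos.2 htpos).ne'
  have hMt : t ≤ M := by rw [hM]; exact Nat.le_ceil t
  have hMt1 : (M : ℝ) < t + 1 := by rw [hM]; exact Nat.ceil_lt_add_one htpos.le
  have htr : t * r0 = θ := by
    rw [ht]
    field_simp
  by_cases hML : M * r0 ≤ L
  · right
    have hN := hNAS L r0 M hr0 hM1 hML Dm hbox f hf0
    obtain ⟨E, hEd⟩ : ∃ E, E = en r0 Dm f := ⟨_, rfl⟩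
    have hE0 : 0 ≤ E := by rw [hEd]; exact en_nonneg _ _ _
    have hN' : ∑ x ∈ univ \ Dm, (f x) ^ 2 ≤ Cn * M ^ 2 / (r0 : ℝ) ^ d * E +
        Cn / ((M * r0 : ℕ) : ℝ) ^ d * (∑ x, f x) ^ 2 := by
      rw [hEd]
      exact hN
    have hsplit : F = ∑ x ∈ Dm, f x ^ 2 + ∑ x ∈ univ \ Dm, f x ^ 2 := by
      rw [hF, ← sum_sdiff (subset_univ Dm), add_comm]
    have hMr : θ ≤ ((M * r0 : ℕ) : ℝ) := by
      push_cast
      rw [← htr]
      exact mul_le_mul_of_nonneg_right hMt (by linarith)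
    have htail : Cn / ((M * r0 : ℕ) : ℝ) ^ d * (∑ x, f x) ^ 2 ≤ F / 4 := by
      have h11 : Cn / ((M * r0 : ℕ) : ℝ) ^ d ≤ F / 4 := by
        have h12 : θ ^ 2 ≤ ((M * r0 : ℕ) : ℝ) ^ 2 := pow_le_pow_left₀ hθpos.le hMr 2
        rw [hθd] at h12
        rw [edR, div_le_div_iff₀ (lt_of_lt_of_le (by positivity) h12) (by norm_num)]
        rw [div_le_iff₀ hFpos] at h12
        linarith
      calc Cn / ((M * r0 : ℕ) : ℝ) ^ d * (∑ x, f x) ^ 2 ≤ Cn / ((M * r0 : ℕ) : ℝ) ^ d * 1 :=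
            mul_le_mul_of_nonneg_left hf2 (by positivity)
        _ ≤ F / 4 := by rw [mul_one]; exact h11
    have hmain : F / 4 ≤ Cn * M ^ 2 / (r0 : ℝ) ^ 2 * E := by
      rw [edR] at hN'
      linarith
    have hdec0 : 0 ≤ F - F1 := by
      have : 0 ≤ κ * en r0 Dm f := mul_nonneg hκ.le (en_nonneg _ _ _)
      linarith
    rw [← hEd] at hE
    -- `r0² F ≤ 4 Cn M² E`
    have h15 : (r0 : ℝ) ^ 2 * F ≤ 4 * (Cn * M ^ 2) * E := by
      have h16 : (0 : ℝ) < (r0 : ℝ) ^ 2 := by positivity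
      have h17 : Cn * M ^ 2 / (r0 : ℝ) ^ 2 * E = (Cn * M ^ 2 * E) / (r0 : ℝ) ^ 2 := by ring
      rw [h17, le_div_iff₀ h16] at hmain
      linarith
    have h18 : κ * ((r0 : ℝ) ^ 2 * F) ≤ 4 * (Cn * M ^ 2) * (F - F1) := by
      calc κ * ((r0 : ℝ) ^ 2 * F) ≤ κ * (4 * (Cn * M ^ 2) * E) :=
            mul_le_mul_of_nonneg_left h15 hκ.le
        _ = 4 * (Cn * M ^ 2) * (κ * E) := by ring
        _ ≤ _ := mul_le_mul_of_nonneg_left hE (by positivity)
    have hM0 : (0 : ℝ) ≤ M := Nat.cast_nonneg _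
    -- `M² F ≤ 16 Cn r0²`
    have h19 : (M : ℝ) ^ 2 * F ≤ 16 * Cn * (r0 : ℝ) ^ 2 := by
      rcases le_or_gt t 1 with ht1 | ht1
      · have hM4 : (M : ℝ) ^ 2 ≤ 4 := by nlinarith
        calc (M : ℝ) ^ 2 * F ≤ 4 * 1 := mul_le_mul hM4 hFle hF0 (by norm_num)
          _ ≤ 16 * Cn * (r0 : ℝ) ^ 2 := by linarith
      · have hM4 : (M : ℝ) ^ 2 ≤ 4 * t ^ 2 := by nlinarith
        have h20 : t ^ 2 * F = 4 * Cn / (r0 : ℝ) ^ 2 := by
          rw [ht, div_pow, hθd]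
          field_simp
        have h21 : 4 * Cn / (r0 : ℝ) ^ 2 ≤ 4 * Cn := by
          rw [div_le_iff₀ (by positivity)]
          linarith
        calc (M : ℝ) ^ 2 * F ≤ 4 * t ^ 2 * F := mul_le_mul_of_nonneg_right hM4 hF0
          _ = 4 * (t ^ 2 * F) := by ring
          _ ≤ 4 * (4 * Cn) := by rw [h20]; linarith
          _ ≤ 16 * Cn * (r0 : ℝ) ^ 2 := by linarith
    have h22 : κ * ((r0 : ℝ) ^ 2 * F) * F ≤ 64 * Cn ^ 2 * (F - F1) * (r0 : ℝ) ^ 2 := by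
      calc κ * ((r0 : ℝ) ^ 2 * F) * F ≤ 4 * (Cn * M ^ 2) * (F - F1) * F :=
            mul_le_mul_of_nonneg_right h18 hF0
        _ = 4 * Cn * (F - F1) * (M ^ 2 * F) := by ring
        _ ≤ 4 * Cn * (F - F1) * (16 * Cn * (r0 : ℝ) ^ 2) :=
            mul_le_mul_of_nonneg_left h19 (by positivity)
        _ = _ := by ring
    have h23 : κ * F ^ 2 ≤ 64 * Cn ^ 2 * (F - F1) := by
      have h24 : (κ * F ^ 2) * (r0 : ℝ) ^ 2 ≤ (64 * Cn ^ 2 * (F - F1)) * (r0 : ℝ) ^ 2 := by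
        calc (κ * F ^ 2) * (r0 : ℝ) ^ 2 = κ * ((r0 : ℝ) ^ 2 * F) * F := by ring
          _ ≤ _ := h22
      exact le_of_mul_le_mul_right h24 (by positivity)
    rw [div_mul_eq_mul_div, div_le_iff₀ (by positivity)]
    linarith
  · left
    push Not at hML
    have h9 : (L : ℝ) < M * r0 := by exact_mod_cast hML
    have h10 : (L : ℝ) < θ + r0 := by
      calc (L : ℝ) < M * r0 := h9
        _ ≤ (t + 1) * r0 := mul_le_mul_of_nonneg_right hMt1.le (by linarith)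
        _ = θ + r0 := by rw [← htr]; ring
    have h11 : (2 : ℝ) * r0 ≤ L := by exact_mod_cast hrL
    have h12 : (L : ℝ) / 2 ≤ θ := by linarith
    have h13 : ((L : ℝ) / 2) ^ 2 ≤ 4 * Cn / F := by
      rw [← hθd]
      exact pow_le_pow_left₀ (by positivity) h12 2
    rw [div_pow, div_le_div_iff₀ (by positivity) hFpos] at h13
    rw [edR, le_div_iff₀ (by positivity)]
    linarith

/-- decrease over a block: sum of the decreases in its sweeps -/
theorem block_sum (F : ℕ → ℝ) (s₀ n : ℕ) (c : ℝ)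
    (h : ∀ i < n, c ≤ F (s₀ + i) - F (s₀ + i + 1)) : n * c ≤ F s₀ - F (s₀ + n) := by
  induction n with
  | zero => simp
  | succ n ih =>
    have h1 := ih fun i hi => h i (by omega)
    have h2 := h n (by omega)
    push_cast
    rw [← add_assoc]
    linarith

/-- blocks for nonnegative functions -/
theorem block_pos (F G : ℕ → ℝ) (hanti : Antitone F) (h0 : ∀ s, 0 ≤ F s) (n V : ℕ) (c m₀ : ℝ)
    (hc : 0 ≤ c)
    (hS : ∀ s, V ≤ s → s < n → G s ≤ F (s - V) / 32)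
    (hW : ∀ s, s < n → G s ≤ F s / 2 → F s ≤ m₀ ∨ c * F s ^ 2 ≤ F s - F (s + 1))
    (k : ℕ) (hk : 1 ≤ k) (hkn : (k + 1) * V ≤ n) :
    F ((k + 1) * V) < F ((k - 1) * V) / 4 ∨ F ((k + 1) * V) ≤ m₀ ∨
      (V * c) * F ((k + 1) * V) ^ 2 ≤ F (k * V) - F ((k + 1) * V) := by
  by_cases h1 : F ((k + 1) * V) < F ((k - 1) * V) / 4
  · exact Or.inl h1
  right
  by_cases h2 : F ((k + 1) * V) ≤ m₀
  · exact Or.inl h2
  right
  push Not at h1 h2
  have hkk : (k + 1) * V = k * V + V := by ring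
  have h3 : ∀ i < V, c * F ((k + 1) * V) ^ 2 ≤ F (k * V + i) - F (k * V + i + 1) := by
    intro i hi
    have hsn : k * V + i < n := by omega
    have hV : V ≤ k * V + i := by
      have : 1 * V ≤ k * V := Nat.mul_le_mul_right _ hk
      omega
    have hFb : F ((k + 1) * V) ≤ F (k * V + i) := hanti (by omega)
    have h4 := hS _ hV hsn
    have h5 : F (k * V + i - V) ≤ F ((k - 1) * V) := by
      refine hanti ?_
      have : (k - 1) * V = k * V - V := by rw [Nat.sub_mul, one_mul]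
      omega
    have h6 := h0 (k * V + i)
    rcases hW _ hsn (by linarith) with h7 | h7
    · linarith
    · refine le_trans (mul_le_mul_of_nonneg_left ?_ hc) h7
      exact pow_le_pow_left₀ (h0 _) hFb 2
  have h8 := block_sum F (k * V) V _ h3
  rw [← hkk] at h8
  calc (V * c) * F ((k + 1) * V) ^ 2 = V * (c * F ((k + 1) * V) ^ 2) := by ring
    _ ≤ _ := h8

/-- blocks for functions with sum zero -/
theorem block_gap (F G : ℕ → ℝ) (hanti : Antitone F) (h0 : ∀ s, 0 ≤ F s) (n V : ℕ) (c : ℝ)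
    (hc : 0 ≤ c) (hc3 : V * c ≤ 3)
    (hS : ∀ s, V ≤ s → s < n → G s ≤ F (s - V) / 32)
    (hW : ∀ s, s < n → G s ≤ F s / 8 → c * F s ≤ F s - F (s + 1))
    (k : ℕ) (hk : 1 ≤ k) (hkn : (k + 1) * V ≤ n) :
    (1 + V * c) * F ((k + 1) * V) ≤ F ((k - 1) * V) := by
  by_cases h1 : F ((k + 1) * V) < F ((k - 1) * V) / 4
  · have h2 : (1 + V * c) * F ((k + 1) * V) ≤ 4 * F ((k + 1) * V) :=
      mul_le_mul_of_nonneg_right (by linarith) (h0 _)
    linarith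
  push Not at h1
  have hkk : (k + 1) * V = k * V + V := by ring
  have h3 : ∀ i < V, c * F ((k + 1) * V) ≤ F (k * V + i) - F (k * V + i + 1) := by
    intro i hi
    have hsn : k * V + i < n := by omega
    have hV : V ≤ k * V + i := by
      have : 1 * V ≤ k * V := Nat.mul_le_mul_right _ hk
      omega
    have hFb : F ((k + 1) * V) ≤ F (k * V + i) := hanti (by omega)
    have h4 := hS _ hV hsn
    have h5 : F (k * V + i - V) ≤ F ((k - 1) * V) := by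
      refine hanti ?_
      have : (k - 1) * V = k * V - V := by rw [Nat.sub_mul, one_mul]
      omega
    have h6 := h0 (k * V + i)
    have h7 := hW _ hsn (by linarith)
    exact le_trans (mul_le_mul_of_nonneg_left hFb hc) h7
  have h8 := block_sum F (k * V) V _ h3
  rw [← hkk] at h8
  have h9 : F (k * V) ≤ F ((k - 1) * V) := hanti (Nat.mul_le_mul_right _ (Nat.sub_le _ _))
  calc (1 + V * c) * F ((k + 1) * V) = F ((k + 1) * V) + V * (c * F ((k + 1) * V)) := by ring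
    _ ≤ _ := by linarith

/-- iteration over the blocks -/
theorem block_iter (F : ℕ → ℝ) (h0 : ∀ s, 0 ≤ F s) (V n : ℕ) (γ : ℝ) (hγ : 0 ≤ γ)
    (h : ∀ k, 1 ≤ k → k + 1 ≤ n → (1 + γ) * F ((k + 1) * V) ≤ F ((k - 1) * V)) (j : ℕ)
    (hj : 2 * j ≤ n) : (1 + j * γ) * F ((2 * j) * V) ≤ F 0 := by
  have h1 : (1 + γ) ^ j * F ((2 * j) * V) ≤ F 0 := by
    induction j with
    | zero => simp
    | succ j ih =>
      have h2 := ih (by omega)
      have h3 := h (2 * j + 1) (by omega) (by omega)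
      have e1 : (2 * j + 1 + 1) * V = (2 * (j + 1)) * V := by ring
      have e2 : 2 * j + 1 - 1 = 2 * j := by omega
      rw [e1, e2] at h3
      calc (1 + γ) ^ (j + 1) * F ((2 * (j + 1)) * V)
          = (1 + γ) ^ j * ((1 + γ) * F ((2 * (j + 1)) * V)) := by ring
        _ ≤ (1 + γ) ^ j * F ((2 * j) * V) := mul_le_mul_of_nonneg_left h3 (by positivity)
        _ ≤ _ := h2
  have h2 : 1 + j * γ ≤ (1 + γ) ^ j := one_add_mul_le_pow (by linarith) j
  exact (mul_le_mul_of_nonneg_right h2 (h0 _)).trans h1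

end Pool.Agent.J6H44.P2
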